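import Pool.Agent.Run7.h760.Rep2

/-! Behaviour of the traces of words in `s_1, s_2^{-1}` as the real variable tends to zero. -/

set_option autoImplicit false

namespace Pool.Agent.Run7.h760

open Finset Matrix Filter Topology
open Pool.Agent.H550R3.Jones (br brf)
open Pool.Agent.Y482.CY (sb LL UU Nz)
open Pool.Agent.Y481.CC (LI UI CM Lt TW permL wr)

/-- `y → 0+` -/
abbrev l0 : Filter ℝ := 𝓝[>] (0 : ℝ)

theorem ev_pos : ∀ᶠ y : ℝ in l0, 0 < y := eventually_mem_nhdsWithin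

theorem ev_lt : ∀ᶠ y : ℝ in l0, y < 1 :=
  mem_nhdsWithin_of_mem_nhds (Iio_mem_nhds one_pos)

theorem cne {y : ℝ} (hy : 0 < y) : (y : ℂ) ≠ 0 := by exact_mod_cast hy.ne'

theorem nz_real {y : ℝ} (h0 : 0 < y) (h1 : y < 1) (n : ℕ) : Nz (y : ℂ) n := by
  intro l hl _ h
  unfold br at h
  have h2 : (y : ℂ) ^ (l : ℤ) = (y : ℂ) ^ (-(l : ℤ)) := sub_eq_zero.1 h
  have h3 : (y : ℂ) ^ (l : ℤ) * (y : ℂ) ^ (l : ℤ) = 1 := by
    nth_rewrite 2 [h2]
    rw [← zpow_add₀ (cne h0)]; simp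
  rw [zpow_natCast, ← pow_add] at h3
  have h4 : y ^ (l + l) = 1 := by exact_mod_cast h3
  have h5 : y ^ (l + l) < 1 := pow_lt_one₀ h0.le h1 (by omega)
  linarith

theorem ev_nz (n : ℕ) : ∀ᶠ y : ℝ in l0, Nz (y : ℂ) n := by
  filter_upwards [ev_pos, ev_lt] with y h0 h1 using nz_real h0 h1 n

theorem zp0 {n : ℤ} (hn : 0 < n) : Tendsto (fun y : ℝ => (y : ℂ) ^ n) l0 (𝓝 0) := by
  obtain ⟨k, rfl⟩ : ∃ k : ℕ, n = k := ⟨n.toNat, by omega⟩
  have hk : k ≠ 0 := by omega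
  have h : Continuous fun y : ℝ => (y : ℂ) ^ k := by fun_prop
  have h2 := h.tendsto 0
  simp only [Complex.ofReal_zero, zero_pow hk] at h2
  simpa using h2.mono_left nhdsWithin_le_nhds

theorem zpn {n : ℤ} (hn : 0 ≤ n) :
    Tendsto (fun y : ℝ => (y : ℂ) ^ n) l0 (𝓝 (if n = 0 then 1 else 0)) := by
  rcases hn.eq_or_lt with h | h
  · subst h; simp
  · rw [if_neg h.ne']; exact zp0 h

/-- the Gaussian binomial as a polynomial in `v ^ 2` -/
noncomputable def gq (v : ℂ) (n k : ℕ) : ℂ := v ^ ((k : ℤ) * ((n : ℤ) - k)) * gb v n k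

theorem gq_lim (n : ℕ) : ∀ k, Tendsto (fun y : ℝ => gq (y : ℂ) n k) l0
    (𝓝 (if k ≤ n then 1 else 0)) := by
  induction n with
  | zero =>
    intro k
    rcases Nat.eq_zero_or_pos k with h | h
    · subst h
      have : ∀ y : ℝ, gq (y : ℂ) 0 0 = 1 := by
        intro y
        simp [gq, gb_zero (v := (y : ℂ)) (n := 0) (fun l h1 h2 => absurd h2 (by omega))]
      simp [this]
    · have : ∀ y : ℝ, gq (y : ℂ) 0 k = 0 := by
        intro y; simp [gq, gb_gt h]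
      simp only [this]
      rw [if_neg (by omega)]
      exact tendsto_const_nhds
  | succ n ih =>
    intro k
    cases k with
    | zero =>
      have h : (fun y : ℝ => gq (y : ℂ) (n + 1) 0) =ᶠ[l0] fun _ => 1 := by
        filter_upwards [ev_nz (n + 1)] with y hy
        simp [gq, gb_zero hy]
      simp only [Nat.zero_le, if_true]
      exact (tendsto_congr' h).2 tendsto_const_nhds
    | succ k =>
      rcases lt_trichotomy k n with hk | hk | hk
      · have h : (fun y : ℝ => gq (y : ℂ) (n + 1) (k + 1)) =ᶠ[l0]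
            fun y => gq (y : ℂ) n (k + 1) + (y : ℂ) ^ (2 * ((n : ℤ) - k)) * gq (y : ℂ) n k := by
          filter_upwards [ev_pos, ev_nz (n + 1)] with y h0 hy
          have hv := cne h0
          unfold gq
          rw [P2 hv k hy]
          have e1 : (y : ℂ) ^ (((k + 1 : ℕ) : ℤ) * (((n + 1 : ℕ) : ℤ) - ((k + 1 : ℕ) : ℤ))) *
              (y : ℂ) ^ (-((k : ℤ) + 1)) = (y : ℂ) ^ (((k + 1 : ℕ) : ℤ) *
              ((n : ℤ) - ((k + 1 : ℕ) : ℤ))) := z2 hv (by push_cast; ring)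
          have e2 : (y : ℂ) ^ (((k + 1 : ℕ) : ℤ) * (((n + 1 : ℕ) : ℤ) - ((k + 1 : ℕ) : ℤ))) *
              (y : ℂ) ^ ((n : ℤ) - k) = (y : ℂ) ^ (2 * ((n : ℤ) - k)) *
              (y : ℂ) ^ ((k : ℤ) * ((n : ℤ) - k)) := z22 hv (by push_cast; ring)
          linear_combination gb (y : ℂ) n (k + 1) * e1 + gb (y : ℂ) n k * e2
        refine (tendsto_congr' h).2 ?_
        have h1 := ih (k + 1)
        have h2 := ih k
        rw [if_pos (by omega)] at h1 h2 ⊢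
        have h3 := h1.add ((zp0 (n := 2 * ((n : ℤ) - k)) (by omega)).mul h2)
        simpa using h3
      · subst hk
        have h : (fun y : ℝ => gq (y : ℂ) (k + 1) (k + 1)) =ᶠ[l0] fun _ => 1 := by
          filter_upwards [ev_nz (k + 1)] with y hy
          simp [gq, gb_self hy]
        simp only [le_refl, if_true]
        exact (tendsto_congr' h).2 tendsto_const_nhds
      · have : ∀ y : ℝ, gq (y : ℂ) (n + 1) (k + 1) = 0 := by
          intro y; simp [gq, gb_gt (show n + 1 < k + 1 by omega)]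
        simp only [this]
        rw [if_neg (by omega)]
        exact tendsto_const_nhds

/-- normalised `s_1` -/
noncomputable def Ln (b m : ℕ) (v : ℂ) : Matrix (Fin (m + 1)) (Fin (m + 1)) ℂ := fun i j =>
  if (j : ℕ) ≤ i then (-1) ^ (m - (i : ℕ)) *
    v ^ (((m : ℤ) - (i : ℕ)) * (2 * (b : ℤ) - 1 - m - (i : ℕ))) * gq v (m - j) (i - j) else 0

/-- normalised `s_2^{-1}` -/
noncomputable def Un (b m : ℕ) (v : ℂ) : Matrix (Fin (m + 1)) (Fin (m + 1)) ℂ := fun i j =>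
  (-1) ^ (m - (i : ℕ)) *
    v ^ (((m : ℤ) - (i : ℕ)) * (2 * (b : ℤ) - 1 - m - (i : ℕ)) +
      2 * ((m : ℤ) - (j : ℕ)) * (i : ℕ)) * gq v j i

/-- normalised letter -/
noncomputable def Xn (b m : ℕ) (v : ℂ) (c : Bool) : Matrix (Fin (m + 1)) (Fin (m + 1)) ℂ :=
  if c then Ln b m v else Un b m v

/-- normalised word -/
noncomputable def Nw (b m : ℕ) (v : ℂ) (u : List Bool) : Matrix (Fin (m + 1)) (Fin (m + 1)) ℂ :=
  (u.map (Xn b m v)).prod

/-- a word in `s_1` (true) and `s_2^{-1}` (false) -/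
def mw (u : List Bool) : List Lt := u.map fun c => if c then (false, true) else (true, false)

/-- the diagonal conjugating matrix and its inverse -/
noncomputable def Wd (m : ℕ) (v : ℂ) : Matrix (Fin (m + 1)) (Fin (m + 1)) ℂ :=
  Matrix.diagonal fun i => v ^ (((i : ℕ) : ℤ) * ((m : ℤ) - (i : ℕ)))
noncomputable def Wi (m : ℕ) (v : ℂ) : Matrix (Fin (m + 1)) (Fin (m + 1)) ℂ :=
  Matrix.diagonal fun i => v ^ (-(((i : ℕ) : ℤ) * ((m : ℤ) - (i : ℕ))))

theorem Wi_Wd {v : ℂ} (hv : v ≠ 0) (m : ℕ) : Wi m v * Wd m v = 1 := by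
  unfold Wi Wd
  rw [Matrix.diagonal_mul_diagonal, ← Matrix.diagonal_one]
  congr 1
  funext i
  rw [z2 hv (show _ = (0 : ℤ) by ring), zpow_zero]

theorem Wd_Wi {v : ℂ} (hv : v ≠ 0) (m : ℕ) : Wd m v * Wi m v = 1 := by
  unfold Wi Wd
  rw [Matrix.diagonal_mul_diagonal, ← Matrix.diagonal_one]
  congr 1
  funext i
  rw [z2 hv (show _ = (0 : ℤ) by ring), zpow_zero]

/-- leading factor of `s_1` -/
noncomputable def cL (b m : ℕ) (v : ℂ) : ℂ := (-1) ^ m * v ^ (-((m : ℤ) * (2 * (b : ℤ) - 1 - m)))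

theorem LI_norm {v : ℂ} (hv : v ≠ 0) (b m : ℕ) :
    LI b m v = cL b m v • (Wd m v * Ln b m v * Wi m v) := by
  ext i j
  rw [Matrix.smul_apply, smul_eq_mul]
  unfold Wd Wi
  rw [Matrix.mul_diagonal, Matrix.diagonal_mul, LI_gb]
  unfold Ln cL gq
  have hi : (i : ℕ) ≤ m := by omega
  by_cases hj : (j : ℕ) ≤ i
  · rw [if_pos hj, if_pos hj, neg1_sub hi]
    have c1 : ((m - (j : ℕ) : ℕ) : ℤ) = (m : ℤ) - (j : ℕ) := by omega
    have c2 : (((i : ℕ) - (j : ℕ) : ℕ) : ℤ) = ((i : ℕ) : ℤ) - (j : ℕ) := by omega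
    rw [c1, c2]
    have s1 : (-1 : ℂ) ^ m * (-1) ^ m = 1 := by rw [← mul_pow]; simp
    have e : v ^ (-(((i : ℕ) : ℤ) * (i : ℕ)) - (2 * (b : ℤ) - 2 * m - 1 - (j : ℕ)) * (i : ℕ) +
        ((j : ℕ) : ℤ) * (j : ℕ) - 2 * m * (j : ℕ)) =
        v ^ (-((m : ℤ) * (2 * (b : ℤ) - 1 - m))) * (v ^ (((i : ℕ) : ℤ) * ((m : ℤ) - (i : ℕ))) *
        v ^ (((m : ℤ) - (i : ℕ)) * (2 * (b : ℤ) - 1 - m - (i : ℕ))) *
        v ^ ((((i : ℕ) : ℤ) - (j : ℕ)) * (((m : ℤ) - (j : ℕ)) - (((i : ℕ) : ℤ) - (j : ℕ)))) *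
        v ^ (-(((j : ℕ) : ℤ) * ((m : ℤ) - (j : ℕ))))) := by
      rw [← zpow_add₀ hv, ← zpow_add₀ hv, ← zpow_add₀ hv, ← zpow_add₀ hv]
      congr 1; ring
    rw [e]
    linear_combination (-(-1) ^ (i : ℕ) * gb v (m - j) (i - j) *
      (v ^ (-((m : ℤ) * (2 * (b : ℤ) - 1 - m))) * (v ^ (((i : ℕ) : ℤ) * ((m : ℤ) - (i : ℕ))) *
        v ^ (((m : ℤ) - (i : ℕ)) * (2 * (b : ℤ) - 1 - m - (i : ℕ))) *
        v ^ ((((i : ℕ) : ℤ) - (j : ℕ)) * (((m : ℤ) - (j : ℕ)) - (((i : ℕ) : ℤ) - (j : ℕ)))) *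
        v ^ (-(((j : ℕ) : ℤ) * ((m : ℤ) - (j : ℕ))))))) * s1
  · rw [if_neg hj, if_neg hj]; simp

theorem UI_norm {v : ℂ} (hv : v ≠ 0) (b m : ℕ) :
    UI b m v = Wd m v * Un b m v * Wi m v := by
  ext i j
  unfold Wd Wi
  rw [Matrix.mul_diagonal, Matrix.diagonal_mul, UI_gb]
  unfold Un gq
  have e : v ^ (-(((m : ℤ) - (i : ℕ)) * ((m : ℤ) - (i : ℕ))) +
      (2 * (b : ℤ) - 1 - ((m : ℤ) - (j : ℕ))) * ((m : ℤ) - (i : ℕ)) +
      ((m : ℤ) - (j : ℕ)) * ((m : ℤ) - (j : ℕ))) =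
      (v ^ (((i : ℕ) : ℤ) * ((m : ℤ) - (i : ℕ))) *
      v ^ (((m : ℤ) - (i : ℕ)) * (2 * (b : ℤ) - 1 - m - (i : ℕ)) +
        2 * ((m : ℤ) - (j : ℕ)) * (i : ℕ)) *
      v ^ (((i : ℕ) : ℤ) * (((j : ℕ) : ℤ) - (i : ℕ))) *
      v ^ (-(((j : ℕ) : ℤ) * ((m : ℤ) - (j : ℕ))))) := by
    rw [← zpow_add₀ hv, ← zpow_add₀ hv, ← zpow_add₀ hv]
    congr 1; ring
  rw [e]; ring

theorem Mw_norm {v : ℂ} (hv : v ≠ 0) (b m : ℕ) (u : List Bool) :
    Mw b m v (mw u) = cL b m v ^ (u.count true) • (Wd m v * Nw b m v u * Wi m v) := by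
  induction u with
  | nil => simp [mw, Mw, Nw, Wd_Wi hv]
  | cons c u ih =>
    have h1 : Mw b m v (mw (c :: u)) =
        CM b m v (if c then (false, true) else (true, false)) * Mw b m v (mw u) := by
      simp [mw, Mw]
    have h2 : Nw b m v (c :: u) = Xn b m v c * Nw b m v u := by simp [Nw]
    rw [h1, ih, h2]
    have h3 : ∀ A B : Matrix (Fin (m + 1)) (Fin (m + 1)) ℂ,
        Wd m v * A * Wi m v * (Wd m v * B * Wi m v) = Wd m v * (A * B) * Wi m v := by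
      intro A B
      calc Wd m v * A * Wi m v * (Wd m v * B * Wi m v) =
          Wd m v * A * (Wi m v * Wd m v) * B * Wi m v := by simp only [Matrix.mul_assoc]
        _ = _ := by rw [Wi_Wd hv]; simp only [Matrix.mul_assoc, Matrix.one_mul]
    cases c with
    | true =>
      have h4 : CM b m v (if true then (false, true) else (true, false)) = LI b m v := by
        simp [CM]
      rw [h4, LI_norm hv, List.count_cons_self, pow_succ]
      simp only [Xn, if_true, Matrix.smul_mul, Matrix.mul_smul, smul_smul, h3]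
    | false =>
      have h4 : CM b m v (if false then (false, true) else (true, false)) = UI b m v := by
        simp [CM]
      rw [h4, UI_norm hv, List.count_cons_of_ne (by simp)]
      simp only [Xn, Bool.false_eq_true, if_false, Matrix.mul_smul, h3]

theorem TW_norm {v : ℂ} (hv : v ≠ 0) (b m : ℕ) (u : List Bool) :
    TW (mw u) b m v = cL b m v ^ (u.count true) * (Nw b m v u).trace := by
  rw [TW_eq, Mw_norm hv, Matrix.trace_smul, smul_eq_mul, Matrix.trace_mul_comm,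
    ← Matrix.mul_assoc, Wi_Wd hv, Matrix.one_mul]

end Pool.Agent.Run7.h760
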