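import Pool.Agent.Run7.h760.Asy

/-! First order expansion of the normalised words. -/

set_option autoImplicit false

namespace Pool.Agent.Run7.h760

open Finset Matrix Filter Topology
open Pool.Agent.H550R3.Jones (br brf)
open Pool.Agent.Y482.CY (sb LL UU Nz)
open Pool.Agent.Y481.CC (LI UI CM Lt TW permL wr)

/-- first order expansion `F = E + ε R + o(ε)` -/
def Expn {n : ℕ} (F : ℝ → Matrix (Fin n) (Fin n) ℂ) (ε : ℝ → ℂ)
    (E R : Matrix (Fin n) (Fin n) ℂ) : Prop :=
  Tendsto F l0 (𝓝 E) ∧ Tendsto (fun y => (ε y)⁻¹ • (F y - E)) l0 (𝓝 R)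

theorem Expn.mul {n : ℕ} {F F' : ℝ → Matrix (Fin n) (Fin n) ℂ} {ε : ℝ → ℂ}
    {E R E' R' : Matrix (Fin n) (Fin n) ℂ} (h : Expn F ε E R) (h' : Expn F' ε E' R') :
    Expn (fun y => F y * F' y) ε (E * E') (R * E' + E * R') := by
  refine ⟨h.1.mul h'.1, ?_⟩
  have h1 : (fun y => (ε y)⁻¹ • (F y * F' y - E * E')) =
      fun y => ((ε y)⁻¹ • (F y - E)) * F' y + E * ((ε y)⁻¹ • (F' y - E')) := by
    funext y
    rw [Matrix.smul_mul, Matrix.mul_smul, ← smul_add, Matrix.sub_mul, Matrix.mul_sub]
    congr 1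
    abel
  rw [h1]
  exact (h.2.mul h'.1).add (tendsto_const_nhds.mul h'.2)

/-- limit of the letters -/
noncomputable def Eb (m : ℕ) (c : Bool) : Matrix (Fin (m + 1)) (Fin (m + 1)) ℂ := fun i j =>
  if i = Fin.last m then (if c = true ∨ j = Fin.last m then 1 else 0) else 0

/-- first order term of the letters -/
noncomputable def Rb (b m : ℕ) (c : Bool) : Matrix (Fin (m + 1)) (Fin (m + 1)) ℂ := fun i j =>
  if i = Fin.last m then 0 else
    if c = true then (if (j : ℕ) ≤ i then (-1) ^ (m - (i : ℕ)) *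
      (if ((m : ℤ) - (i : ℕ)) * (2 * (b : ℤ) - 1 - m - (i : ℕ)) - (2 * (b : ℤ) - 2 * m) = 0
        then 1 else 0) else 0)
    else (-1) ^ (m - (i : ℕ)) *
      (if ((m : ℤ) - (i : ℕ)) * (2 * (b : ℤ) - 1 - m - (i : ℕ)) +
      2 * ((m : ℤ) - (j : ℕ)) * (i : ℕ) - (2 * (b : ℤ) - 2 * m) = 0
        then 1 else 0) * (if (i : ℕ) ≤ j then 1 else 0)

/-- the small parameter -/
noncomputable def ep (b m : ℕ) (y : ℝ) : ℂ := (y : ℂ) ^ (2 * (b : ℤ) - 2 * m)

theorem expo_nonneg {b m i : ℕ} (hb : m < b) (hi : i < m) :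
    0 ≤ ((m : ℤ) - (i : ℕ)) * (2 * (b : ℤ) - 1 - m - (i : ℕ)) - (2 * (b : ℤ) - 2 * m) := by
  obtain ⟨r, rfl⟩ : ∃ r, m = i + r + 1 := ⟨m - i - 1, by omega⟩
  obtain ⟨s, rfl⟩ : ∃ s, b = i + r + 1 + s + 1 := ⟨b - (i + r + 1) - 1, by omega⟩
  push_cast
  nlinarith [mul_nonneg (Int.natCast_nonneg r) (Int.natCast_nonneg s),
    mul_nonneg (Int.natCast_nonneg r) (Int.natCast_nonneg r), Int.natCast_nonneg r]

theorem expo_zero {b m i : ℕ} (hb : m < b) (hi : i < m) :
    ((m : ℤ) - (i : ℕ)) * (2 * (b : ℤ) - 1 - m - (i : ℕ)) - (2 * (b : ℤ) - 2 * m) = 0 ↔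
      i + 1 = m := by
  constructor
  · intro h
    by_contra hne
    obtain ⟨r, rfl⟩ : ∃ r, m = i + r + 2 := ⟨m - i - 2, by omega⟩
    obtain ⟨s, rfl⟩ : ∃ s, b = i + r + 2 + s + 1 := ⟨b - (i + r + 2) - 1, by omega⟩
    push_cast at h
    nlinarith [mul_nonneg (Int.natCast_nonneg r) (Int.natCast_nonneg s),
      mul_nonneg (Int.natCast_nonneg r) (Int.natCast_nonneg r), Int.natCast_nonneg r,
      Int.natCast_nonneg s]
  · intro h
    subst h
    push_cast
    ring

theorem ep_lim {b m : ℕ} (hb : m < b) : Tendsto (ep b m) l0 (𝓝 0) := zp0 (by omega)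

theorem ep_inv {y : ℝ} (b m : ℕ) : (ep b m y)⁻¹ = (y : ℂ) ^ (-(2 * (b : ℤ) - 2 * m)) := by
  unfold ep; rw [_root_.zpow_neg]

theorem exp_letter {b m : ℕ} (hb : m < b) (c : Bool) :
    Expn (fun y => Xn b m (y : ℂ) c) (ep b m) (Eb m c) (Rb b m c) := by
  have h2 : Tendsto (fun y => (ep b m y)⁻¹ • (Xn b m (y : ℂ) c - Eb m c)) l0 (𝓝 (Rb b m c)) := by
    refine tendsto_pi_nhds.2 fun i => tendsto_pi_nhds.2 fun j => ?_
    by_cases hi : i = Fin.last m
    · subst hi
      have h : (fun y : ℝ => ((ep b m y)⁻¹ • (Xn b m (y : ℂ) c - Eb m c)) (Fin.last m) j) =ᶠ[l0]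
          fun _ => 0 := by
        filter_upwards [ev_nz (m + 1)] with y hy
        rw [Matrix.smul_apply, Matrix.sub_apply]
        have hj : (j : ℕ) ≤ m := by omega
        cases c with
        | true =>
          simp [Xn, Eb, Ln, hj, gq, gb_self (nzm hy (show m - (j : ℕ) ≤ m + 1 by omega))]
        | false =>
          by_cases hjl : j = Fin.last m
          · subst hjl
            simp [Xn, Eb, Un, gq, gb_self (nzm hy (show m ≤ m + 1 by omega))]
          · have : (j : ℕ) < m := by
              rcases Nat.lt_or_ge (j : ℕ) m with h | h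
              · exact h
              · exact absurd (Fin.ext (by simp; omega)) hjl
            simp [Xn, Eb, Un, gq, gb_gt this, hjl]
      refine (tendsto_congr' h).2 ?_
      simp [Rb]
    · have him : (i : ℕ) < m := by
        rcases Nat.lt_or_ge (i : ℕ) m with h | h
        · exact h
        · exact absurd (Fin.ext (by simp; omega)) hi
      cases c with
      | true =>
        by_cases hj : (j : ℕ) ≤ i
        · have h : (fun y : ℝ => ((ep b m y)⁻¹ • (Xn b m (y : ℂ) true - Eb m true)) i j) =ᶠ[l0]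
            fun y => (-1) ^ (m - (i : ℕ)) * (y : ℂ) ^ (((m : ℤ) - (i : ℕ)) *
              (2 * (b : ℤ) - 1 - m - (i : ℕ)) - (2 * (b : ℤ) - 2 * m)) *
              gq (y : ℂ) (m - j) (i - j) := by
            filter_upwards [ev_pos] with y h0
            rw [Matrix.smul_apply, Matrix.sub_apply, ep_inv, smul_eq_mul]
            simp only [Xn, if_true, Ln, hj, Eb, hi, if_false, sub_zero]
            have e : (y : ℂ) ^ (-(2 * (b : ℤ) - 2 * m)) * (y : ℂ) ^ (((m : ℤ) - (i : ℕ)) *
              (2 * (b : ℤ) - 1 - m - (i : ℕ))) = (y : ℂ) ^ (((m : ℤ) - (i : ℕ)) *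
              (2 * (b : ℤ) - 1 - m - (i : ℕ)) - (2 * (b : ℤ) - 2 * m)) := z2 (cne h0) (by ring)
            rw [← e]; ring
          refine (tendsto_congr' h).2 ?_
          have t1 := (tendsto_const_nhds (x := ((-1 : ℂ) ^ (m - (i : ℕ))))).mul
            (zpn (expo_nonneg hb him))
          have t2 := gq_lim (m - j) (i - j)
          rw [if_pos (by omega)] at t2
          have t3 := t1.mul t2
          simp only [Rb, hi, if_false, if_true, hj]
          simpa using t3
        · have h : ∀ y : ℝ, ((ep b m y)⁻¹ • (Xn b m (y : ℂ) true - Eb m true)) i j = 0 := by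
            intro y
            simp [Xn, Ln, hj, Eb, hi]
          simp only [h, Rb, hi, if_false, if_true, hj]
          exact tendsto_const_nhds
      | false =>
        have hjm : (j : ℕ) ≤ m := by omega
        have h : (fun y : ℝ => ((ep b m y)⁻¹ • (Xn b m (y : ℂ) false - Eb m false)) i j) =ᶠ[l0]
            fun y => (-1) ^ (m - (i : ℕ)) * (y : ℂ) ^ (((m : ℤ) - (i : ℕ)) *
              (2 * (b : ℤ) - 1 - m - (i : ℕ)) + 2 * ((m : ℤ) - (j : ℕ)) * (i : ℕ) -
              (2 * (b : ℤ) - 2 * m)) * gq (y : ℂ) j i := by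
          filter_upwards [ev_pos] with y h0
          rw [Matrix.smul_apply, Matrix.sub_apply, ep_inv, smul_eq_mul]
          simp only [Xn, Bool.false_eq_true, if_false, Un, Eb, hi, sub_zero]
          have e : (y : ℂ) ^ (-(2 * (b : ℤ) - 2 * m)) * (y : ℂ) ^ (((m : ℤ) - (i : ℕ)) *
              (2 * (b : ℤ) - 1 - m - (i : ℕ)) + 2 * ((m : ℤ) - (j : ℕ)) * (i : ℕ)) =
              (y : ℂ) ^ (((m : ℤ) - (i : ℕ)) *
              (2 * (b : ℤ) - 1 - m - (i : ℕ)) + 2 * ((m : ℤ) - (j : ℕ)) * (i : ℕ) -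
              (2 * (b : ℤ) - 2 * m)) := z2 (cne h0) (by ring)
          rw [← e]; ring
        refine (tendsto_congr' h).2 ?_
        have h0 : 0 ≤ ((m : ℤ) - (i : ℕ)) * (2 * (b : ℤ) - 1 - m - (i : ℕ)) +
            2 * ((m : ℤ) - (j : ℕ)) * (i : ℕ) - (2 * (b : ℤ) - 2 * m) := by
          have := expo_nonneg hb him
          have h3 : 0 ≤ 2 * ((m : ℤ) - (j : ℕ)) * (i : ℕ) := by
            have : (0 : ℤ) ≤ (m : ℤ) - (j : ℕ) := by omega
            positivity
          linarith
        have t1 := (tendsto_const_nhds (x := ((-1 : ℂ) ^ (m - (i : ℕ))))).mul (zpn h0)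
        have t3 := t1.mul (gq_lim j i)
        simp only [Rb, hi, if_false, Bool.false_eq_true]
        exact t3
  refine ⟨?_, h2⟩
  have h3 : Tendsto (fun y => (ep b m y) • ((ep b m y)⁻¹ • (Xn b m (y : ℂ) c - Eb m c)) + Eb m c)
      l0 (𝓝 ((0 : ℂ) • Rb b m c + Eb m c)) :=
    ((ep_lim hb).smul h2).add tendsto_const_nhds
  rw [zero_smul, zero_add] at h3
  refine (tendsto_congr' ?_).1 h3
  filter_upwards [ev_pos] with y h0
  have hne : ep b m y ≠ 0 := zpow_ne_zero _ (cne h0)
  rw [smul_smul, mul_inv_cancel₀ hne, one_smul, sub_add_cancel]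

/-- number of places where `true` is followed by `false` -/
def tf : List Bool → ℕ
  | [] => 0
  | a :: u => (if a = true ∧ u.head? = some false then 1 else 0) + tf u

/-- projection on the last coordinate -/
noncomputable def E00 (m : ℕ) : Matrix (Fin (m + 1)) (Fin (m + 1)) ℂ := fun i j =>
  if i = Fin.last m ∧ j = Fin.last m then 1 else 0

theorem Eb_false (m : ℕ) : Eb m false = E00 m := by
  ext i j
  simp only [Eb, E00, Bool.false_eq_true, false_or]
  by_cases h : i = Fin.last m <;> simp [h]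

theorem Eb_E00 (m : ℕ) (c : Bool) : Eb m c * E00 m = E00 m := by
  ext i j
  rw [Matrix.mul_apply, Finset.sum_eq_single (Fin.last m)]
  · simp only [Eb, E00, true_and, or_true, if_true]
    by_cases h : i = Fin.last m <;> simp [h]
  · intro l _ hl
    simp [E00, hl]
  · simp

theorem mul_E00 (m : ℕ) (A : Matrix (Fin (m + 1)) (Fin (m + 1)) ℂ) (i j : Fin (m + 1)) :
    (A * E00 m) i j = if j = Fin.last m then A i (Fin.last m) else 0 := by
  rw [Matrix.mul_apply, Finset.sum_eq_single (Fin.last m)]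
  · simp only [E00, true_and]
    split_ifs <;> simp
  · intro l _ hl
    simp [E00, hl]
  · simp

theorem Rb_col {b m : ℕ} (hb : m < b) (c : Bool) (i : Fin (m + 1)) (hi : i ≠ Fin.last m) :
    Rb b m c i (Fin.last m) = if c = false ∧ (i : ℕ) + 1 = m then -1 else 0 := by
  have him : (i : ℕ) < m := by
    rcases Nat.lt_or_ge (i : ℕ) m with h | h
    · exact h
    · exact absurd (Fin.ext (by simp; omega)) hi
  cases c with
  | true =>
    have : ¬ (m ≤ (i : ℕ)) := by omega
    simp [Rb, hi, this]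
  | false =>
    have h1 : (i : ℕ) ≤ ((Fin.last m : Fin (m + 1)) : ℕ) := by simp; omega
    have h2 : ((m : ℤ) - (i : ℕ)) * (2 * (b : ℤ) - 1 - m - (i : ℕ)) +
      2 * ((m : ℤ) - ((Fin.last m : Fin (m + 1)) : ℕ)) * (i : ℕ) - (2 * (b : ℤ) - 2 * m) =
      ((m : ℤ) - (i : ℕ)) * (2 * (b : ℤ) - 1 - m - (i : ℕ)) - (2 * (b : ℤ) - 2 * m) := by
      simp
    simp only [Rb, hi, if_false, Bool.false_eq_true, h1, if_true, mul_one, h2,
      expo_zero hb him, true_and]
    by_cases h3 : (i : ℕ) + 1 = m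
    · rw [if_pos h3, if_pos h3, mul_one]
      have : m - (i : ℕ) = 1 := by omega
      rw [this, pow_one]
    · rw [if_neg h3, if_neg h3, mul_zero]

theorem sum_pred (m : ℕ) (f : Fin (m + 1) → ℂ) (t : ℂ)
    (hf : ∀ i, i ≠ Fin.last m → f i = if (i : ℕ) + 1 = m then t else 0) :
    ∑ i, f i = f (Fin.last m) + (if m = 0 then 0 else t) := by
  rw [Fin.sum_univ_castSucc, add_comm]
  congr 1
  have h1 : ∀ i : Fin m, f (Fin.castSucc i) = if (i : ℕ) + 1 = m then t else 0 := by
    intro i
    have := hf (Fin.castSucc i) (Fin.castSucc_lt_last i).ne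
    simpa using this
  rw [Finset.sum_congr rfl fun i _ => h1 i]
  cases m with
  | zero => simp
  | succ m =>
    rw [Finset.sum_eq_single (Fin.last m)]
    · simp
    · intro i _ hi
      rw [if_neg]
      intro h
      exact hi (Fin.ext (by simp; omega))
    · simp

theorem exp_word {b m : ℕ} (hb : m < b) (p : List Bool) :
    ∃ R, Expn (fun y => Nw b m (y : ℂ) (p ++ [false])) (ep b m) (E00 m) R ∧
      R (Fin.last m) (Fin.last m) = -((tf (p ++ [false]) : ℕ) : ℂ) * (if m = 0 then 0 else 1) ∧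
      (∀ i, i ≠ Fin.last m → R i (Fin.last m) =
        if (p ++ [false]).head? = some false ∧ (i : ℕ) + 1 = m then -1 else 0) ∧
      (p ≠ [] → ∀ i j, i ≠ Fin.last m → j ≠ Fin.last m → R i j = 0) := by
  induction p with
  | nil =>
    refine ⟨Rb b m false, ?_, ?_, ?_, ?_⟩
    · have := exp_letter hb false
      rw [Eb_false] at this
      simpa [Nw] using this
    · simp [Rb, tf]
    · intro i hi
      rw [Rb_col hb false i hi]
      simp
    · intro h; exact absurd rfl h
  | cons a p ih =>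
    obtain ⟨R, hR, h1, h2, -⟩ := ih
    have hm := (exp_letter hb a).mul hR
    rw [Eb_E00] at hm
    have hN : (fun y : ℝ => Nw b m (y : ℂ) (a :: p ++ [false])) =
        fun y : ℝ => Xn b m (y : ℂ) a * Nw b m (y : ℂ) (p ++ [false]) := by
      funext y; simp [Nw]
    have hrow : ∀ i j, i ≠ Fin.last m → (Eb m a * R) i j = 0 := by
      intro i j hi
      rw [Matrix.mul_apply]
      exact Finset.sum_eq_zero fun l _ => by simp [Eb, hi]
    refine ⟨Rb b m a * E00 m + Eb m a * R, ?_, ?_, ?_, ?_⟩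
    · rw [hN]; exact hm
    · rw [Matrix.add_apply, mul_E00, if_pos rfl]
      have r0 : Rb b m a (Fin.last m) (Fin.last m) = 0 := by simp [Rb]
      rw [r0, zero_add, Matrix.mul_apply]
      cases a with
      | true =>
        have e1 : ∀ l, Eb m true (Fin.last m) l * R l (Fin.last m) = R l (Fin.last m) := by
          intro l; simp [Eb]
        rw [Finset.sum_congr rfl fun l _ => e1 l,
          sum_pred m (fun l => R l (Fin.last m))
            (if (p ++ [false]).head? = some false then -1 else 0) ?_, h1]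
        · have tfc : tf (true :: p ++ [false]) = (if (p ++ [false]).head? = some false
              then 1 else 0) + tf (p ++ [false]) := by
            rw [List.cons_append, tf]
            simp only [eq_self_iff_true, true_and]
          rw [tfc]
          generalize (p ++ [false]).head? = hd
          by_cases hh : hd = some false
          · rw [if_pos hh, if_pos hh]
            by_cases hm0 : m = 0 <;> simp [hm0]
          · rw [if_neg hh, if_neg hh]
            simp
        · intro i hi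
          rw [h2 i hi]
          generalize (p ++ [false]).head? = hd
          by_cases hh : hd = some false <;> simp [hh]
      | false =>
        rw [Finset.sum_eq_single (Fin.last m)]
        · have : Eb m false (Fin.last m) (Fin.last m) = 1 := by simp [Eb]
          rw [this, one_mul, h1, List.cons_append, tf]
          simp
        · intro l _ hl
          simp [Eb, hl]
        · simp
    · intro i hi
      rw [Matrix.add_apply, mul_E00, if_pos rfl, hrow i _ hi, add_zero, Rb_col hb a i hi]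
      simp
    · intro _ i j hi hj
      rw [Matrix.add_apply, mul_E00, if_neg hj, hrow i _ hi, add_zero]

theorem trace_E00 (m : ℕ) : (E00 m).trace = 1 := by
  unfold Matrix.trace
  rw [Finset.sum_eq_single (Fin.last m)]
  · simp [E00]
  · intro l _ hl
    simp [E00, hl]
  · simp

/-- the trace of a normalised word tends to one -/
theorem tr_lim {b m : ℕ} (hb : m < b) (p : List Bool) :
    Tendsto (fun y : ℝ => (Nw b m (y : ℂ) (p ++ [false])).trace) l0 (𝓝 1) := by
  obtain ⟨R, hR, -⟩ := exp_word hb p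
  have h : Continuous fun A : Matrix (Fin (m + 1)) (Fin (m + 1)) ℂ => A.trace := by
    fun_prop
  have := (h.tendsto _).comp hR.1
  rw [trace_E00] at this
  exact this

/-- the first order term of the trace -/
theorem tr_lim1 {b m : ℕ} (hb : m < b) (p : List Bool) (hp : p ≠ []) :
    Tendsto (fun y : ℝ => (ep b m y)⁻¹ * ((Nw b m (y : ℂ) (p ++ [false])).trace - 1)) l0
      (𝓝 (-((tf (p ++ [false]) : ℕ) : ℂ) * (if m = 0 then 0 else 1))) := by
  obtain ⟨R, hR, h1, -, h3⟩ := exp_word hb p
  have h : Continuous fun A : Matrix (Fin (m + 1)) (Fin (m + 1)) ℂ => A.trace := by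
    fun_prop
  have h4 := (h.tendsto _).comp hR.2
  have h5 : R.trace = -((tf (p ++ [false]) : ℕ) : ℂ) * (if m = 0 then 0 else 1) := by
    unfold Matrix.trace
    rw [Finset.sum_eq_single (Fin.last m)]
    · exact h1
    · intro l _ hl
      exact h3 hp l l hl hl
    · simp
  rw [h5] at h4
  refine (tendsto_congr fun y => ?_).1 h4
  simp only [Function.comp_apply]
  rw [Matrix.trace_smul, Matrix.trace_sub, trace_E00, smul_eq_mul]

end Pool.Agent.Run7.h760
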