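import Mathlib

/-!
Closed braids and their coloured Jones polynomials, as Laurent polynomials in `v`.

Conventions of the problem: zero framing, `v = 1 / A` for the variable `A` of the Kauffman bracket,
unnormalised: the value at the trivial knot is
`[N] = (v^(2N) - v^(-2N)) / (v^2 - v^(-2))`.  With `q = v^(-2)` the coloured Jones polynomial is the
quantum trace of the action of the braid on the tensor power of the `N`-dimensional irreducible
representation of the quantum group of `sl_2` at `q`, the crossings being divided by the framing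
factor.
-/

set_option autoImplicit false

namespace Pool.Agent.Run7.h760.CJ

open Finset Matrix

/-- Laurent polynomials in `v` with integer coefficients -/
abbrev LP : Type := LaurentPolynomial ℤ

/-- `q ^ m`, where `q = v ^ (-2)` -/
noncomputable def qp (m : ℤ) : LP := LaurentPolynomial.T (-2 * m)

/-- `{m} = q ^ m - q ^ (-m)` -/
noncomputable def qbr (m : ℤ) : LP := qp m - qp (-m)

/-- the Gaussian binomial coefficient `{a}! / ({b}! {a - b}!)`, by the Pascal rule -/
noncomputable def qbin : ℕ → ℕ → LP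
  | _, 0 => 1
  | 0, _ + 1 => 0
  | a + 1, b + 1 => qp (-((a : ℤ) - b)) * qbin a b + qp ((b : ℤ) + 1) * qbin a (b + 1)

/-- the positive crossing on `V_N ⊗ V_N`, divided by its framing factor:
`e_i ⊗ e_j ↦ ∑_n q^(-(N-1)(1+i+j) + 2(i-n)(j+n) + n(n-1)/2) ({j+n}! / ({j}! {n}!))
∏_{t<n} {N-i+t} e_{j+n} ⊗ e_{i-n}` (here `x = (i, j)` and `p = (j + n, i - n)`) -/
noncomputable def posX (N : ℕ) : Matrix (Fin N × Fin N) (Fin N × Fin N) LP := fun p x =>
  if (p.1 : ℕ) + p.2 = x.1 + x.2 ∧ (x.2 : ℕ) ≤ p.1 then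
    qp (-((N : ℤ) - 1) * (1 + (x.1 : ℕ) + (x.2 : ℕ)) + 2 * (p.1 : ℕ) * (p.2 : ℕ) +
        ((((p.1 : ℕ) - x.2) * ((p.1 : ℕ) - x.2 - 1) / 2 : ℕ) : ℤ)) *
      qbin p.1 x.2 * ∏ t ∈ range ((p.1 : ℕ) - x.2), qbr ((N : ℤ) - (x.1 : ℕ) + t)
  else 0

/-- the negative crossing on `V_N ⊗ V_N`, divided by its framing factor:
`e_i ⊗ e_j ↦ ∑_n (-1)^n q^((N-1)(1+i+j) - 2ij - n(n-1)/2) ({i+n}! / ({i}! {n}!))
∏_{t<n} {N-j+t} e_{j-n} ⊗ e_{i+n}` (here `x = (i, j)` and `p = (j - n, i + n)`) -/
noncomputable def negX (N : ℕ) : Matrix (Fin N × Fin N) (Fin N × Fin N) LP := fun p x =>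
  if (p.1 : ℕ) + p.2 = x.1 + x.2 ∧ (x.1 : ℕ) ≤ p.2 then
    (-1) ^ ((p.2 : ℕ) - x.1) *
      qp (((N : ℤ) - 1) * (1 + (x.1 : ℕ) + (x.2 : ℕ)) - 2 * (x.1 : ℕ) * (x.2 : ℕ) -
        ((((p.2 : ℕ) - x.1) * ((p.2 : ℕ) - x.1 - 1) / 2 : ℕ) : ℤ)) *
      qbin p.2 x.1 * ∏ t ∈ range ((p.2 : ℕ) - x.1), qbr ((N : ℤ) - (x.2 : ℕ) + t)
  else 0

/-- braid words on `n + 1` strands: the letter `(i, true)` is the generator `σ_i` (a positive
crossing of the neighbouring strands `i` and `i + 1`, counted from `0`), `(i, false)` is its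
inverse -/
abbrev Word (n : ℕ) : Type := List (Fin n × Bool)

/-- the action of a letter on `V_N^{⊗(n+1)}`, with basis the functions `Fin (n + 1) → Fin N` -/
noncomputable def letterOp (N n : ℕ) (g : Fin n × Bool) :
    Matrix (Fin (n + 1) → Fin N) (Fin (n + 1) → Fin N) LP := fun s t =>
  if ∀ j : Fin (n + 1), j ≠ g.1.castSucc → j ≠ g.1.succ → s j = t j then
    (if g.2 then posX N else negX N) (s g.1.castSucc, s g.1.succ) (t g.1.castSucc, t g.1.succ)
  else 0

/-- the action of a braid word on `V_N^{⊗(n+1)}` -/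
noncomputable def braidOp (N : ℕ) {n : ℕ} (w : Word n) :
    Matrix (Fin (n + 1) → Fin N) (Fin (n + 1) → Fin N) LP :=
  (w.map (letterOp N n)).prod

/-- the unnormalised `N`-coloured Jones polynomial of the closure of the braid word `w`: the quantum
trace of its action, `e_i` having weight `N - 1 - 2 i` -/
noncomputable def colouredJones {n : ℕ} (w : Word n) (N : ℕ) : LP :=
  ∑ s : Fin (n + 1) → Fin N, qp (∑ j, ((N : ℤ) - 1 - 2 * (s j : ℕ))) * braidOp N w s s

/-- the permutation of the strands -/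
def perm {n : ℕ} (w : Word n) : Equiv.Perm (Fin (n + 1)) :=
  (w.map fun g => Equiv.swap g.1.castSucc g.1.succ).prod

/-- the closure of the braid is a knot: its permutation has only one orbit -/
def IsKnot {n : ℕ} (w : Word n) : Prop := ∀ i j : Fin (n + 1), (perm w).SameCycle i j

/-- the moves of Markov's theorem on braid words (with any number of strands): the relations of the
braid groups, conjugation, and stabilisation -/
inductive Move : (Σ n : ℕ, Word n) → (Σ n : ℕ, Word n) → Prop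
  | cancel {n : ℕ} (u w : Word n) (i : Fin n) (e : Bool) :
      Move ⟨n, u ++ (i, e) :: (i, !e) :: w⟩ ⟨n, u ++ w⟩
  | far {n : ℕ} (u w : Word n) (i j : Fin n) (d e : Bool) (h : (i : ℕ) + 1 < j) :
      Move ⟨n, u ++ (i, d) :: (j, e) :: w⟩ ⟨n, u ++ (j, e) :: (i, d) :: w⟩
  | braid {n : ℕ} (u w : Word n) (i j : Fin n) (h : (i : ℕ) + 1 = j) :
      Move ⟨n, u ++ (i, true) :: (j, true) :: (i, true) :: w⟩
        ⟨n, u ++ (j, true) :: (i, true) :: (j, true) :: w⟩
  | conj {n : ℕ} (u w : Word n) : Move ⟨n, u ++ w⟩ ⟨n, w ++ u⟩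
  | stab {n : ℕ} (w : Word n) (e : Bool) :
      Move ⟨n, w⟩ ⟨n + 1, (w.map fun g => (g.1.castSucc, g.2)) ++ [(Fin.last n, e)]⟩

/-- the closure of the braid is the trivial knot: the word is equivalent to the empty word on one
strand under the moves of Markov's theorem -/
def IsUnknot {n : ℕ} (w : Word n) : Prop := Relation.EqvGen Move ⟨n, w⟩ ⟨0, []⟩

/-- for all large `N` the maximal degree in `v` of the `N`-coloured Jones polynomial is
`a_j N^2 + 2 b_j N + c_j`, where `j` is the class of `N` modulo `p` -/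
def IsDegree {n : ℕ} (w : Word n) (p : ℕ) (a b c : ZMod p → ℚ) : Prop :=
  ∃ N0 : ℕ, ∀ N : ℕ, N0 ≤ N → ∃ D : ℤ, (colouredJones w N).degree = (D : WithBot ℤ) ∧
    (D : ℚ) = a (N : ZMod p) * (N : ℚ) ^ 2 + 2 * b (N : ZMod p) * N + c (N : ZMod p)

end Pool.Agent.Run7.h760.CJ
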