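import Pool.Agent.Run7.h760.Good

/-! The cases where the largest exponent is attained at `m ≥ ν`. -/

set_option autoImplicit false

namespace Pool.Agent.Run7.h760

open Finset Matrix Filter Topology
open Pool.Agent.H550R3.Jones (br brf cjones)
open Pool.Agent.Y482.CY (sb LL UU Nz)
open Pool.Agent.Y481.CC (LI UI CM Lt TW permL wr enc)

theorem E2_mono {d P : ℤ} (hP : 0 ≤ P) (h : 1 ≤ d ∨ (d = 0 ∧ 2 ≤ P)) {ν t : ℤ} (hν : 1 ≤ ν)
    (ht : 1 ≤ t) : E2 d P ν (ν - t) < E2 d P ν ν := by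
  have h1 := E2_nu d P ν t
  have h2 : 0 < -2 * t + 2 * d * (ν * t + t + t ^ 2) + P * (t + t ^ 2) := by
    rcases h with h | ⟨h, h'⟩
    · have a1 : 0 ≤ P * (t + t ^ 2) := by positivity
      have a2 : t ≤ ν * t := by nlinarith
      have a3 : 1 * (ν * t + t + t ^ 2) ≤ d * (ν * t + t + t ^ 2) :=
        mul_le_mul_of_nonneg_right h (by nlinarith)
      nlinarith
    · subst h
      have a3 : 2 * (t + t ^ 2) ≤ P * (t + t ^ 2) :=
        mul_le_mul_of_nonneg_right h' (by nlinarith)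
      nlinarith
  linarith

theorem cc_argmax {d P Q : ℤ} (hP : 0 ≤ P) (h : 1 ≤ d ∨ (d = 0 ∧ 2 ≤ P)) (P' ν m : ℕ)
    (hν : 1 ≤ ν) (hm : m ≤ 3 * ν / 2)
    (hmax : ∀ m', m' ≤ 3 * ν / 2 → ee d P Q ν m' ≤ ee d P Q ν m) :
    cc P' ν m = -(-1) ^ (ν * P') := by
  rcases Nat.lt_or_ge m ν with h1 | h1
  · exfalso
    have h2 := hmax ν (by omega)
    rw [ee_low _ _ _ _ _ le_rfl, ee_low _ _ _ _ _ h1.le] at h2
    have h3 := E2_mono hP h (ν := ν) (t := (ν : ℤ) - m) (by exact_mod_cast hν) (by omega)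
    have e : (ν : ℤ) - ((ν : ℤ) - m) = m := by ring
    rw [e] at h3
    omega
  · exact cc_high P' ν m h1 hm

theorem good1 (d : ℤ) (p : List Bool)
    (h3 : (permL (Cw d ++ mw (p ++ [false]))).IsThreeCycle) (P Q : ℕ)
    (hP : (p ++ [false]).count true = P) (hQ : (p ++ [false]).count false = Q)
    (hQ1 : 1 ≤ Q) (hc : (1 ≤ d ∧ d ≤ Q) ∨ (d = 0 ∧ 2 ≤ P)) :
    Good (Cw d ++ mw (p ++ [false])) := by
  have hd0 : 0 ≤ d := by omega
  have hmo : 1 ≤ d ∨ (d = 0 ∧ 2 ≤ (P : ℤ)) := by omega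
  refine good_of_max d p h3 P Q hP hQ (4 * d + P) Q (Q + 4 * d + P) 1 fun ν hν => ?_
  have hval : (ν : ℝ) * (6 * d + P - Q) + (ee d P Q ν ν : ℤ) - 1 =
      (4 * d + P) * ((ν : ℝ) + 1) ^ 2 + (1 - Q) * ((ν : ℝ) + 1) - (4 * d + P) - (1 - Q) := by
    rw [ee_low _ _ _ _ _ le_rfl]
    unfold E2
    push_cast
    ring
  have hQr : (1 : ℝ) ≤ Q := by exact_mod_cast hQ1
  have hdr : (0 : ℝ) ≤ d := by exact_mod_cast hd0
  have hPr : (0 : ℝ) ≤ P := Nat.cast_nonneg P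
  have hνr : (0 : ℝ) ≤ ν := Nat.cast_nonneg ν
  refine ⟨?_, ⟨ν, by omega, ?_⟩, _, neg1_ne (ν * P), ?_⟩
  · intro m hm
    have hle : ee d P Q ν m ≤ ee d P Q ν ν := by
      rcases Nat.lt_or_ge m ν with h1 | h1
      · have h3 := E2_mono (Int.natCast_nonneg P) hmo (ν := ν) (t := (ν : ℤ) - m)
          (by exact_mod_cast hν) (by omega)
        have e : (ν : ℤ) - ((ν : ℤ) - m) = m := by ring
        rw [e] at h3
        rw [ee_low _ _ _ _ _ le_rfl, ee_low _ _ _ _ _ h1.le]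
        exact h3.le
      · obtain ⟨M, rfl⟩ : ∃ M, m = ν + M := ⟨m - ν, by omega⟩
        rw [ee_low _ _ _ _ _ le_rfl, ee_high]
        have h4 := E1_nu d P Q ν M
        have h5 : 0 ≤ (M : ℤ) * (2 - 2 * d * ((ν : ℤ) + 1 - M) + P * ((M : ℤ) + 1) +
            Q * (2 * (ν : ℤ) + 1 - M)) := by
          rcases Nat.eq_zero_or_pos M with h0 | h0
          · subst h0; simp
          · refine mul_nonneg (by positivity) ?_
            have hM1 : (1 : ℤ) ≤ M := by exact_mod_cast h0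
            have hM2 : 2 * (M : ℤ) ≤ ν := by omega
            have a1 : (0 : ℤ) ≤ P * ((M : ℤ) + 1) := by positivity
            have a2 : d * (2 * (ν : ℤ) + 1 - M) ≤ Q * (2 * (ν : ℤ) + 1 - M) :=
              mul_le_mul_of_nonneg_right (by omega) (by linarith)
            have a3 : 0 ≤ d * ((M : ℤ) - 1) := mul_nonneg hd0 (by linarith)
            nlinarith
        linarith
    have h5 : (ee d P Q ν m : ℝ) ≤ (ee d P Q ν ν : ℝ) := by exact_mod_cast hle
    nlinarith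
  · rw [hval]
    nlinarith [mul_nonneg hdr hνr, mul_nonneg hPr hνr]
  · intro m hm hmax
    exact cc_argmax (Int.natCast_nonneg P) hmo P ν m hν hm hmax

theorem good2 (d : ℤ) (p : List Bool)
    (h3 : (permL (Cw d ++ mw (p ++ [false]))).IsThreeCycle) (P Q : ℕ)
    (hP : (p ++ [false]).count true = P) (hQ : (p ++ [false]).count false = Q)
    (hQ1 : 1 ≤ Q) (hc : (Q : ℤ) < d) :
    Good (Cw d ++ mw (p ++ [false])) := by
  have hd0 : 1 ≤ d := by omega
  have hmo : 1 ≤ d ∨ (d = 0 ∧ 2 ≤ (P : ℤ)) := by omega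
  have hQr : (1 : ℝ) ≤ Q := by exact_mod_cast hQ1
  have hdr : (1 : ℝ) ≤ d := by exact_mod_cast hd0
  have hPr : (0 : ℝ) ≤ P := Nat.cast_nonneg P
  have hdQ : (Q : ℝ) + 1 ≤ d := by exact_mod_cast hc
  set S : ℝ := 2 * d + P - Q with hS
  set D : ℝ := d - Q with hD
  have hSpos : 0 < S := by rw [hS]; linarith
  have hD1 : 1 ≤ D := by rw [hD]; linarith
  set B0 : ℝ := -2 + 2 * d - P - Q with hB0
  set β : ℝ := -((d - 1) * (P + Q)) / S with hβ
  have hβ0 : β ≤ 0 := by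
    rw [hβ]
    apply div_nonpos_of_nonpos_of_nonneg _ hSpos.le
    have : 0 ≤ ((d : ℝ) - 1) * (P + Q) := mul_nonneg (by linarith) (by linarith)
    linarith
  refine good_of_max d p h3 P Q hP hQ (4 * d + P + D ^ 2 / S)
    (B0 ^ 2 / (4 * S) - (4 * d + P + D ^ 2 / S) - β)
    (2 * (4 * d + P + D ^ 2 / S) + (S + |B0|) + Q + D * |B0| / S) 1 fun ν hν => ?_
  have hνr : (1 : ℝ) ≤ ν := by exact_mod_cast hν
  -- exponent for `m = ν + M`
  have hG : ∀ M : ℕ, (ν : ℝ) * (6 * d + P - Q) + (ee d P Q ν (ν + M) : ℤ) - 1 =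
      (4 * d + P) * (ν : ℝ) ^ 2 + (8 * d + 2 * P - Q + 1) * ν +
        M * (2 * D * ν + B0 - S * M) := by
    intro M
    rw [ee_high]
    unfold E1
    rw [hS, hD, hB0]
    push_cast
    ring
  have hup : ∀ M : ℝ, (4 * d + P) * (ν : ℝ) ^ 2 + (8 * d + 2 * P - Q + 1) * ν +
        M * (2 * D * ν + B0 - S * M) ≤ (4 * d + P + D ^ 2 / S) * ((ν : ℝ) + 1) ^ 2 +
        (B0 ^ 2 / (4 * S) - (4 * d + P + D ^ 2 / S) - β) := by
    intro M
    have h1 : (4 * d + P + D ^ 2 / S) * ((ν : ℝ) + 1) ^ 2 + β * ((ν : ℝ) + 1) +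
        (B0 ^ 2 / (4 * S) - (4 * d + P + D ^ 2 / S) - β) -
        ((4 * d + P) * (ν : ℝ) ^ 2 + (8 * d + 2 * P - Q + 1) * ν +
        M * (2 * D * ν + B0 - S * M)) = (2 * D * ν + B0 - 2 * S * M) ^ 2 / (4 * S) := by
      rw [hβ]
      field_simp
      rw [hS, hD, hB0]
      ring
    have h2 : 0 ≤ (2 * D * ν + B0 - 2 * S * M) ^ 2 / (4 * S) := by positivity
    have h3 : β * ((ν : ℝ) + 1) ≤ 0 := mul_nonpos_of_nonpos_of_nonneg hβ0 (by linarith)
    linarith
  refine ⟨?_, ?_, _, neg1_ne (ν * P), ?_⟩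
  · intro m hm
    rcases Nat.lt_or_ge m ν with h1 | h1
    · have h3 := E2_mono (Int.natCast_nonneg P) hmo (ν := ν) (t := (ν : ℤ) - m)
        (by exact_mod_cast hν) (by omega)
      have e : (ν : ℤ) - ((ν : ℤ) - m) = m := by ring
      rw [e] at h3
      have h4 : ee d P Q ν m ≤ ee d P Q ν (ν + 0) := by
        rw [ee_low _ _ _ _ _ h1.le, Nat.add_zero, ee_low _ _ _ _ _ le_rfl]
        exact h3.le
      have h5 : (ee d P Q ν m : ℝ) ≤ (ee d P Q ν (ν + 0) : ℝ) := by exact_mod_cast h4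
      have h6 := hG 0
      have h7 := hup 0
      push_cast at h6
      linarith
    · obtain ⟨M, rfl⟩ : ∃ M, m = ν + M := ⟨m - ν, by omega⟩
      rw [hG M]
      exact hup M
  · -- lower bound
    set Sn : ℕ := (2 * d + P - Q).toNat with hSn
    set Dn : ℕ := (d - Q).toNat with hDn
    have hSn' : (Sn : ℤ) = 2 * d + P - Q := by rw [hSn]; omega
    have hDn' : (Dn : ℤ) = d - Q := by rw [hDn]; omega
    have hSnr : (Sn : ℝ) = S := by
      have : ((Sn : ℤ) : ℝ) = ((2 * d + P - Q : ℤ) : ℝ) := by rw [hSn']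
      rw [hS]; push_cast at this; exact this
    have hDnr : (Dn : ℝ) = D := by
      have : ((Dn : ℤ) : ℝ) = ((d - Q : ℤ) : ℝ) := by rw [hDn']
      rw [hD]; push_cast at this; exact this
    have hSnpos : 0 < Sn := by omega
    have h2D : 2 * Dn ≤ Sn := by omega
    set M0 : ℕ := Dn * ν / Sn with hM0
    set r : ℕ := Dn * ν % Sn with hr
    have hdiv : Sn * M0 + r = Dn * ν := Nat.div_add_mod _ _
    have hrlt : r < Sn := Nat.mod_lt _ hSnpos
    have hM02 : 2 * M0 ≤ ν := by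
      have h4 : Sn * (2 * M0) ≤ Sn * ν := by nlinarith
      exact Nat.le_of_mul_le_mul_left h4 hSnpos
    refine ⟨ν + M0, by omega, ?_⟩
    rw [hG M0]
    have hdivr : S * M0 + r = D * ν := by
      rw [← hSnr, ← hDnr]
      exact_mod_cast hdiv
    have hrr : (r : ℝ) ≤ S := by rw [← hSnr]; exact_mod_cast hrlt.le
    have hr0 : (0 : ℝ) ≤ r := Nat.cast_nonneg r
    have hMr : (M0 : ℝ) = (D * ν - r) / S := by
      rw [eq_div_iff hSpos.ne']; linarith
    have h5 : (M0 : ℝ) * (2 * D * ν + B0 - S * M0) =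
        (D ^ 2 / S) * (ν : ℝ) ^ 2 + (D * B0 / S) * ν - (r ^ 2 + r * B0) / S := by
      rw [hMr]
      field_simp
      ring
    have h6 : (r ^ 2 + r * B0) / S ≤ S + |B0| := by
      rw [div_le_iff₀ hSpos]
      have a1 : (r : ℝ) ^ 2 ≤ S * S := by nlinarith
      have a2 : (r : ℝ) * B0 ≤ S * |B0| := by
        calc (r : ℝ) * B0 ≤ r * |B0| := mul_le_mul_of_nonneg_left (le_abs_self B0) hr0
          _ ≤ S * |B0| := mul_le_mul_of_nonneg_right hrr (abs_nonneg B0)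
      nlinarith
    have h7 : -(D * |B0| / S) * ν ≤ (D * B0 / S) * ν := by
      apply mul_le_mul_of_nonneg_right _ (by linarith)
      rw [neg_le, ← neg_div, ← mul_neg]
      apply div_le_div_of_nonneg_right _ hSpos.le
      exact mul_le_mul_of_nonneg_left (neg_le_abs B0) (by linarith)
    rw [h5]
    have h8 : 0 ≤ D ^ 2 / S := by positivity
    have h9 : 0 ≤ D * |B0| / S := by positivity
    have h10 : 0 ≤ |B0| := abs_nonneg B0
    nlinarith
  · intro m hm hmax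
    exact cc_argmax (Int.natCast_nonneg P) hmo P ν m hν hm hmax

end Pool.Agent.Run7.h760
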