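import Pool.Agent.Run7.h760.Good

/-! Negative twisting. -/

set_option autoImplicit false

namespace Pool.Agent.Run7.h760

open Finset Matrix Filter Topology
open Pool.Agent.H550R3.Jones (br brf cjones)
open Pool.Agent.Y482.CY (sb LL UU Nz)
open Pool.Agent.Y481.CC (LI UI CM Lt TW permL wr enc)

/-- the statement for one colour -/
def GoodAt (w : List Lt) (α C1 C2 : ℝ) (ν : ℕ) : Prop := ∃ (E : ℤ) (c : ℂ),
  c ≠ 0 ∧ Tendsto (fun y : ℝ => (y : ℂ) ^ E * ∑ m ∈ range (3 * ν / 2 + 1), ft w ν m y) l0 (𝓝 c) ∧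
  α * ((ν : ℝ) + 1) ^ 2 - C2 * ((ν : ℝ) + 1) ≤ (ν : ℝ) * (wr w : ℝ) + E - 1 ∧
  (ν : ℝ) * (wr w : ℝ) + E - 1 ≤ α * ((ν : ℝ) + 1) ^ 2 + C1

theorem good_of_at (w : List Lt) (α C1 C2 : ℝ) (n0 : ℕ) (h : ∀ ν, n0 ≤ ν → GoodAt w α C1 C2 ν) :
    Good w := by
  refine ⟨α, max C1 C2, n0, fun ν hν => ?_⟩
  obtain ⟨E, c, hc, h1, h2, h3⟩ := h ν hν
  refine ⟨E, c, hc, h1, ?_, ?_⟩
  · have h6 : C2 * ((ν : ℝ) + 1) ≤ max C1 C2 * ((ν : ℝ) + 1) :=
      mul_le_mul_of_nonneg_right (le_max_right _ _) (by positivity)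
    linarith
  · have h6 := le_max_left C1 C2
    linarith

theorem wr_real (d : ℤ) (p : List Bool) (P Q : ℕ)
    (hP : (p ++ [false]).count true = P) (hQ : (p ++ [false]).count false = Q) :
    (wr (Cw d ++ mw (p ++ [false])) : ℝ) = 6 * d + P - Q := by
  rw [wr_append, wr_Cw, wr_mw, hP, hQ]
  push_cast; ring

theorem at_of_max (d : ℤ) (p : List Bool)
    (h3 : (permL (Cw d ++ mw (p ++ [false]))).IsThreeCycle) (P Q : ℕ)
    (hP : (p ++ [false]).count true = P) (hQ : (p ++ [false]).count false = Q)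
    (α C1 C2 : ℝ) (ν : ℕ)
    (H1 : ∀ m, m ≤ 3 * ν / 2 → (ν : ℝ) * (6 * d + P - Q) + (ee d P Q ν m : ℤ) - 1 ≤
        α * ((ν : ℝ) + 1) ^ 2 + C1)
    (H2 : ∃ m, m ≤ 3 * ν / 2 ∧ α * ((ν : ℝ) + 1) ^ 2 - C2 * ((ν : ℝ) + 1) ≤
        (ν : ℝ) * (6 * d + P - Q) + (ee d P Q ν m : ℤ) - 1)
    (H3 : ∃ κ : ℂ, κ ≠ 0 ∧ ∀ m, m ≤ 3 * ν / 2 →
      (∀ m', m' ≤ 3 * ν / 2 → ee d P Q ν m' ≤ ee d P Q ν m) → cc P ν m = κ) :
    GoodAt (Cw d ++ mw (p ++ [false])) α C1 C2 ν := by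
  obtain ⟨m0, hm0, H2⟩ := H2
  obtain ⟨κ, hκ, H3⟩ := H3
  obtain ⟨m1, hm1, a1, a2⟩ := max_exists (range (3 * ν / 2 + 1)) ⟨0, by simp⟩
    (ee d P Q ν) (cc P ν) κ hκ (fun m hm h => H3 m (by rw [mem_range] at hm; omega)
      fun m' hm' => h m' (by rw [mem_range]; omega))
  refine ⟨ee d P Q ν m1, _, a2, ?_, ?_, ?_⟩
  · refine sum_lim _ _ _ _ _ ?_ a1
    intro m hm
    have := ee_lim d p h3 ν m hm
    rw [hP, hQ] at this
    exact this
  · rw [wr_real d p P Q hP hQ]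
    have h4 : ee d P Q ν m0 ≤ ee d P Q ν m1 := a1 m0 (by rw [mem_range]; omega)
    have h5 : (ee d P Q ν m0 : ℝ) ≤ (ee d P Q ν m1 : ℝ) := by exact_mod_cast h4
    linarith
  · rw [wr_real d p P Q hP hQ]
    rw [mem_range] at hm1
    exact H1 m1 (by omega)

/-- little positive twisting: the level `0` dominates -/
theorem good3 (d : ℤ) (p : List Bool)
    (h3 : (permL (Cw d ++ mw (p ++ [false]))).IsThreeCycle) (P Q : ℕ)
    (hP : (p ++ [false]).count true = P) (hQ : (p ++ [false]).count false = Q)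
    (hd : d ≤ -1) (hc : (P : ℤ) ≤ -3 * d) :
    Good (Cw d ++ mw (p ++ [false])) := by
  have hPr : (0 : ℝ) ≤ P := Nat.cast_nonneg P
  have hQr : (0 : ℝ) ≤ Q := Nat.cast_nonneg Q
  have hdr : (d : ℝ) ≤ -1 := by exact_mod_cast hd
  have hcr : (P : ℝ) ≤ -3 * d := by exact_mod_cast hc
  refine good_of_at _ 0 0 (-6 * d + Q) 1 fun ν hν => ?_
  have hνr : (1 : ℝ) ≤ ν := by exact_mod_cast hν
  have hlt : ∀ m, 1 ≤ m → m ≤ 3 * ν / 2 → ee d P Q ν m < ee d P Q ν 0 := by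
    intro m hm1 hm2
    rw [ee_low d P Q ν 0 (Nat.zero_le _)]
    rcases Nat.lt_or_ge ν m with h1 | h1
    · obtain ⟨M, rfl⟩ : ∃ M, m = ν + M := ⟨m - ν, by omega⟩
      rw [ee_high]
      have hM : 2 * (M : ℤ) ≤ ν := by omega
      have hM0 : (0 : ℤ) ≤ M := Int.natCast_nonneg M
      have hν1 : (1 : ℤ) ≤ ν := by exact_mod_cast hν
      have key : E2 d P ν ((0 : ℕ) : ℤ) - E1 d P Q ν (ν + M) =
          2 * ((ν : ℤ) + M) + (-d) * ((ν : ℤ) ^ 2 - ν + 2 * ν * M + 5 * M + M ^ 2) +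
          (-3 * d - P) * ((ν : ℤ) ^ 2 + ν - M ^ 2 - M) +
          Q * M * (2 * ν + 1 - M) := by
        unfold E1 E2; push_cast; ring
      have a1 : 0 ≤ (-d) * ((ν : ℤ) ^ 2 - ν + 2 * ν * M + 5 * M + M ^ 2) := by
        apply mul_nonneg (by omega)
        nlinarith [mul_nonneg hM0 (by omega : (0 : ℤ) ≤ ν)]
      have a2 : 0 ≤ (-3 * d - P) * ((ν : ℤ) ^ 2 + ν - M ^ 2 - M) := by
        apply mul_nonneg (by omega)
        nlinarith
      have a3 : 0 ≤ (Q : ℤ) * M * (2 * ν + 1 - M) := by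
        apply mul_nonneg (by positivity)
        omega
      linarith
    · rw [ee_low _ _ _ _ _ h1]
      have hm1' : (1 : ℤ) ≤ m := by exact_mod_cast hm1
      have h1' : (m : ℤ) ≤ ν := by exact_mod_cast h1
      have key : E2 d P ν ((0 : ℕ) : ℤ) - E2 d P ν m =
          m * (2 + (-d) * ((m : ℤ) - 1) + (-3 * d - P) * (2 * ν + 1 - m)) := by
        unfold E2; push_cast; ring
      have a1 : 0 ≤ (-d) * ((m : ℤ) - 1) := mul_nonneg (by omega) (by omega)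
      have a2 : 0 ≤ (-3 * d - P) * (2 * (ν : ℤ) + 1 - m) := mul_nonneg (by omega) (by omega)
      have a3 : 0 < (m : ℤ) * (2 + (-d) * ((m : ℤ) - 1) + (-3 * d - P) * (2 * ν + 1 - m)) := by
        apply mul_pos (by omega)
        linarith
      linarith
  have h0 : (ν : ℝ) * (6 * d + P - Q) + (ee d P Q ν 0 : ℤ) - 1 =
      (ν : ℝ) * (6 * d + P - Q + 3) := by
    rw [ee_low d P Q ν 0 (Nat.zero_le _)]
    unfold E2
    push_cast
    ring
  refine at_of_max d p h3 P Q hP hQ _ _ _ ν ?_ ⟨0, Nat.zero_le _, ?_⟩ ⟨-1, by norm_num, ?_⟩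
  · intro m hm
    have h1 : ee d P Q ν m ≤ ee d P Q ν 0 := by
      rcases Nat.eq_zero_or_pos m with h2 | h2
      · rw [h2]
      · exact (hlt m h2 hm).le
    have h5 : (ee d P Q ν m : ℝ) ≤ (ee d P Q ν 0 : ℝ) := by exact_mod_cast h1
    have h6 : (ν : ℝ) * (6 * d + P - Q + 3) ≤ 0 :=
      mul_nonpos_of_nonneg_of_nonpos (by linarith) (by linarith)
    linarith
  · rw [h0]
    nlinarith [mul_nonneg hPr (by linarith : (0 : ℝ) ≤ ν)]
  · intro m hm hmax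
    rcases Nat.eq_zero_or_pos m with h2 | h2
    · rw [h2]; simp [cc]
    · exact absurd (hmax 0 (Nat.zero_le _)) (not_le.2 (hlt m h2 hm))

/-! ### much positive twisting: an interior level dominates -/

theorem E2_diff (d P ν m t : ℤ) : E2 d P ν (m + t) - E2 d P ν m =
    t * (2 * ((P + 3 * d) * ν - 1) - (P + 2 * d) * (2 * m + t - 1)) := by
  unfold E2; ring

/-- the levels above `ν` are smaller -/
theorem ee_high_lt {d : ℤ} (hd : d ≤ -1) (P Q : ℕ) {ν M : ℕ} (hM : 1 ≤ M)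
    (hM2 : 2 * M ≤ ν) (hQ : 1 ≤ Q) : ee d P Q ν (ν + M) + 2 * ν < ee d P Q ν ν := by
  rw [ee_high, ee_low _ _ _ _ _ le_rfl]
  have h4 := E1_nu d P Q ν M
  have hM1 : (1 : ℤ) ≤ M := by exact_mod_cast hM
  have hM2' : 2 * (M : ℤ) ≤ ν := by exact_mod_cast hM2
  have hQ1 : (1 : ℤ) ≤ Q := by exact_mod_cast hQ
  have a1 : 1 * (2 * (ν : ℤ) + 1 - M) ≤ Q * (2 * (ν : ℤ) + 1 - M) :=
    mul_le_mul_of_nonneg_right hQ1 (by linarith)
  have a2 : 2 * ((ν : ℤ) + 1 - M) ≤ -2 * d * ((ν : ℤ) + 1 - M) :=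
    mul_le_mul_of_nonneg_right (by omega) (by linarith)
  have a3 : (0 : ℤ) ≤ P * ((M : ℤ) + 1) := by positivity
  have a4 : 2 * (ν : ℤ) < 2 - 2 * d * ((ν : ℤ) + 1 - M) + P * ((M : ℤ) + 1) +
      Q * (2 * (ν : ℤ) + 1 - M) := by linarith
  have a5 : 1 * (2 - 2 * d * ((ν : ℤ) + 1 - M) + P * ((M : ℤ) + 1) +
      Q * (2 * (ν : ℤ) + 1 - M)) ≤ (M : ℤ) * (2 - 2 * d * ((ν : ℤ) + 1 - M) +
      P * ((M : ℤ) + 1) + Q * (2 * (ν : ℤ) + 1 - M)) :=
    mul_le_mul_of_nonneg_right hM1 (by linarith)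
  linarith

/-- bounds for the exponents -/
theorem int_bounds (d : ℤ) (P Q : ℕ) (hd : d ≤ -1) (hc : -3 * d < (P : ℤ)) (hQ1 : 1 ≤ Q) :
    ∃ α C1 C2 : ℝ, ∀ ν : ℕ, 1 ≤ ν →
      (∀ m, m ≤ 3 * ν / 2 → (ν : ℝ) * (6 * d + P - Q) + (ee d P Q ν m : ℤ) - 1 ≤
        α * ((ν : ℝ) + 1) ^ 2 + C1) ∧
      (∃ m, m ≤ 3 * ν / 2 ∧ α * ((ν : ℝ) + 1) ^ 2 - C2 * ((ν : ℝ) + 1) ≤
        (ν : ℝ) * (6 * d + P - Q) + (ee d P Q ν m : ℤ) - 1) := by
  have hQr : (1 : ℝ) ≤ Q := by exact_mod_cast hQ1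
  have hdr : (d : ℝ) ≤ -1 := by exact_mod_cast hd
  have hPr : (0 : ℝ) ≤ P := Nat.cast_nonneg P
  have hcr : -3 * (d : ℝ) + 1 ≤ P := by
    have h : -3 * d + 1 ≤ (P : ℤ) := by omega
    exact_mod_cast h
  set S : ℝ := P + 2 * d with hS
  set D : ℝ := P + 3 * d with hD
  have hSpos : 0 < S := by rw [hS]; linarith
  have hD1 : 1 ≤ D := by rw [hD]; linarith
  set B0 : ℝ := -2 + 2 * d + P with hB0
  set β : ℝ := P * (1 + d) / S - Q with hβ
  have hβ0 : β ≤ 0 := by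
    rw [hβ]
    have : P * (1 + d) / S ≤ 0 := by
      apply div_nonpos_of_nonpos_of_nonneg _ hSpos.le
      exact mul_nonpos_of_nonneg_of_nonpos hPr (by linarith)
    linarith
  refine ⟨D ^ 2 / S, B0 ^ 2 / (4 * S) - (D ^ 2 / S) - β,
    (2 * (D ^ 2 / S) + (S + |B0|) + (-6 * d + Q) + D * |B0| / S), fun ν hν => ?_⟩
  have hνr : (1 : ℝ) ≤ ν := by exact_mod_cast hν
  have hG : ∀ m : ℕ, m ≤ ν → (ν : ℝ) * (6 * d + P - Q) + (ee d P Q ν m : ℤ) - 1 =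
      (6 * d + P - Q + 3) * ν + m * (2 * D * ν + B0 - S * m) := by
    intro m hm
    rw [ee_low _ _ _ _ _ hm]
    unfold E2
    rw [hS, hD, hB0]
    push_cast
    ring
  have hup : ∀ m : ℝ, (6 * d + P - Q + 3) * ν + m * (2 * D * ν + B0 - S * m) ≤
      (D ^ 2 / S) * ((ν : ℝ) + 1) ^ 2 + (B0 ^ 2 / (4 * S) - (D ^ 2 / S) - β) := by
    intro m
    have h1 : (D ^ 2 / S) * ((ν : ℝ) + 1) ^ 2 + β * ((ν : ℝ) + 1) +
        (B0 ^ 2 / (4 * S) - (D ^ 2 / S) - β) -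
        ((6 * d + P - Q + 3) * ν + m * (2 * D * ν + B0 - S * m)) =
        (2 * D * ν + B0 - 2 * S * m) ^ 2 / (4 * S) := by
      rw [hβ]
      field_simp
      rw [hS, hD, hB0]
      ring
    have h2 : 0 ≤ (2 * D * ν + B0 - 2 * S * m) ^ 2 / (4 * S) := by positivity
    have h3 : β * ((ν : ℝ) + 1) ≤ 0 := mul_nonpos_of_nonpos_of_nonneg hβ0 (by linarith)
    linarith
  refine ⟨?_, ?_⟩
  · intro m hm
    rcases Nat.lt_or_ge ν m with h1 | h1
    · obtain ⟨M, rfl⟩ : ∃ M, m = ν + M := ⟨m - ν, by omega⟩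
      have h2 := ee_high_lt hd P Q (ν := ν) (M := M) (by omega) (by omega) hQ1
      have h4 : ee d P Q ν (ν + M) ≤ ee d P Q ν ν := by omega
      have h5 : (ee d P Q ν (ν + M) : ℝ) ≤ (ee d P Q ν ν : ℝ) := by exact_mod_cast h4
      have h6 := hG ν le_rfl
      have h7 := hup ν
      linarith
    · rw [hG m h1]
      exact hup m
  · set Sn : ℕ := (P + 2 * d).toNat with hSn
    set Dn : ℕ := (P + 3 * d).toNat with hDn
    have hSn' : (Sn : ℤ) = P + 2 * d := by rw [hSn]; omega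
    have hDn' : (Dn : ℤ) = P + 3 * d := by rw [hDn]; omega
    have hSnr : (Sn : ℝ) = S := by
      have : ((Sn : ℤ) : ℝ) = ((P + 2 * d : ℤ) : ℝ) := by rw [hSn']
      rw [hS]; push_cast at this; exact this
    have hDnr : (Dn : ℝ) = D := by
      have : ((Dn : ℤ) : ℝ) = ((P + 3 * d : ℤ) : ℝ) := by rw [hDn']
      rw [hD]; push_cast at this; exact this
    have hSnpos : 0 < Sn := by omega
    have hDS : Dn ≤ Sn := by omega
    set M0 : ℕ := Dn * ν / Sn with hM0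
    set r : ℕ := Dn * ν % Sn with hr
    have hdiv : Sn * M0 + r = Dn * ν := Nat.div_add_mod _ _
    have hrlt : r < Sn := Nat.mod_lt _ hSnpos
    have hM02 : M0 ≤ ν := by
      have h4 : Sn * M0 ≤ Sn * ν := by nlinarith
      exact Nat.le_of_mul_le_mul_left h4 hSnpos
    refine ⟨M0, by omega, ?_⟩
    rw [hG M0 hM02]
    have hdivr : S * M0 + r = D * ν := by
      rw [← hSnr, ← hDnr]
      exact_mod_cast hdiv
    have hrr : (r : ℝ) ≤ S := by rw [← hSnr]; exact_mod_cast hrlt.le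
    have hr0 : (0 : ℝ) ≤ r := Nat.cast_nonneg r
    have hMr : (M0 : ℝ) = (D * ν - r) / S := by
      rw [eq_div_iff hSpos.ne']; linarith
    have h5 : (M0 : ℝ) * (2 * D * ν + B0 - S * M0) =
        (D ^ 2 / S) * (ν : ℝ) ^ 2 + (D * B0 / S) * ν - (r ^ 2 + r * B0) / S := by
      rw [hMr]
      field_simp
      ring
    have h6 : (r ^ 2 + r * B0) / S ≤ S + |B0| := by
      rw [div_le_iff₀ hSpos]
      have a1 : (r : ℝ) ^ 2 ≤ S * S := by nlinarith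
      have a2 : (r : ℝ) * B0 ≤ S * |B0| := by
        calc (r : ℝ) * B0 ≤ r * |B0| := mul_le_mul_of_nonneg_left (le_abs_self B0) hr0
          _ ≤ S * |B0| := mul_le_mul_of_nonneg_right hrr (abs_nonneg B0)
      nlinarith
    have h7 : -(D * |B0| / S) * ν ≤ (D * B0 / S) * ν := by
      apply mul_le_mul_of_nonneg_right _ (by linarith)
      rw [neg_le, ← neg_div, ← mul_neg]
      apply div_le_div_of_nonneg_right _ hSpos.le
      exact mul_le_mul_of_nonneg_left (neg_le_abs B0) (by linarith)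
    rw [h5]
    have h8 : 0 ≤ D ^ 2 / S := by positivity
    have h9 : 0 ≤ D * |B0| / S := by positivity
    have h10 : 0 ≤ |B0| := abs_nonneg B0
    have h11 : -(-6 * (d : ℝ) + Q) * ν ≤ (6 * d + P - Q + 3) * ν := by
      apply mul_le_mul_of_nonneg_right _ (by linarith)
      linarith
    nlinarith

theorem cc_even {P : ℕ} (hP : Even P) (ν m : ℕ) : cc P ν m = -1 := by
  unfold cc
  split_ifs <;> simp [(hP.mul_left _).neg_one_pow]

end Pool.Agent.Run7.h760
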