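import Mathlib

/-! Conjugacy classes of the three-strand braid group: reduction to a normal form. -/

set_option autoImplicit false

namespace Pool.Agent.Run7.h760

namespace Cl

variable {G : Type} [Group G] (s t : G)

/-- value of a letter: `(false, _)` is `s^{±1}`, `(true, _)` is `t^{±1}` -/
def lt (g : Bool × Bool) : G :=
  if g.1 then (if g.2 then t else t⁻¹) else (if g.2 then s else s⁻¹)

/-- value of a word -/
def ev (w : List (Bool × Bool)) : G := (w.map (lt s t)).prod

theorem ev_append (u w : List (Bool × Bool)) : ev s t (u ++ w) = ev s t u * ev s t w := by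
  unfold ev; rw [List.map_append, List.prod_append]

theorem ev_cons (g : Bool × Bool) (w : List (Bool × Bool)) :
    ev s t (g :: w) = lt s t g * ev s t w := by
  unfold ev; rw [List.map_cons, List.prod_cons]

/-- half twist and its square, and `s t` -/
def D : G := s * t * s
def C : G := D s t * D s t
def x : G := s * t

/-- a word in `s` (true) and `t⁻¹` (false) -/
def mwd (u : List Bool) : List (Bool × Bool) :=
  u.map fun c => if c then (false, true) else (true, false)

variable (hb : s * t * s = t * s * t)

include hb

theorem D_s : D s t * s = t * D s t := by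
  unfold D
  calc s * t * s * s = t * s * t * s := by rw [hb]
    _ = t * (s * t * s) := by simp only [mul_assoc]

theorem D_t : D s t * t = s * D s t := by
  unfold D
  calc s * t * s * t = s * (t * s * t) := by simp only [mul_assoc]
    _ = s * (s * t * s) := by rw [hb]

theorem C_s : Commute (C s t) s := by
  unfold Commute SemiconjBy C
  rw [mul_assoc, D_s s t hb, ← mul_assoc, D_t s t hb, mul_assoc]

theorem C_t : Commute (C s t) t := by
  unfold Commute SemiconjBy C
  rw [mul_assoc, D_t s t hb, ← mul_assoc, D_s s t hb, mul_assoc]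

theorem C_D : Commute (C s t) (D s t) :=
  ((C_s s t hb).mul_right (C_t s t hb)).mul_right (C_s s t hb)

theorem C_x : Commute (C s t) (x s t) := (C_s s t hb).mul_right (C_t s t hb)

theorem x_cube : x s t ^ (3 : ℤ) = C s t := by
  have h : x s t ^ 3 = C s t := by
    unfold x C
    have : D s t * D s t = (s * t * s) * (t * s * t) := by
      unfold D; rw [← hb]
    rw [this]
    simp only [pow_succ, pow_zero, one_mul, mul_assoc]
  exact_mod_cast h

/-- `f e = x^e D` -/
def f (e : ℤ) : G := x s t ^ e * D s t

omit hb in
theorem f_def (e : ℤ) : f s t e = x s t ^ e * D s t := rfl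

theorem x_zpow3 (q r : ℤ) : x s t ^ (3 * q + r) = C s t ^ q * x s t ^ r := by
  rw [zpow_add, zpow_mul, x_cube s t hb]

theorem f_3 (q r : ℤ) : f s t (3 * q + r) = C s t ^ q * f s t r := by
  rw [f_def, f_def, x_zpow3 s t hb, mul_assoc]

omit hb in
theorem f_neg : f s t (-1) = s := by
  rw [f_def, zpow_neg_one]
  unfold x D
  group

theorem f_two : f s t 2 = C s t * s := by
  have := f_3 s t hb 1 (-1)
  rw [zpow_one, f_neg s t] at this
  exact this

theorem f_one : f s t 1 = C s t * t⁻¹ := by
  rw [eq_mul_inv_iff_mul_eq, f_def, zpow_one, mul_assoc, D_t s t hb]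
  unfold x C D
  simp only [mul_assoc]

omit hb in
theorem f_zero : f s t 0 = D s t := by
  rw [f_def, zpow_zero, one_mul]

/-- a letter in the form `C^j x^a D x^c` -/
theorem lt_form (g : Bool × Bool) : ∃ j a c : ℤ, lt s t g = C s t ^ j * f s t a * x s t ^ c := by
  obtain ⟨p, q⟩ := g
  cases p <;> cases q
  · -- s⁻¹ = C⁻¹ D x
    refine ⟨-1, 0, 1, ?_⟩
    rw [f_zero s t, zpow_one, zpow_neg_one, mul_assoc]
    have : lt s t (false, false) = s⁻¹ := rfl
    rw [this, eq_inv_mul_iff_mul_eq, mul_inv_eq_iff_eq_mul]
    unfold C
    have h1 : D s t * x s t * s = D s t * D s t := by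
      unfold x
      conv_rhs => rw [show D s t = s * t * s from rfl]
      simp only [D, mul_assoc]
    rw [h1]
  · refine ⟨0, -1, 0, ?_⟩
    rw [f_neg s t, zpow_zero, zpow_zero, one_mul, mul_one]
    rfl
  · refine ⟨-1, 1, 0, ?_⟩
    rw [f_one s t hb, zpow_zero, mul_one, zpow_neg_one, inv_mul_cancel_left]
    rfl
  · -- t = D x⁻¹
    refine ⟨0, 0, -1, ?_⟩
    rw [f_zero s t, zpow_zero, one_mul, zpow_neg_one, eq_mul_inv_iff_mul_eq]
    have : lt s t (true, true) = t := rfl
    rw [this]
    unfold x D
    rw [hb]
    simp only [mul_assoc]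

theorem C_f (e : ℤ) : Commute (C s t) (f s t e) :=
  ((C_x s t hb).zpow_right e).mul_right (C_D s t hb)

theorem C_prod (l : List ℤ) : Commute (C s t) (l.map (f s t)).prod := by
  induction l with
  | nil => exact Commute.one_right _
  | cons a l ih =>
    rw [List.map_cons, List.prod_cons]
    exact (C_f s t hb a).mul_right ih

/-- every word in the form `C^k (∏ f e_i) x^b` -/
theorem ev_form (w : List (Bool × Bool)) : ∃ (k b : ℤ) (l : List ℤ),
    ev s t w = C s t ^ k * (l.map (f s t)).prod * x s t ^ b := by
  induction w using List.reverseRecOn with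
  | nil => exact ⟨0, 0, [], by simp [ev]⟩
  | append_singleton w g ih =>
    obtain ⟨k, b, l, h⟩ := ih
    obtain ⟨j, a, c, hg⟩ := lt_form s t hb g
    refine ⟨k + j, c, l ++ [b + a], ?_⟩
    have e1 : ev s t [g] = lt s t g := by simp [ev]
    rw [ev_append, e1, h, hg, List.map_append, List.prod_append, List.map_singleton,
      List.prod_singleton, f_def, f_def, zpow_add (x s t), zpow_add (C s t)]
    have h1 := ((C_prod s t hb l).zpow_left j).eq
    have h2 := (((C_x s t hb).zpow_right b).zpow_left j).eq
    calc C s t ^ k * (List.map (f s t) l).prod * x s t ^ b *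
          (C s t ^ j * (x s t ^ a * D s t) * x s t ^ c) =
        C s t ^ k * ((List.map (f s t) l).prod * ((x s t ^ b * C s t ^ j) *
          (x s t ^ a * D s t * x s t ^ c))) := by simp only [mul_assoc]
      _ = C s t ^ k * (((List.map (f s t) l).prod * C s t ^ j) * (x s t ^ b *
          (x s t ^ a * D s t * x s t ^ c))) := by rw [← h2]; simp only [mul_assoc]
      _ = _ := by rw [← h1]; simp only [mul_assoc]

/-- the normal forms -/
def NF (nf : List (Bool × Bool)) : Prop :=
  nf = [(false, true), (true, true)] ∨ nf = [(true, false), (false, false)] ∨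
  nf = [(false, true), (true, true), (false, true)] ∨ ∃ u : List Bool, nf = mwd u

/-- conjugate to a power of the full twist times a normal form -/
def InS (g : G) : Prop := ∃ (d : ℤ) (nf : List (Bool × Bool)), NF nf ∧
  IsConj g (C s t ^ d * ev s t nf)

omit hb in
theorem InS.conj {g h : G} (hg : InS s t g) (hc : IsConj h g) : InS s t h := by
  obtain ⟨d, nf, h1, h2⟩ := hg
  exact ⟨d, nf, h1, hc.trans h2⟩

theorem ins_x (k b : ℤ) : InS s t (C s t ^ k * x s t ^ b) := by
  have hb3 : b % 3 = 0 ∨ b % 3 = 1 ∨ b % 3 = 2 := by omega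
  have e : b = 3 * (b / 3) + b % 3 := by omega
  rcases hb3 with h | h | h
  · refine ⟨k + b / 3, [], Or.inr (Or.inr (Or.inr ⟨[], rfl⟩)), ?_⟩
    rw [e, x_zpow3 s t hb, h]
    have e2 : (3 * (b / 3) + 0) / 3 = b / 3 := by omega
    have e0 : ev s t [] = 1 := rfl
    rw [e2, zpow_zero, mul_one, ← zpow_add, e0, mul_one]
  · refine ⟨k + b / 3, [(false, true), (true, true)], Or.inl rfl, ?_⟩
    rw [e, x_zpow3 s t hb, h]
    have e2 : (3 * (b / 3) + 1) / 3 = b / 3 := by omega
    have e3 : ev s t [(false, true), (true, true)] = x s t := by simp [ev, lt, x]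
    rw [e2, e3, zpow_one, ← mul_assoc, ← zpow_add]
  · refine ⟨k + b / 3 + 1, [(true, false), (false, false)], Or.inr (Or.inl rfl), ?_⟩
    rw [e, x_zpow3 s t hb, h]
    have e2 : (3 * (b / 3) + 2) / 3 = b / 3 := by omega
    have e3 : ev s t [(true, false), (false, false)] = (x s t)⁻¹ := by simp [ev, lt, x]
    have e4 : x s t ^ (2 : ℤ) = C s t * (x s t)⁻¹ := by
      have := x_zpow3 s t hb 1 (-1)
      rw [zpow_one, zpow_neg_one] at this
      exact this
    rw [e2, e3, e4, zpow_add_one, zpow_add]
    simp only [mul_assoc]
    exact IsConj.refl _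

omit hb in
theorem conj_comm (a b : G) : IsConj (a * b) (b * a) := by
  rw [isConj_iff]
  exact ⟨b, by simp [mul_assoc]⟩

/-- all exponents prime to 3 -/
theorem alt_form (l : List ℤ) (hl : ∀ e ∈ l, e % 3 ≠ 0) :
    ∃ (k : ℤ) (u : List Bool), (l.map (f s t)).prod = C s t ^ k * ev s t (mwd u) := by
  induction l with
  | nil => exact ⟨0, [], by simp [ev, mwd]⟩
  | cons a l ih =>
    obtain ⟨k, u, h⟩ := ih fun e he => hl e (List.mem_cons_of_mem _ he)
    have ha := hl a List.mem_cons_self
    have e : a = 3 * (a / 3) + a % 3 := by omega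
    have h12 : a % 3 = 1 ∨ a % 3 = 2 := by omega
    rw [List.map_cons, List.prod_cons, h]
    rcases h12 with h1 | h1
    · refine ⟨a / 3 + 1 + k, false :: u, ?_⟩
      have e2 : ev s t (mwd (false :: u)) = t⁻¹ * ev s t (mwd u) := by simp [ev, mwd, lt]
      rw [e2, e, f_3 s t hb, h1, f_one s t hb]
      have e3 : (3 * (a / 3) + 1) / 3 = a / 3 := by omega
      rw [e3, zpow_add, zpow_add_one]
      have hc := ((C_t s t hb).inv_right.zpow_left k).eq
      calc C s t ^ (a / 3) * (C s t * t⁻¹) * (C s t ^ k * ev s t (mwd u)) =
          C s t ^ (a / 3) * C s t * ((t⁻¹ * C s t ^ k) * ev s t (mwd u)) := by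
            simp only [mul_assoc]
        _ = _ := by rw [← hc]; simp only [mul_assoc]
    · refine ⟨a / 3 + 1 + k, true :: u, ?_⟩
      have e2 : ev s t (mwd (true :: u)) = s * ev s t (mwd u) := by simp [ev, mwd, lt]
      rw [e2, e, f_3 s t hb, h1, f_two s t hb]
      have e3 : (3 * (a / 3) + 2) / 3 = a / 3 := by omega
      rw [e3, zpow_add, zpow_add_one]
      have hc := ((C_s s t hb).zpow_left k).eq
      calc C s t ^ (a / 3) * (C s t * s) * (C s t ^ k * ev s t (mwd u)) =
          C s t ^ (a / 3) * C s t * ((s * C s t ^ k) * ev s t (mwd u)) := by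
            simp only [mul_assoc]
        _ = _ := by rw [← hc]; simp only [mul_assoc]

theorem ins_prod (n : ℕ) : ∀ (l : List ℤ), l.length = n → ∀ k : ℤ,
    InS s t (C s t ^ k * (l.map (f s t)).prod) := by
  induction n using Nat.strong_induction_on with
  | _ n ih =>
    intro l hl k
    by_cases hall : ∀ e ∈ l, e % 3 ≠ 0
    · obtain ⟨j, u, h⟩ := alt_form s t hb l hall
      refine ⟨k + j, mwd u, Or.inr (Or.inr (Or.inr ⟨u, rfl⟩)), ?_⟩
      rw [h, ← mul_assoc, ← zpow_add]
    · have hall2 : ∃ e ∈ l, e % 3 = 0 := by
        by_contra h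
        exact hall fun e he h2 => h ⟨e, he, h2⟩
      obtain ⟨e, he, he3⟩ := hall2
      obtain ⟨l1, l2, rfl⟩ := List.append_of_mem he
      have ee : e = 3 * (e / 3) + 0 := by omega
      have hfe : f s t e = C s t ^ (e / 3) * D s t := by
        conv_lhs => rw [ee]
        rw [f_3 s t hb, f_zero s t]
      set L : List ℤ := l2 ++ l1 with hL
      -- rotate
      have hrot : IsConj (C s t ^ k * ((l1 ++ e :: l2).map (f s t)).prod)
          (C s t ^ (k + e / 3) * (L.map (f s t)).prod * D s t) := by
        rw [List.map_append, List.prod_append, List.map_cons, List.prod_cons, hfe, hL,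
          List.map_append, List.prod_append]
        set A := (l1.map (f s t)).prod with hA
        set B := (l2.map (f s t)).prod with hB
        have c1 := ((C_prod s t hb l1).zpow_left (e / 3)).eq
        have c2 := ((C_prod s t hb l2).zpow_left (k + e / 3)).eq
        rw [← hA] at c1
        rw [← hB] at c2
        have e1 : C s t ^ k * (A * (C s t ^ (e / 3) * D s t * B)) =
            (C s t ^ (k + e / 3) * A * D s t) * B := by
          rw [zpow_add]
          calc C s t ^ k * (A * (C s t ^ (e / 3) * D s t * B)) =
              C s t ^ k * ((A * C s t ^ (e / 3)) * (D s t * B)) := by simp only [mul_assoc]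
            _ = _ := by rw [← c1]; simp only [mul_assoc]
        have e2 : C s t ^ (k + e / 3) * (B * A) * D s t =
            B * (C s t ^ (k + e / 3) * A * D s t) := by
          calc C s t ^ (k + e / 3) * (B * A) * D s t =
              (C s t ^ (k + e / 3) * B) * (A * D s t) := by simp only [mul_assoc]
            _ = _ := by rw [c2]; simp only [mul_assoc]
        rw [e1, e2]
        exact conj_comm _ _
      refine InS.conj s t ?_ hrot
      have hlen : L.length + 1 = n := by
        rw [← hl, hL]; simp; omega
      rcases List.eq_nil_or_concat L with hL0 | ⟨L', e', hL1⟩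
      · rw [hL0]
        refine ⟨k + e / 3, [(false, true), (true, true), (false, true)],
          Or.inr (Or.inr (Or.inl rfl)), ?_⟩
        have e3 : ev s t [(false, true), (true, true), (false, true)] = D s t := by
          simp [ev, lt, D, mul_assoc]
        rw [e3, List.map_nil, List.prod_nil, mul_one]
      · have hL1' : L = L' ++ [e'] := by rw [hL1]; simp
        rw [hL1', List.map_append, List.prod_append, List.map_singleton, List.prod_singleton,
          f_def]
        set A := (L'.map (f s t)).prod with hA
        have c1 := ((C_prod s t hb L')).eq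
        have c3 := ((C_prod s t hb L').mul_right ((C_x s t hb).zpow_right e')).eq
        rw [← hA] at c1 c3
        have e4 : C s t ^ (k + e / 3) * (A * (x s t ^ e' * D s t)) * D s t =
            (C s t ^ (k + e / 3 + 1) * A) * x s t ^ e' := by
          rw [zpow_add_one]
          calc C s t ^ (k + e / 3) * (A * (x s t ^ e' * D s t)) * D s t =
              C s t ^ (k + e / 3) * ((A * x s t ^ e') * (D s t * D s t)) := by
                simp only [mul_assoc]
            _ = C s t ^ (k + e / 3) * ((A * x s t ^ e') * C s t) := rfl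
            _ = _ := by rw [← c3]; simp only [mul_assoc]
        rw [e4]
        refine InS.conj s t ?_ (conj_comm _ _)
        have c4 := (((C_x s t hb).zpow_right e').zpow_left (k + e / 3 + 1)).eq
        have e5 : x s t ^ e' * (C s t ^ (k + e / 3 + 1) * A) =
            C s t ^ (k + e / 3 + 1) * (x s t ^ e' * A) := by
          rw [← mul_assoc, ← c4, mul_assoc]
        rw [e5]
        cases L' with
        | nil =>
          rw [hA, List.map_nil, List.prod_nil, mul_one]
          exact ins_x s t hb _ _
        | cons a L'' =>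
          have e6 : x s t ^ e' * A = (((e' + a) :: L'').map (f s t)).prod := by
            rw [hA, List.map_cons, List.prod_cons, List.map_cons, List.prod_cons, f_def, f_def,
              zpow_add]
            simp only [mul_assoc]
          rw [e6]
          have h7 : L''.length + 3 = n := by
            rw [← hlen, hL1']; simp
          exact ih (n - 2) (by omega) _ (by rw [List.length_cons]; omega) _

/-- **classification** -/
theorem classify (w : List (Bool × Bool)) : InS s t (ev s t w) := by
  obtain ⟨k, b, l, h⟩ := ev_form s t hb w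
  rw [h]
  refine InS.conj s t ?_ (conj_comm _ _)
  have c4 := (((C_x s t hb).zpow_right b).zpow_left k).eq
  have e5 : x s t ^ b * (C s t ^ k * (l.map (f s t)).prod) =
      C s t ^ k * (x s t ^ b * (l.map (f s t)).prod) := by
    rw [← mul_assoc, ← c4, mul_assoc]
  rw [e5]
  cases l with
  | nil =>
    rw [List.map_nil, List.prod_nil, mul_one]
    exact ins_x s t hb _ _
  | cons a l =>
    have e6 : x s t ^ b * ((a :: l).map (f s t)).prod = (((b + a) :: l).map (f s t)).prod := by
      rw [List.map_cons, List.prod_cons, List.map_cons, List.prod_cons, f_def, f_def, zpow_add]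
      simp only [mul_assoc]
    rw [e6]
    exact ins_prod s t hb _ _ rfl k

end Cl

end Pool.Agent.Run7.h760
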