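import Pool.Agent.Run7.h760.Case3

/-! Negative twisting, an interior level dominates: ties. -/

set_option autoImplicit false

namespace Pool.Agent.Run7.h760

open Finset Matrix Filter Topology
open Pool.Agent.H550R3.Jones (br brf cjones)
open Pool.Agent.Y482.CY (sb LL UU Nz)
open Pool.Agent.Y481.CC (LI UI CM Lt TW permL wr enc)

theorem tf_pos (p : List Bool) (h : true ∈ p) : 1 ≤ tf (p ++ [false]) := by
  induction p with
  | nil => simp at h
  | cons a p ih =>
    rw [List.cons_append, tf]
    by_cases hp : true ∈ p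
    · have := ih hp
      omega
    · have ha : a = true := by
        rcases List.mem_cons.1 h with h1 | h1
        · exact h1.symm
        · exact absurd h1 hp
      have hhead : (p ++ [false]).head? = some false := by
        cases p with
        | nil => rfl
        | cons b p =>
          have hb : b = false := by
            cases b
            · rfl
            · exact absurd List.mem_cons_self hp
          rw [hb]; rfl
      rw [if_pos ⟨ha, hhead⟩]
      omega

/-- two levels whose leading terms cancel -/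
theorem pair_lim (d : ℤ) (p : List Bool) (hp : p ≠ []) (ν m m' : ℕ) (hν : 1 ≤ ν) (hm : m ≤ ν)
    (hm' : m' ≤ ν) (hlt : m < m')
    (hE : E2 d ((p ++ [false]).count true) ν m = E2 d ((p ++ [false]).count true) ν m')
    (hs : (-1 : ℂ) ^ (m * (p ++ [false]).count true) +
      (-1) ^ (m' * (p ++ [false]).count true) = 0) :
    Tendsto (fun y : ℝ => (y : ℂ) ^ (E2 d ((p ++ [false]).count true) ν m' -
      (2 * (ν : ℤ) + 2 - 2 * m')) * (ft (Cw d ++ mw (p ++ [false])) ν m y +
      ft (Cw d ++ mw (p ++ [false])) ν m' y)) l0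
      (𝓝 ((-1) ^ (m' * (p ++ [false]).count true) * ((tf (p ++ [false]) : ℕ) : ℂ))) := by
  have t1 := ft2_lim1 d p hp ν m hν hm
  have t2 := ft2_lim1 d p hp ν m' hν hm'
  have t3 := ((zp0 (n := 2 * ((m' : ℤ) - m)) (by omega)).mul t1).add t2
  rw [zero_mul, zero_add, if_neg (show ¬ m' = 0 by omega), mul_one] at t3
  refine (tendsto_congr' ?_).1 t3
  filter_upwards [ev_pos] with y hy
  have hv := cne hy
  generalize (p ++ [false]).count true = P at *
  generalize ft (Cw d ++ mw (p ++ [false])) ν m y = f at *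
  generalize ft (Cw d ++ mw (p ++ [false])) ν m' y = f' at *
  rw [hE]
  have e1 : (y : ℂ) ^ (2 * ((m' : ℤ) - m)) * (y : ℂ) ^ (-(2 * (ν : ℤ) + 2 - 2 * m)) =
      (y : ℂ) ^ (-(2 * (ν : ℤ) + 2 - 2 * m')) := z2 hv (by ring)
  have e2 : (y : ℂ) ^ (E2 d P ν m' - (2 * (ν : ℤ) + 2 - 2 * m')) =
      (y : ℂ) ^ (-(2 * (ν : ℤ) + 2 - 2 * m')) * (y : ℂ) ^ (E2 d P ν m') := by
    rw [z2 hv]; ring
  rw [e2, ← mul_assoc, e1]
  linear_combination (y : ℂ) ^ (-(2 * (ν : ℤ) + 2 - 2 * m')) * hs

theorem tie_at (d : ℤ) (p : List Bool)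
    (h3 : (permL (Cw d ++ mw (p ++ [false]))).IsThreeCycle) (P Q : ℕ)
    (hP : (p ++ [false]).count true = P) (hQ : (p ++ [false]).count false = Q)
    (hQ1 : 1 ≤ Q) (hd : d ≤ -1) (hc : -3 * d < (P : ℤ)) (hodd : Odd P) (hp : p ≠ [])
    (htf : 1 ≤ tf (p ++ [false]))
    (α C1 C2 : ℝ) (ν : ℕ) (hν : 1 ≤ ν)
    (H1 : ∀ m, m ≤ 3 * ν / 2 → (ν : ℝ) * (6 * d + P - Q) + (ee d P Q ν m : ℤ) - 1 ≤
        α * ((ν : ℝ) + 1) ^ 2 + C1)
    (H2 : ∃ m, m ≤ 3 * ν / 2 ∧ α * ((ν : ℝ) + 1) ^ 2 - C2 * ((ν : ℝ) + 1) ≤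
        (ν : ℝ) * (6 * d + P - Q) + (ee d P Q ν m : ℤ) - 1)
    (s : ℕ) (hs : (P + 2 * d) * (s : ℤ) = (P + 3 * d) * ν - 1) :
    GoodAt (Cw d ++ mw (p ++ [false])) α C1 (C2 + 2) ν := by
  have hS2 : 2 ≤ (P : ℤ) + 2 * d := by omega
  have hsν : s < ν := by
    by_contra h
    have h1 : (ν : ℤ) ≤ s := by exact_mod_cast not_lt.1 h
    have h2 : ((P : ℤ) + 2 * d) * ν ≤ (P + 2 * d) * (s : ℤ) :=
      mul_le_mul_of_nonneg_left h1 (by omega)
    have h4 : 0 ≤ (-d) * (ν : ℤ) := mul_nonneg (by omega) (Int.natCast_nonneg ν)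
    nlinarith
  have hs1 : (ν : ℤ) + 1 ≤ ((P : ℤ) + 2 * d) * (s + 1) := by
    have h1 : 1 * (ν : ℤ) ≤ ((P : ℤ) + 3 * d) * ν :=
      mul_le_mul_of_nonneg_right (by omega) (Int.natCast_nonneg ν)
    nlinarith
  -- values
  have val1 : ∀ t : ℤ, E2 d P ν (s - t) = E2 d P ν s - (P + 2 * d) * t * (t + 1) := by
    intro t
    have := E2_diff d P ν (s - t) t
    have e : (s : ℤ) - t + t = s := by ring
    rw [e] at this
    linear_combination -this + 2 * t * hs
  have val2 : ∀ t : ℤ, E2 d P ν (s + 1 + t) = E2 d P ν s - (P + 2 * d) * t * (t + 1) := by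
    intro t
    have := E2_diff d P ν s (t + 1)
    have e : (s : ℤ) + (t + 1) = s + 1 + t := by ring
    rw [e] at this
    linear_combination this - 2 * (t + 1) * hs
  have hle : ∀ m : ℕ, m ≤ ν → E2 d P ν m ≤ E2 d P ν s := by
    intro m hm
    rcases Nat.lt_or_ge s m with h | h
    · have h1 := val2 ((m : ℤ) - s - 1)
      have e : (s : ℤ) + 1 + ((m : ℤ) - s - 1) = m := by ring
      rw [e] at h1
      rw [h1]
      have : 0 ≤ ((P : ℤ) + 2 * d) * ((m : ℤ) - s - 1) * ((m : ℤ) - s - 1 + 1) :=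
        mul_nonneg (mul_nonneg (by omega) (by omega)) (by omega)
      linarith
    · have h1 := val1 ((s : ℤ) - m)
      have e : (s : ℤ) - ((s : ℤ) - m) = m := by ring
      rw [e] at h1
      rw [h1]
      have : 0 ≤ ((P : ℤ) + 2 * d) * ((s : ℤ) - m) * ((s : ℤ) - m + 1) :=
        mul_nonneg (mul_nonneg (by omega) (by omega)) (by omega)
      linarith
  have hhigh : ∀ m : ℕ, ν < m → m ≤ 3 * ν / 2 → ee d P Q ν m + 2 * ν < E2 d P ν s := by
    intro m h1 h2
    obtain ⟨M, rfl⟩ : ∃ M, m = ν + M := ⟨m - ν, by omega⟩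
    have h3 := ee_high_lt hd P Q (ν := ν) (M := M) (by omega) (by omega) hQ1
    have h4 := hle ν le_rfl
    rw [ee_low d P Q ν ν le_rfl] at h3
    linarith
  -- the paired sum
  let Pd : ℕ → Prop := fun m => m ≤ ν ∧ m ≤ 2 * s + 1 ∧ 2 * s + 1 - m ≤ ν
  have hdec : DecidablePred Pd := fun m => by unfold Pd; infer_instance
  let f : ℕ → ℝ → ℂ := ft (Cw d ++ mw (p ++ [false])) ν
  let τ : ℕ → ℕ := fun m => if Pd m then 2 * s + 1 - m else m
  have hτr : ∀ m, m ∈ range (3 * ν / 2 + 1) → τ m ∈ range (3 * ν / 2 + 1) := by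
    intro m hm
    rw [mem_range] at hm ⊢
    simp only [τ]
    split_ifs with h
    · have := h.2.2; omega
    · exact hm
  have hττ : ∀ m, τ (τ m) = m := by
    intro m
    by_cases h : Pd m
    · have h2 : Pd (2 * s + 1 - m) := by
        refine ⟨h.2.2, by omega, ?_⟩
        have := h.1; have := h.2.1; omega
      have e1 : τ m = 2 * s + 1 - m := by simp only [τ]; rw [if_pos h]
      rw [e1]
      simp only [τ]
      rw [if_pos h2]
      have := h.2.1; omega
    · have e1 : τ m = m := by simp only [τ]; rw [if_neg h]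
      rw [e1, e1]
  have hsum : ∀ y : ℝ, ∑ m ∈ range (3 * ν / 2 + 1), (f m y + f (τ m) y) =
      2 * ∑ m ∈ range (3 * ν / 2 + 1), f m y := by
    intro y
    rw [sum_add_distrib]
    have : ∑ m ∈ range (3 * ν / 2 + 1), f (τ m) y = ∑ m ∈ range (3 * ν / 2 + 1), f m y :=
      Finset.sum_nbij' τ τ hτr hτr (fun m _ => hττ m) (fun m _ => hττ m) (fun m _ => rfl)
    rw [this]; ring
  let e2 : ℕ → ℤ := fun m => if Pd m then
    E2 d P ν m - (2 * (ν : ℤ) + 2 - 2 * (max m (2 * s + 1 - m) : ℕ)) else ee d P Q ν m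
  let c2 : ℕ → ℂ := fun m => if Pd m then
    (-1) ^ (max m (2 * s + 1 - m) * P) * ((tf (p ++ [false]) : ℕ) : ℂ) else 2 * cc P ν m
  have hsym : ∀ m, Pd m → E2 d P ν m = E2 d P ν ((2 * s + 1 - m : ℕ) : ℤ) := by
    intro m h
    have c : ((2 * s + 1 - m : ℕ) : ℤ) = s + 1 + ((s : ℤ) - m) := by have := h.2.1; omega
    rw [c, val2, ← val1]
    congr 1; ring
  have hpar : ∀ m, Pd m → (-1 : ℂ) ^ (m * P) + (-1) ^ ((2 * s + 1 - m) * P) = 0 := by
    intro m h
    have h1 := h.2.1
    have e : (2 * s + 1 - m) * P + m * P = (2 * s + 1) * P := by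
      rw [← Nat.add_mul]; congr 1; omega
    have h2 : Odd ((2 * s + 1) * P) := (odd_two_mul_add_one s).mul hodd
    have h4 : (-1 : ℂ) ^ ((2 * s + 1 - m) * P) * (-1) ^ (m * P) = -1 := by
      rw [← pow_add, e, h2.neg_one_pow]
    have h5 : (-1 : ℂ) ^ (m * P) * (-1) ^ (m * P) = 1 := by rw [← mul_pow]; simp
    have h6 : (-1 : ℂ) ^ (m * P) ≠ 0 := pow_ne_zero _ (by norm_num)
    apply mul_right_cancel₀ h6
    linear_combination h4 + h5
  have hlim : ∀ m ∈ range (3 * ν / 2 + 1), Tendsto (fun y : ℝ => (y : ℂ) ^ (e2 m) *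
      (f m y + f (τ m) y)) l0 (𝓝 (c2 m)) := by
    intro m hm
    by_cases h : Pd m
    · have eτ : τ m = 2 * s + 1 - m := by simp only [τ]; rw [if_pos h]
      simp only [e2, c2]
      rw [if_pos h, if_pos h, eτ]
      have h1 := h.1
      have h2 := h.2.1
      have h4 := h.2.2
      have hsy := hsym m h
      have hpa := hpar m h
      rcases Nat.lt_or_ge m (2 * s + 1 - m) with h5 | h5
      · rw [max_eq_right h5.le]
        have := pair_lim d p hp ν m (2 * s + 1 - m) hν h1 h4 h5 (by rw [hP]; exact hsy)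
          (by rw [hP]; exact hpa)
        rw [hP, ← hsy] at this
        exact this
      · have h6 : 2 * s + 1 - m < m := by omega
        rw [max_eq_left h5]
        have := pair_lim d p hp ν (2 * s + 1 - m) m hν h4 h1 h6 (by rw [hP]; exact hsy.symm)
          (by rw [hP, add_comm]; exact hpa)
        rw [hP] at this
        refine (tendsto_congr fun y => ?_).1 this
        simp only [f]
        ring
    · have eτ : τ m = m := by simp only [τ]; rw [if_neg h]
      simp only [e2, c2]
      rw [if_neg h, if_neg h, eτ]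
      have h4 := (ee_lim d p h3 ν m hm).const_mul 2
      rw [hP, hQ] at h4
      refine (tendsto_congr fun y => ?_).1 h4
      simp only [f]
      ring
  set E' : ℤ := E2 d P ν s - 2 * ((ν : ℤ) - s) with hE'
  have hPds : Pd s := ⟨hsν.le, by omega, by omega⟩
  have hPds1 : Pd (s + 1) := ⟨hsν, by omega, by omega⟩
  have hcmp : ∀ m ∈ range (3 * ν / 2 + 1), e2 m ≤ E' ∧ (e2 m = E' → m = s ∨ m = s + 1) := by
    intro m hm
    rw [mem_range] at hm
    by_cases h : Pd m
    · have h1 := h.1
      have h2 := h.2.1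
      have h4 := h.2.2
      simp only [e2]
      rw [if_pos h]
      rcases Nat.lt_or_ge s m with h5 | h5
      · have em : max m (2 * s + 1 - m) = m := max_eq_left (by omega)
        rw [em]
        obtain ⟨t, ht⟩ : ∃ t : ℕ, m = s + 1 + t := ⟨m - s - 1, by omega⟩
        have hv := val2 t
        have e : (s : ℤ) + 1 + t = m := by rw [ht]; push_cast; ring
        rw [e] at hv
        rw [hv, hE']
        have ht0 : (0 : ℤ) ≤ t := Int.natCast_nonneg t
        have hmt : (m : ℤ) = s + 1 + t := e.symm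
        have h6 : 0 ≤ (t : ℤ) * (((P : ℤ) + 2 * d) * (t + 1) - 2) := by
          apply mul_nonneg ht0
          nlinarith
        constructor
        · rw [hmt]; nlinarith
        · intro h7
          right
          rw [hmt] at h7
          have h8 : (t : ℤ) * (((P : ℤ) + 2 * d) * (t + 1) - 2) = 0 := by linarith
          rcases mul_eq_zero.1 h8 with h9 | h9
          · omega
          · have : t = 0 := by
              by_contra hne
              have : (1 : ℤ) ≤ t := by omega
              nlinarith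
            omega
      · have em : max m (2 * s + 1 - m) = 2 * s + 1 - m := max_eq_right (by omega)
        rw [em]
        obtain ⟨t, ht⟩ : ∃ t : ℕ, m + t = s := ⟨s - m, by omega⟩
        have hv := val1 t
        have e : (s : ℤ) - t = m := by omega
        rw [e] at hv
        rw [hv, hE']
        have ht0 : (0 : ℤ) ≤ t := Int.natCast_nonneg t
        have hc1 : ((2 * s + 1 - m : ℕ) : ℤ) = s + 1 + t := by omega
        rw [hc1]
        have h6 : 0 ≤ (t : ℤ) * (((P : ℤ) + 2 * d) * (t + 1) - 2) := by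
          apply mul_nonneg ht0
          nlinarith
        constructor
        · nlinarith
        · intro h7
          left
          have h8 : (t : ℤ) * (((P : ℤ) + 2 * d) * (t + 1) - 2) = 0 := by linarith
          rcases mul_eq_zero.1 h8 with h9 | h9
          · omega
          · have : t = 0 := by
              by_contra hne
              have : (1 : ℤ) ≤ t := by omega
              nlinarith
            omega
    · simp only [e2]
      rw [if_neg h]
      have hstrict : ee d P Q ν m < E' := by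
        rcases Nat.lt_or_ge ν m with h1 | h1
        · have := hhigh m h1 (by omega)
          rw [hE']
          have : (0 : ℤ) ≤ s := Int.natCast_nonneg s
          linarith
        · rw [ee_low _ _ _ _ _ h1, hE']
          rcases Nat.lt_or_ge (2 * s + 1) m with h5 | h5
          · obtain ⟨t, ht⟩ : ∃ t : ℕ, m = s + 1 + t := ⟨m - s - 1, by omega⟩
            have hv := val2 t
            have e : (s : ℤ) + 1 + t = m := by rw [ht]; push_cast; ring
            rw [e] at hv
            rw [hv]
            have ht1 : (s : ℤ) + 1 ≤ t := by omega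
            have hs0 : (0 : ℤ) ≤ s := Int.natCast_nonneg s
            have h6 : ((P : ℤ) + 2 * d) * (s + 1) ≤ ((P : ℤ) + 2 * d) * t :=
              mul_le_mul_of_nonneg_left ht1 (by omega)
            have h7 : ((ν : ℤ) + 1) * 2 ≤ ((P : ℤ) + 2 * d) * t * (t + 1) := by
              apply mul_le_mul (by linarith) (by linarith) (by norm_num)
              exact mul_nonneg (by omega) (by omega)
            linarith
          · have h6 : ν < 2 * s + 1 - m := by
              by_contra h7
              exact h ⟨h1, h5, by omega⟩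
            obtain ⟨t, ht⟩ : ∃ t : ℕ, m + t = s := ⟨s - m, by omega⟩
            have hv := val1 t
            have e : (s : ℤ) - t = m := by omega
            rw [e] at hv
            rw [hv]
            have ht1 : (ν : ℤ) - s ≤ t := by omega
            have ht2 : (1 : ℤ) ≤ (ν : ℤ) - s := by omega
            have h7 : 2 * ((ν : ℤ) - s) ≤ ((P : ℤ) + 2 * d) * t :=
              mul_le_mul hS2 ht1 (by omega) (by omega)
            have h8 : 2 * ((ν : ℤ) - s) * 2 ≤ ((P : ℤ) + 2 * d) * t * (t + 1) := by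
              apply mul_le_mul h7 (by omega) (by norm_num)
              exact mul_nonneg (by omega) (by omega)
            linarith
      exact ⟨hstrict.le, fun h9 => absurd h9 hstrict.ne⟩
  have hes : e2 s = E' := by
    simp only [e2]
    have em : max s (2 * s + 1 - s) = s + 1 := by omega
    rw [if_pos hPds, em, hE']
    push_cast; ring
  have hes1 : e2 (s + 1) = E' := by
    simp only [e2]
    have em : max (s + 1) (2 * s + 1 - (s + 1)) = s + 1 := by omega
    have hv := val2 0
    have e : ((s + 1 : ℕ) : ℤ) = (s : ℤ) + 1 + 0 := by push_cast; ring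
    rw [if_pos hPds1, em, hE', e, hv]
    ring
  have hcs : c2 s = (-1) ^ ((s + 1) * P) * ((tf (p ++ [false]) : ℕ) : ℂ) := by
    simp only [c2]
    have em : max s (2 * s + 1 - s) = s + 1 := by omega
    rw [if_pos hPds, em]
  have hcs1 : c2 (s + 1) = (-1) ^ ((s + 1) * P) * ((tf (p ++ [false]) : ℕ) : ℂ) := by
    simp only [c2]
    have em : max (s + 1) (2 * s + 1 - (s + 1)) = s + 1 := by omega
    rw [if_pos hPds1, em]
  have hfin := sum_lim (range (3 * ν / 2 + 1)) (fun m y => f m y + f (τ m) y) e2 c2 E' hlim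
    (fun m hm => (hcmp m hm).1)
  have hval : ∑ m ∈ range (3 * ν / 2 + 1), (if e2 m = E' then c2 m else 0) =
      2 * ((-1) ^ ((s + 1) * P) * ((tf (p ++ [false]) : ℕ) : ℂ)) := by
    have hsub : ({s, s + 1} : Finset ℕ) ⊆ range (3 * ν / 2 + 1) := by
      intro x hx
      rw [mem_insert, mem_singleton] at hx
      rw [mem_range]
      omega
    rw [← Finset.sum_subset hsub]
    · rw [Finset.sum_pair (by omega), if_pos hes, if_pos hes1, hcs, hcs1]
      ring
    · intro x hx hx2
      rw [if_neg]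
      intro h
      rcases (hcmp x hx).2 h with h1 | h1 <;> subst h1 <;> simp at hx2
  rw [hval] at hfin
  refine ⟨E', (-1) ^ ((s + 1) * P) * ((tf (p ++ [false]) : ℕ) : ℂ), ?_, ?_, ?_, ?_⟩
  · refine mul_ne_zero (pow_ne_zero _ (by norm_num)) ?_
    exact_mod_cast (by omega : tf (p ++ [false]) ≠ 0)
  · have h4 := hfin.const_mul (1 / 2)
    have e : (1 / 2 : ℂ) * (2 * ((-1) ^ ((s + 1) * P) * ((tf (p ++ [false]) : ℕ) : ℂ))) =
        (-1) ^ ((s + 1) * P) * ((tf (p ++ [false]) : ℕ) : ℂ) := by ring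
    rw [e] at h4
    refine (tendsto_congr fun y => ?_).1 h4
    rw [hsum y]
    simp only [f]
    ring
  · rw [wr_real d p P Q hP hQ]
    obtain ⟨m0, hm0, H2⟩ := H2
    have h4 : ee d P Q ν m0 ≤ E2 d P ν s := by
      rcases Nat.lt_or_ge ν m0 with h1 | h1
      · have := hhigh m0 h1 hm0
        have : (0 : ℤ) ≤ ν := Int.natCast_nonneg ν
        linarith
      · rw [ee_low _ _ _ _ _ h1]
        exact hle m0 h1
    have h5 : ee d P Q ν m0 - 2 * ν ≤ E' := by
      rw [hE']
      have : (0 : ℤ) ≤ s := Int.natCast_nonneg s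
      linarith
    have h6 : (ee d P Q ν m0 : ℝ) - 2 * ν ≤ (E' : ℝ) := by exact_mod_cast h5
    linarith
  · rw [wr_real d p P Q hP hQ]
    have h4 := H1 s (by omega)
    rw [ee_low _ _ _ _ _ hsν.le] at h4
    have h5 : E' ≤ E2 d P ν s := by rw [hE']; omega
    have h6 : (E' : ℝ) ≤ (E2 d P ν s : ℝ) := by exact_mod_cast h5
    linarith

theorem good4 (d : ℤ) (p : List Bool)
    (h3 : (permL (Cw d ++ mw (p ++ [false]))).IsThreeCycle) (P Q : ℕ)
    (hP : (p ++ [false]).count true = P) (hQ : (p ++ [false]).count false = Q)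
    (hQ1 : 1 ≤ Q) (hd : d ≤ -1) (hc : -3 * d < (P : ℤ)) :
    Good (Cw d ++ mw (p ++ [false])) := by
  obtain ⟨α, C1, C2, H⟩ := int_bounds d P Q hd hc hQ1
  have hP1 : 0 < (p ++ [false]).count true := by rw [hP]; omega
  have htp : true ∈ p := by
    have h := List.count_pos_iff.1 hP1
    rw [List.mem_append] at h
    rcases h with h | h
    · exact h
    · simp at h
  have hp : p ≠ [] := by
    intro h; rw [h] at htp; simp at htp
  refine good_of_at _ α C1 (C2 + 2) 1 fun ν hν => ?_
  obtain ⟨H1, H2⟩ := H ν hν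
  have H2' : ∃ m, m ≤ 3 * ν / 2 ∧ α * ((ν : ℝ) + 1) ^ 2 - (C2 + 2) * ((ν : ℝ) + 1) ≤
        (ν : ℝ) * (6 * d + P - Q) + (ee d P Q ν m : ℤ) - 1 := by
    obtain ⟨m, hm, h⟩ := H2
    refine ⟨m, hm, ?_⟩
    have : (0 : ℝ) ≤ ν := Nat.cast_nonneg ν
    linarith
  rcases Nat.even_or_odd P with hev | hodd
  · exact at_of_max d p h3 P Q hP hQ α C1 (C2 + 2) ν H1 H2'
      ⟨-1, by norm_num, fun m _ _ => cc_even hev ν m⟩
  · by_cases htie : ∃ s : ℕ, (P + 2 * d) * (s : ℤ) = (P + 3 * d) * ν - 1
    · obtain ⟨s, hs⟩ := htie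
      exact tie_at d p h3 P Q hP hQ hQ1 hd hc hodd hp (tf_pos p htp) α C1 C2 ν hν H1 H2 s hs
    · -- the maximum is attained once
      obtain ⟨m1, hm1, hmax⟩ := Finset.exists_max_image (range (3 * ν / 2 + 1))
        (ee d P Q ν) ⟨0, by simp⟩
      have huniq : ∀ m m', m ≤ 3 * ν / 2 → m' ≤ 3 * ν / 2 → m < m' →
          (∀ k, k ≤ 3 * ν / 2 → ee d P Q ν k ≤ ee d P Q ν m) →
          (∀ k, k ≤ 3 * ν / 2 → ee d P Q ν k ≤ ee d P Q ν m') → False := by
        intro m m' h1 h2 hlt ha hb
        have hm'ν : m' ≤ ν := by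
          by_contra h
          obtain ⟨M, rfl⟩ : ∃ M, m' = ν + M := ⟨m' - ν, by omega⟩
          have h4 := ee_high_lt hd P Q (ν := ν) (M := M) (by omega) (by omega) hQ1
          have h5 := hb ν (by omega)
          omega
        obtain ⟨t, rfl⟩ : ∃ t, m' = m + t := ⟨m' - m, by omega⟩
        have heq : ee d P Q ν (m + t) = ee d P Q ν m := le_antisymm (ha _ h2) (hb _ h1)
        rw [ee_low _ _ _ _ _ hm'ν, ee_low _ _ _ _ _ (by omega)] at heq
        have h6 := E2_diff d P ν m t
        have h7 : (t : ℤ) * (2 * ((P + 3 * d) * ν - 1) - (P + 2 * d) * (2 * m + t - 1)) = 0 := by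
          rw [← h6]
          push_cast at heq
          linarith
        have ht : (t : ℤ) ≠ 0 := by omega
        have h8 := (mul_eq_zero.1 h7).resolve_left ht
        rcases Nat.lt_or_ge t 2 with h9 | h9
        · have : t = 1 := by omega
          subst this
          apply htie
          refine ⟨m, ?_⟩
          push_cast at h8
          linarith
        · -- then m + 1 is larger
          have h10 := ha (m + 1) (by omega)
          rw [ee_low _ _ _ _ _ (by omega), ee_low _ _ _ _ _ (by omega)] at h10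
          have h11 := E2_diff d P ν m 1
          have h12 : (P + 2 * d) * ((t : ℤ) - 1) ≤ 0 := by
            push_cast at h10
            linarith
          have h13 : 0 < (P + 2 * d) * ((t : ℤ) - 1) := mul_pos (by omega) (by omega)
          linarith
      rw [mem_range] at hm1
      refine at_of_max d p h3 P Q hP hQ α C1 (C2 + 2) ν H1 H2' ⟨cc P ν m1, ?_, ?_⟩
      · unfold cc
        split_ifs
        · exact neg1_ne _
        · exact neg1_ne _
      · intro m hm hmm
        have hmm1 : ∀ k, k ≤ 3 * ν / 2 → ee d P Q ν k ≤ ee d P Q ν m1 := fun k hk =>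
          hmax k (by rw [mem_range]; omega)
        rcases lt_trichotomy m m1 with h | h | h
        · exact (huniq m m1 hm (by omega) h hmm hmm1).elim
        · rw [h]
        · exact (huniq m1 m (by omega) hm h hmm1 hmm).elim

end Pool.Agent.Run7.h760
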