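import Pool.Agent.Run7.h760.GJ
import Pool.Agent.Run7.h760.Case1
import Pool.Agent.Run7.h760.Tie

/-! All closed 3-braids which are knots. -/

set_option autoImplicit false

namespace Pool.Agent.Run7.h760

open Finset Matrix Filter Topology
open Pool.Agent.Y481.CC (Lt permL wr enc)

theorem C_comm_ev (w : List Lt) : Commute (Cl.C gs gt) (Cl.ev gs gt w) := by
  have h1 := Cl.C_s gs gt g_braid
  have h2 := Cl.C_t gs gt g_braid
  induction w with
  | nil => exact Commute.one_right _
  | cons g w ih =>
    rw [Cl.ev_cons]
    refine Commute.mul_right ?_ ih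
    obtain ⟨c, d⟩ := g
    cases c <;> cases d
    · exact h1.inv_right
    · exact h1
    · exact h2.inv_right
    · exact h2

theorem rel_Cw_rot (d : ℤ) (A B : List Lt) : Rel3 (Cw d ++ (A ++ B)) (Cw d ++ (B ++ A)) := by
  apply conj_rel
  rw [Cl.ev_append, Cl.ev_append, Cl.ev_append, Cl.ev_append, ev_Cw, isConj_iff]
  refine ⟨Cl.ev gs gt B, ?_⟩
  have h := ((C_comm_ev B).zpow_left d).eq
  rw [mul_inv_eq_iff_eq_mul, ← mul_assoc, ← h]
  simp only [mul_assoc]

theorem three_fix {σ : Equiv.Perm (Fin 3)} (h : σ.IsThreeCycle) (i : Fin 3) : σ i ≠ i := by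
  have h1 : σ.support = Finset.univ := by
    rw [← Finset.card_eq_iff_eq_univ, h.card_support]
    simp
  have h2 : i ∈ σ.support := by rw [h1]; exact mem_univ i
  exact Equiv.Perm.mem_support.1 h2

theorem perm_true (u : List Bool) (h : false ∉ u) : permL (mw u) 2 = 2 := by
  induction u with
  | nil => rfl
  | cons a u ih =>
    have ha : a = true := by
      cases a
      · exact absurd List.mem_cons_self h
      · rfl
    subst ha
    have e : mw (true :: u) = (false, true) :: mw u := by simp [mw]
    rw [e, permL_cons, Equiv.Perm.mul_apply, ih fun h' => h (List.mem_cons_of_mem _ h')]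
    decide

theorem perm_false (u : List Bool) (h : true ∉ u) : permL (mw u) 0 = 0 := by
  induction u with
  | nil => rfl
  | cons a u ih =>
    have ha : a = false := by
      cases a
      · rfl
      · exact absurd List.mem_cons_self h
    subst ha
    have e : mw (false :: u) = (true, false) :: mw u := by simp [mw]
    rw [e, permL_cons, Equiv.Perm.mul_apply, ih fun h' => h (List.mem_cons_of_mem _ h')]
    decide

theorem Cw_zero : Cw 0 = [] := by simp [Cw]

theorem ev_false (n : ℕ) : Cl.ev gs gt (mw (List.replicate n false)) = gt⁻¹ ^ n := by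
  induction n with
  | zero => simp [Cl.ev, mw]
  | succ n ih =>
    have e : mw (List.replicate (n + 1) false) = (true, false) :: mw (List.replicate n false) := by
      simp [mw, List.replicate_succ]
    rw [e, Cl.ev_cons, ih, pow_succ']
    rfl

theorem ev_srep (n : ℕ) : Cl.ev gs gt (List.replicate n (false, false)) = gs⁻¹ ^ n := by
  induction n with
  | zero => simp [Cl.ev]
  | succ n ih => rw [List.replicate_succ, Cl.ev_cons, ih, pow_succ']; rfl

theorem count_zero_rep (p : List Bool) (h : p.count true = 0) : p = List.replicate p.length false := by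
  rw [List.eq_replicate_iff]
  refine ⟨rfl, fun b hb => ?_⟩
  cases b
  · rfl
  · exact absurd (List.count_pos_iff.2 hb) (by omega)

/-- the exceptional words `s_1 s_2^{-Q}` -/
theorem special (w : List Lt) (hw : (permL w).IsThreeCycle) (p : List Bool)
    (hP : (p ++ [false]).count true = 1) (hr : Rel3 w (mw (p ++ [false]))) :
    GoodJ w ∨ Rel3 w [(false, true), (true, false)] := by
  set Q : ℕ := (p ++ [false]).count false with hQ
  have hev : Even (wr w) := wr_even w hw
  rw [wr_rel hr, wr_mw, hP, ← hQ] at hev
  have hQodd : Q % 2 = 1 := by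
    obtain ⟨r, hr⟩ := hev
    omega
  have hp1 : p.count true = 1 := by
    rw [List.count_append] at hP
    simpa using hP
  have htp : true ∈ p := List.count_pos_iff.1 (by omega)
  obtain ⟨p1, p2, hp⟩ := List.append_of_mem htp
  have hc : p1.count true = 0 ∧ p2.count true = 0 := by
    rw [hp, List.count_append, List.count_cons_self] at hp1
    omega
  have e1 := count_zero_rep p1 hc.1
  have e2 := count_zero_rep p2 hc.2
  have hQ2 : Q = p1.length + p2.length + 1 := by
    rw [hQ, hp, e1, e2]
    simp [List.count_append, List.count_replicate]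
    omega
  have hevw : Cl.ev gs gt (mw (p ++ [false])) =
      gt⁻¹ ^ p1.length * (gs * gt⁻¹ ^ (p2.length + 1)) := by
    have e3 : mw (p ++ [false]) = mw (List.replicate p1.length false) ++
        ((false, true) :: mw (List.replicate (p2.length + 1) false)) := by
      rw [hp]
      conv_lhs => rw [e1, e2]
      simp [mw, List.replicate_succ']
    rw [e3, Cl.ev_append, Cl.ev_cons, ev_false, ev_false]
    rfl
  have hinv : ∀ n : ℕ, gt⁻¹ ^ n = gt ^ (-(n : ℤ)) := by
    intro n; rw [_root_.zpow_neg, zpow_natCast, inv_pow]
  have hinvs : ∀ n : ℕ, gs⁻¹ ^ n = gs ^ (-(n : ℤ)) := by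
    intro n; rw [_root_.zpow_neg, zpow_natCast, inv_pow]
  have c1 : IsConj (Cl.ev gs gt (mw (p ++ [false]))) (gs * gt ^ (-(Q : ℤ))) := by
    rw [hevw]
    refine (Cl.conj_comm _ _).trans ?_
    rw [mul_assoc, hinv, hinv, ← _root_.zpow_add]
    have : -((p2.length + 1 : ℕ) : ℤ) + -(p1.length : ℤ) = -(Q : ℤ) := by
      rw [hQ2]; push_cast; ring
    rw [this]
    exact IsConj.refl _
  rcases Nat.lt_or_ge Q 2 with hlt | hge
  · right
    have hQ1 : Q = 1 := by omega
    refine hr.trans (conj_rel ?_)
    rw [hQ1] at c1
    have e4 : Cl.ev gs gt [(false, true), (true, false)] = gs * gt ^ (-((1 : ℕ) : ℤ)) := by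
      simp [Cl.ev, Cl.lt]
    rw [e4]
    exact c1
  · left
    have hQ3 : 3 ≤ Q := by omega
    -- `s^{-Q} t`
    have r1 : Rel3 w (List.replicate Q (false, false) ++ [(true, true)]) := by
      refine hr.trans (conj_rel ?_)
      rw [Cl.ev_append, ev_srep]
      have e5 : Cl.ev gs gt [(true, true)] = gt := by simp [Cl.ev, Cl.lt]
      rw [e5, hinvs]
      exact c1.trans ((flip_conj (-(Q : ℤ))).trans (Cl.conj_comm _ _))
    have h3 := three_rel r1 hw
    refine goodJ_rel r1 hw (goodJ_stab _ ?_ ?_)
    · intro g hg
      rw [List.eq_of_mem_replicate hg]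
    · -- `s^{-Q} t^{-1}`
      have c2 : IsConj (Cl.ev gs gt (List.replicate Q (false, false) ++ [(true, false)]))
          ((Cl.C gs gt)⁻¹ * (gs * gt ^ (4 - (Q : ℤ)))) := by
        rw [Cl.ev_append, ev_srep]
        have e5 : Cl.ev gs gt [(true, false)] = gt⁻¹ := by simp [Cl.ev, Cl.lt]
        rw [e5, hinvs]
        exact (Cl.conj_comm _ _).trans ((flip_conj' (-(Q : ℤ))).symm.trans (spec_conj Q))
      have h4 : (permL (List.replicate Q (false, false) ++ [(true, false)])).IsThreeCycle := by
        have : permL (List.replicate Q (false, false) ++ [(true, false)]) =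
            permL (List.replicate Q (false, false) ++ [(true, true)]) := by
          rw [permL_append, permL_append, permL_cons, permL_cons]
        rw [this]; exact h3
      rcases Nat.lt_or_ge Q 4 with h5 | h5
      · have hQ' : Q = 3 := by omega
        have r2 : Rel3 (List.replicate Q (false, false) ++ [(true, false)]) (Cw (-1) ++ xw) := by
          apply conj_rel
          have e6 : Cl.ev gs gt (Cw (-1) ++ xw) =
              (Cl.C gs gt)⁻¹ * (gs * gt ^ (4 - (Q : ℤ))) := by
            rw [Cl.ev_append, ev_Cw, hQ']
            simp [Cl.ev, xw, Cl.lt]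
          rw [e6]; exact c2
        exact goodJ_rel r2 h4 (goodJ (three_rel r2 h4) (good_tor_neg tor_xw (-1) (by norm_num)))
      · have hQ' : 5 ≤ Q := by omega
        obtain ⟨n, hn⟩ : ∃ n, Q = n + 5 := ⟨Q - 5, by omega⟩
        have r2 : Rel3 (List.replicate Q (false, false) ++ [(true, false)])
            (Cw (-1) ++ mw ((true :: List.replicate n false) ++ [false])) := by
          apply conj_rel
          have e6 : Cl.ev gs gt (Cw (-1) ++ mw ((true :: List.replicate n false) ++ [false])) =
              (Cl.C gs gt)⁻¹ * (gs * gt ^ (4 - (Q : ℤ))) := by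
            have e7 : mw ((true :: List.replicate n false) ++ [false]) =
                (false, true) :: mw (List.replicate (n + 1) false) := by
              simp [mw, List.replicate_succ']
            rw [Cl.ev_append, ev_Cw, e7, Cl.ev_cons, ev_false, hinv, _root_.zpow_neg_one, hn]
            have e8 : (4 : ℤ) - ((n + 5 : ℕ) : ℤ) = -((n + 1 : ℕ) : ℤ) := by push_cast; ring
            rw [e8]
            rfl
          rw [e6]; exact c2
        have h6 := three_rel r2 h4
        have hcP : ((true :: List.replicate n false) ++ [false]).count true = 1 := by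
          simp [List.count_append, List.count_replicate]
        refine goodJ_rel r2 h4 (goodJ h6 (good3 (-1) _ h6 1 _ hcP rfl (by norm_num) (by norm_num)))

/-- **all closed 3-braids which are knots** -/
theorem main3 (w : List Lt) (hw : (permL w).IsThreeCycle) :
    GoodJ w ∨ Rel3 w xw ∨ Rel3 w xi ∨ Rel3 w [(false, true), (true, false)] := by
  obtain ⟨d, nf, hnf, hr⟩ := word_class w
  have h3 := three_rel hr hw
  rcases hnf with h | h | h | ⟨u, h⟩
  · -- torus
    have hx : nf = xw := h
    rw [hx] at hr h3
    rcases lt_trichotomy d 0 with hd | hd | hd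
    · left
      exact goodJ_rel hr hw (goodJ h3 (good_tor_neg tor_xw d (by omega)))
    · right; left
      rw [hd, Cw_zero, List.nil_append] at hr
      exact hr
    · left
      exact goodJ_rel hr hw (goodJ h3 (good_tor_pos tor_xw d (by omega)))
  · have hx : nf = xi := h
    rw [hx] at hr h3
    rcases lt_trichotomy d 0 with hd | hd | hd
    · left
      exact goodJ_rel hr hw (goodJ h3 (good_tor_neg tor_xi d (by omega)))
    · right; right; left
      rw [hd, Cw_zero, List.nil_append] at hr
      exact hr
    · left
      exact goodJ_rel hr hw (goodJ h3 (good_tor_pos tor_xi d (by omega)))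
  · exfalso
    rw [h, permL_append, perm_Cw, one_mul] at h3
    exact three_fix h3 1 (by decide)
  · have hx : nf = mw u := h
    rw [hx] at hr h3
    have hpm := h3
    rw [permL_append, perm_Cw, one_mul] at hpm
    have hF : false ∈ u := by
      by_contra hf
      exact three_fix hpm 2 (perm_true u hf)
    have hT : true ∈ u := by
      by_contra ht
      exact three_fix hpm 0 (perm_false u ht)
    obtain ⟨u1, u2, hu⟩ := List.append_of_mem hF
    set p : List Bool := u2 ++ u1 with hp
    have hrot : Rel3 (Cw d ++ mw u) (Cw d ++ mw (p ++ [false])) := by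
      have := rel_Cw_rot d (mw (u1 ++ [false])) (mw u2)
      have e1 : mw (u1 ++ [false]) ++ mw u2 = mw u := by
        rw [hu]; simp [mw]
      have e2 : mw u2 ++ mw (u1 ++ [false]) = mw (p ++ [false]) := by
        rw [hp]; simp [mw]
      rw [e1, e2] at this
      exact this
    have hr2 := hr.trans hrot
    have h3' := three_rel hr2 hw
    have htp : true ∈ p := by
      rw [hu] at hT
      rw [hp, List.mem_append]
      rcases List.mem_append.1 hT with h1 | h1
      · exact Or.inr h1
      · rcases List.mem_cons.1 h1 with h2 | h2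
        · exact absurd h2 (by decide)
        · exact Or.inl h2
    have hP1 : 1 ≤ (p ++ [false]).count true :=
      List.count_pos_iff.2 (List.mem_append.2 (Or.inl htp))
    have hQ1 : 1 ≤ (p ++ [false]).count false :=
      List.count_pos_iff.2 (List.mem_append.2 (Or.inr List.mem_cons_self))
    rcases lt_trichotomy d 0 with hd | hd | hd
    · left
      refine goodJ_rel hr2 hw (goodJ h3' ?_)
      by_cases hc : (((p ++ [false]).count true : ℕ) : ℤ) ≤ -3 * d
      · exact good3 d p h3' _ _ rfl rfl (by omega) hc
      · exact good4 d p h3' _ _ rfl rfl hQ1 (by omega) (by omega)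
    · by_cases hc : 2 ≤ (p ++ [false]).count true
      · left
        exact goodJ_rel hr2 hw (goodJ h3' (good1 d p h3' _ _ rfl rfl hQ1 (Or.inr ⟨hd, hc⟩)))
      · rw [hd, Cw_zero, List.nil_append] at hr2
        rcases special w hw p (by omega) hr2 with h1 | h1
        · exact Or.inl h1
        · exact Or.inr (Or.inr (Or.inr h1))
    · left
      refine goodJ_rel hr2 hw (goodJ h3' ?_)
      by_cases hc : d ≤ (((p ++ [false]).count false : ℕ) : ℤ)
      · exact good1 d p h3' _ _ rfl rfl hQ1 (Or.inl ⟨by omega, hc⟩)
      · exact good2 d p h3' _ _ rfl rfl hQ1 (by omega)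

end Pool.Agent.Run7.h760
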