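import Pool.Agent.Run7.h760.Ev
import Pool.Agent.Run7.h760.Main3

/-! The degrees of the coloured Jones polynomials of closed 3-braids; Markov moves. -/

set_option autoImplicit false

namespace Pool.Agent.Run7.h760.CJ

open Finset Matrix Filter Topology
open Pool.Agent.H550R3.Jones (br brf cjones crossP crossN gen rep)
open Pool.Agent.Y467.Jw (crP crN)
open Pool.Agent.Y482.CY (B3 lv Nz)
open Pool.Agent.Y481.CC (Lt permL wr enc wop)

theorem evL_sum (v : ℂˣ) (P : LP) :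
    evL v P = ∑ k ∈ P.coeff.support, ((P.coeff k : ℤ) : ℂ) * ((v ^ k : ℂˣ) : ℂ) := by
  conv_lhs => rw [← AddMonoidAlgebra.sum_coeff_single P]
  rw [Finsupp.sum, map_sum]
  refine Finset.sum_congr rfl fun k _ => ?_
  rw [LaurentPolynomial.single_eq_C_mul_T]
  unfold evL
  rw [LaurentPolynomial.eval₂_C_mul_T]
  rfl

/-- `1 / x` as a unit -/
noncomputable def ux (x : ℝ) : ℂˣ :=
  if h : x ≠ 0 then Units.mk0 ((x : ℂ)⁻¹) (inv_ne_zero (Complex.ofReal_ne_zero.2 h)) else 1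

theorem ux_zpow {x : ℝ} (h : x ≠ 0) (k : ℤ) : ((ux x ^ k : ℂˣ) : ℂ) = (x : ℂ) ^ (-k) := by
  unfold ux
  rw [dif_pos h, Units.val_zpow_eq_zpow_val, Units.val_mk0, _root_.inv_zpow']

theorem zpow_lim {k : ℤ} (hk : 0 < k) : Tendsto (fun x : ℝ => (x : ℂ) ^ k) (𝓝[>] 0) (𝓝 0) := by
  obtain ⟨n, rfl⟩ := Int.eq_ofNat_of_zero_le hk.le
  have hn : n ≠ 0 := by omega
  have h1 : Tendsto (fun x : ℝ => (x : ℂ) ^ n) (𝓝 0) (𝓝 (((0 : ℝ) : ℂ) ^ n)) :=
    ((Complex.continuous_ofReal.pow n).tendsto 0)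
  rw [Complex.ofReal_zero, zero_pow hn] at h1
  simpa using h1.mono_left nhdsWithin_le_nhds

theorem deg_lim (P : LP) (D : ℤ) (h : P.degree = (D : WithBot ℤ)) : P.coeff D ≠ 0 ∧
    Tendsto (fun x : ℝ => (x : ℂ) ^ D * evL (ux x) P) (𝓝[>] 0) (𝓝 ((P.coeff D : ℤ) : ℂ)) := by
  have hmem : D ∈ P.coeff.support := Finset.mem_of_max h
  refine ⟨Finsupp.mem_support_iff.1 hmem, ?_⟩
  have h1 : Tendsto (fun x : ℝ => ∑ k ∈ P.coeff.support, ((P.coeff k : ℤ) : ℂ) *
      (x : ℂ) ^ (D - k)) (𝓝[>] 0)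
      (𝓝 (∑ k ∈ P.coeff.support, if k = D then ((P.coeff D : ℤ) : ℂ) else 0)) := by
    refine tendsto_finsetSum _ fun k hk => ?_
    by_cases hkD : k = D
    · subst hkD
      rw [if_pos rfl]
      simp only [sub_self, zpow_zero, mul_one]
      exact tendsto_const_nhds
    · rw [if_neg hkD]
      have hle : k ≤ D := by
        have := Finset.le_max hk
        have h' : P.coeff.support.max = (D : WithBot ℤ) := h
        rw [h'] at this
        exact WithBot.coe_le_coe.1 this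
      have := (zpow_lim (show 0 < D - k by omega)).const_mul ((P.coeff k : ℤ) : ℂ)
      rwa [mul_zero] at this
  rw [Finset.sum_ite_eq' P.coeff.support D, if_pos hmem] at h1
  refine (tendsto_congr' ?_).1 h1
  filter_upwards [self_mem_nhdsWithin] with x hx
  have hx0 : x ≠ 0 := (Set.mem_Ioi.1 hx).ne'
  have hxc : (x : ℂ) ≠ 0 := Complex.ofReal_ne_zero.2 hx0
  rw [evL_sum, Finset.mul_sum]
  refine Finset.sum_congr rfl fun k _ => ?_
  rw [ux_zpow hx0, sub_eq_add_neg, zpow_add₀ hxc]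
  ring

theorem exp_unique {f : ℝ → ℂ} {A B : ℤ} {a b : ℂ} (ha : a ≠ 0) (hb : b ≠ 0)
    (h1 : Tendsto (fun x : ℝ => (x : ℂ) ^ A * f x) (𝓝[>] 0) (𝓝 a))
    (h2 : Tendsto (fun x : ℝ => (x : ℂ) ^ B * f x) (𝓝[>] 0) (𝓝 b)) : A = B := by
  have key : ∀ (A B : ℤ) (a b : ℂ), b ≠ 0 →
      Tendsto (fun x : ℝ => (x : ℂ) ^ A * f x) (𝓝[>] 0) (𝓝 a) →
      Tendsto (fun x : ℝ => (x : ℂ) ^ B * f x) (𝓝[>] 0) (𝓝 b) → ¬ A < B := by
    intro A B a b hb h1 h2 hlt
    have h3 := (zpow_lim (show 0 < B - A by omega)).mul h1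
    rw [zero_mul] at h3
    have h4 : Tendsto (fun x : ℝ => (x : ℂ) ^ B * f x) (𝓝[>] 0) (𝓝 0) := by
      refine (tendsto_congr' ?_).1 h3
      filter_upwards [self_mem_nhdsWithin] with x hx
      have hxc : (x : ℂ) ≠ 0 := Complex.ofReal_ne_zero.2 (Set.mem_Ioi.1 hx).ne'
      rw [← mul_assoc, ← zpow_add₀ hxc]
      congr 2
      ring
    exact hb (tendsto_nhds_unique h2 h4)
  have k1 := key A B a b hb h1 h2
  have k2 := key B A b a ha h2 h1
  omega

theorem deg_main (w : Word 2) (hG : GoodJ (w.map toLt)) : ∃ (α C : ℝ) (n0 : ℕ), ∀ N : ℕ, n0 ≤ N →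
    ∀ D : ℤ, (colouredJones w N).degree = (D : WithBot ℤ) →
      α * (N : ℝ) ^ 2 - C * N ≤ (D : ℝ) / 2 ∧ (D : ℝ) / 2 ≤ α * (N : ℝ) ^ 2 + C := by
  obtain ⟨α, C, n0, h⟩ := hG
  refine ⟨α, C, n0 + 1, fun N hN D hD => ?_⟩
  obtain ⟨ν, rfl⟩ : ∃ ν, N = ν + 1 := ⟨N - 1, by omega⟩
  obtain ⟨E, c, hc, h1, h2, h3⟩ := h ν (by omega)
  obtain ⟨hD0, hlim⟩ := deg_lim _ D hD
  have hwmap : (w.map toLt).map enc = w.map fun g => ((g.1 : ℕ), g.2) := by
    rw [List.map_map]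
    exact List.map_congr_left fun g _ => enc_toLt g
  -- the squaring map
  have hsq : Tendsto (fun x : ℝ => x ^ 2) (𝓝[>] 0) (𝓝[>] 0) := by
    refine tendsto_nhdsWithin_of_tendsto_nhds_of_eventually_within _ ?_ ?_
    · have : Tendsto (fun x : ℝ => x ^ 2) (𝓝 0) (𝓝 (0 ^ 2)) := (continuous_pow 2).tendsto 0
      rw [zero_pow two_ne_zero] at this
      exact this.mono_left nhdsWithin_le_nhds
    · filter_upwards [self_mem_nhdsWithin] with x hx
      exact pow_pos (Set.mem_Ioi.1 hx) 2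
  have g1 := h1.mul ((br_lim (n := (ν : ℤ) + 1) (by omega)).div (br_lim (n := (1 : ℤ)) (by omega))
    (by norm_num))
  rw [div_self (by norm_num : (-1 : ℂ) ≠ 0), mul_one] at g1
  have g2 : Tendsto (fun x : ℝ => (x : ℂ) ^ (2 * (E + ν)) *
      evL (ux x) (colouredJones w (ν + 1))) (𝓝[>] 0) (𝓝 c) := by
    refine (tendsto_congr' ?_).1 (g1.comp hsq)
    filter_upwards [self_mem_nhdsWithin, Ioo_mem_nhdsGT (show (0 : ℝ) < 1 by norm_num)] with x hx hx1
    have hx0 : 0 < x := Set.mem_Ioi.1 hx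
    have hxc : (x : ℂ) ≠ 0 := Complex.ofReal_ne_zero.2 hx0.ne'
    have hy0 : 0 < x ^ 2 := pow_pos hx0 2
    have hy1 : x ^ 2 < 1 := by nlinarith [hx1.2]
    have hyc : ((x ^ 2 : ℝ) : ℂ) ≠ 0 := Complex.ofReal_ne_zero.2 hy0.ne'
    have hnz : Nz ((x ^ 2 : ℝ) : ℂ) (2 * (ν + 1)) := nz_real hy0 hy1 _
    have hyv : ((x ^ 2 : ℝ) : ℂ) = ((ux x ^ (-2 : ℤ) : ℂˣ) : ℂ) := by
      rw [ux_zpow hx0.ne']
      push_cast
      norm_cast
    have hb1 : br ((x ^ 2 : ℝ) : ℂ) 1 ≠ 0 := by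
      have := hnz 1 (by omega) (by omega)
      simpa using this
    have ek : ∀ k : ℕ, 0 < k → k < ν + 1 → br ((x ^ 2 : ℝ) : ℂ) k ≠ 0 :=
      fun k hk1 hk2 => hnz k hk1 (by omega)
    have hF := full_trace (N := ν + 1) (by omega) hyc hnz (w.map toLt)
    have hev := evL_cJ (ux x) _ hyv (ν + 1) 2 w
    rw [Pool.Agent.Y467.Jw.crP_eq hyc ek, Pool.Agent.Y467.Jw.crN_eq hyc ek, ← hwmap] at hev
    change _ = _ at hev
    rw [← hev] at hF
    have hval : evL (ux x) (colouredJones w (ν + 1)) =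
        br ((x ^ 2 : ℝ) : ℂ) ((ν : ℤ) + 1) / br ((x ^ 2 : ℝ) : ℂ) 1 *
          cjones (ν + 1) 2 ((w.map toLt).map enc) ((x ^ 2 : ℝ) : ℂ) := by
      rw [div_mul_eq_mul_div, eq_div_iff hb1, mul_comm, hF]
      push_cast
      rfl
    rw [hval]
    have e1 : (x : ℂ) ^ (2 * (E + ν)) = ((x ^ 2 : ℝ) : ℂ) ^ (E + ν) := by
      rw [_root_.zpow_mul]
      push_cast
      norm_cast
    rw [e1]
    have e2 : ((x ^ 2 : ℝ) : ℂ) ^ ((ν : ℤ) + 1) = ((x ^ 2 : ℝ) : ℂ) ^ (ν : ℤ) *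
        ((x ^ 2 : ℝ) : ℂ) ^ (1 : ℤ) := zpow_add₀ hyc _ _
    have e3 : ((x ^ 2 : ℝ) : ℂ) ^ (E + ν) = ((x ^ 2 : ℝ) : ℂ) ^ E *
        ((x ^ 2 : ℝ) : ℂ) ^ (ν : ℤ) := zpow_add₀ hyc _ _
    have hy1' : ((x ^ 2 : ℝ) : ℂ) ^ (1 : ℤ) ≠ 0 := zpow_ne_zero _ hyc
    simp only [Function.comp, Pi.div_apply]
    rw [e2, e3]
    field_simp
  have hDE := exp_unique (Int.cast_ne_zero.2 hD0) hc hlim g2
  have e4 : (D : ℝ) / 2 = (E : ℝ) + ν := by
    rw [hDE]; push_cast; ring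
  rw [e4]
  push_cast at h2 h3 ⊢
  exact ⟨h2, h3⟩

/-- the arithmetic of quadratic functions -/
theorem quad {α C a b c : ℝ} (h : ∀ M : ℕ, ∃ N : ℕ, M ≤ N ∧
    α * (N : ℝ) ^ 2 - C * N ≤ (a * (N : ℝ) ^ 2 + 2 * b * N + c) / 2 ∧
    (a * (N : ℝ) ^ 2 + 2 * b * N + c) / 2 ≤ α * (N : ℝ) ^ 2 + C) : b ≤ 0 := by
  by_contra hb
  push Not at hb
  rcases le_or_gt 0 (a - 2 * α) with hd | hd
  · obtain ⟨M, hM⟩ := exists_nat_gt ((2 * C - c) / (2 * b))
    obtain ⟨N, hN, -, h2⟩ := h M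
    have h3 : (M : ℝ) ≤ N := Nat.cast_le.2 hN
    have h4 : (2 * C - c) / (2 * b) < N := lt_of_lt_of_le hM h3
    rw [div_lt_iff₀ (by linarith)] at h4
    nlinarith [mul_nonneg hd (sq_nonneg (N : ℝ))]
  · obtain ⟨M, hM⟩ := exists_nat_gt ((|2 * b + 2 * C| + |c|) / (-(a - 2 * α)))
    obtain ⟨N, hN, h1, -⟩ := h (M + 1)
    have h3 : ((M + 1 : ℕ) : ℝ) ≤ N := Nat.cast_le.2 hN
    push_cast at h3
    have hM0 : (0 : ℝ) ≤ M := Nat.cast_nonneg M
    have h4 : (|2 * b + 2 * C| + |c|) / (-(a - 2 * α)) < N := by linarith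
    rw [div_lt_iff₀ (by linarith)] at h4
    have hN1 : (1 : ℝ) ≤ N := by linarith
    have h5 : (2 * b + 2 * C) ≤ |2 * b + 2 * C| := le_abs_self _
    have h6 : c ≤ |c| := le_abs_self _
    have h7 : 0 ≤ |c| := abs_nonneg _
    have h8 : (|2 * b + 2 * C| + |c|) * N < N * (-(a - 2 * α)) * N := by
      apply mul_lt_mul_of_pos_right _ (by linarith)
      linarith
    nlinarith [mul_le_mul_of_nonneg_right h5 (show (0 : ℝ) ≤ N by linarith),
      mul_le_mul_of_nonneg_left hN1 h7]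

theorem no_fix {w : Word 2} (h : IsKnot w) : (perm w).IsThreeCycle := by
  rw [← _root_.card_support_eq_three_iff]
  have : (perm w).support = Finset.univ := by
    ext i
    simp only [Equiv.Perm.mem_support, Finset.mem_univ, iff_true]
    intro hi
    obtain ⟨j, hj⟩ : ∃ j : Fin 3, j ≠ i := by
      fin_cases i
      · exact ⟨1, by decide⟩
      · exact ⟨0, by decide⟩
      · exact ⟨0, by decide⟩
    exact hj ((h i j).eq_of_left hi).symm
  rw [this]
  rfl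

theorem perm_toLt (w : Word 2) : permL (w.map toLt) = perm w := by
  unfold permL perm
  rw [List.map_map]
  congr 1
  refine List.map_congr_left fun g _ => ?_
  obtain ⟨i, e⟩ := g
  fin_cases i <;> simp [toLt]

/-! ### Markov moves -/

/-- letters, back -/
def ofLt (g : Lt) : Fin 2 × Bool := (if g.1 then 1 else 0, g.2)

theorem ofLt_toLt (g : Fin 2 × Bool) : ofLt (toLt g) = g := by
  obtain ⟨i, e⟩ := g
  fin_cases i <;> simp [ofLt, toLt]

theorem move_rel {u w : List Lt} (h : Rel3 u w) :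
    Relation.EqvGen Move ⟨2, u.map ofLt⟩ ⟨2, w.map ofLt⟩ := by
  induction h with
  | refl u => exact Relation.EqvGen.refl _
  | symm _ ih => exact Relation.EqvGen.symm _ _ ih
  | trans _ _ ih1 ih2 => exact Relation.EqvGen.trans _ _ _ ih1 ih2
  | cancel u w c d =>
    refine Relation.EqvGen.rel _ _ ?_
    rw [List.map_append, List.map_append, List.map_cons, List.map_cons]
    exact Move.cancel _ _ _ _
  | braid u w =>
    refine Relation.EqvGen.rel _ _ ?_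
    simp only [List.map_append, List.map_cons]
    exact Move.braid _ _ 0 1 rfl
  | rot g u =>
    refine Relation.EqvGen.rel _ _ ?_
    rw [List.map_append, List.map_cons]
    exact Move.conj [ofLt g] (u.map ofLt)

theorem unknot2 (d e : Bool) : IsUnknot (n := 2) [(0, d), (1, e)] := by
  have h1 : Move ⟨0, []⟩ ⟨1, [(0, d)]⟩ := Move.stab (n := 0) [] d
  have h2 : Move ⟨1, [(0, d)]⟩ ⟨2, [(0, d), (1, e)]⟩ := Move.stab (n := 1) [(0, d)] e
  exact Relation.EqvGen.symm _ _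
    (Relation.EqvGen.trans _ _ _ (Relation.EqvGen.rel _ _ h1) (Relation.EqvGen.rel _ _ h2))

theorem unknot_of {w : Word 2} {u : List Lt} (h : Rel3 (w.map toLt) u)
    (hu : IsUnknot (u.map ofLt)) : IsUnknot w := by
  have h1 := move_rel h
  have e : (w.map toLt).map ofLt = w := by
    rw [List.map_map]
    conv_rhs => rw [← List.map_id w]
    exact List.map_congr_left fun g _ => ofLt_toLt g
  rw [e] at h1
  exact Relation.EqvGen.trans _ _ _ h1 hu

theorem good_or (w : Word 2) (hK : IsKnot w) : GoodJ (w.map toLt) ∨ IsUnknot w := by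
  have h3 : (permL (w.map toLt)).IsThreeCycle := by rw [perm_toLt]; exact no_fix hK
  rcases main3 _ h3 with h | h | h | h
  · exact Or.inl h
  · exact Or.inr (unknot_of h (unknot2 true true))
  · refine Or.inr (unknot_of (h.trans (Rel3.rot (true, false) [(false, false)])) ?_)
    exact unknot2 false false
  · exact Or.inr (unknot_of h (unknot2 true false))

/-- **all nontrivial closed 3-braids which are knots** -/
theorem final (w : Word 2) (hK : IsKnot w) (hU : ¬ IsUnknot w) (p : ℕ) (hp : 0 < p)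
    (a b c : ZMod p → ℚ) (h : IsDegree w p a b c) (j : ZMod p) : b j ≤ 0 := by
  rcases good_or w hK with hG | hG
  · obtain ⟨α, C, n0, hm⟩ := deg_main w hG
    obtain ⟨N0, hd⟩ := h
    have : NeZero p := ⟨hp.ne'⟩
    have key : (b j : ℝ) ≤ 0 := by
      refine quad (α := α) (C := C) (a := (a j : ℝ)) (c := (c j : ℝ)) fun M => ?_
      refine ⟨j.val + p * (M + n0 + N0), ?_, ?_⟩
      · nlinarith
      · have hcast : ((j.val + p * (M + n0 + N0) : ℕ) : ZMod p) = j := by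
          push_cast
          simp
        have hle : M + n0 + N0 ≤ j.val + p * (M + n0 + N0) := by nlinarith
        obtain ⟨D, hD1, hD2⟩ := hd (j.val + p * (M + n0 + N0)) (by omega)
        have hb := hm (j.val + p * (M + n0 + N0)) (by omega) D hD1
        rw [hcast] at hD2
        have hD3 : (D : ℝ) = (a j : ℝ) * ((j.val + p * (M + n0 + N0) : ℕ) : ℝ) ^ 2 +
            2 * (b j : ℝ) * ((j.val + p * (M + n0 + N0) : ℕ) : ℝ) + (c j : ℝ) := by
          have := congrArg (fun r : ℚ => (r : ℝ)) hD2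
          push_cast at this ⊢
          exact this
        rw [hD3] at hb
        exact hb
    exact_mod_cast key
  · exact absurd hG hU

end Pool.Agent.Run7.h760.CJ
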