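import Pool.Agent.Run7.h760.Torus

/-! The words `s_1 s_2` and `s_2^{-1} s_1^{-1}`. -/

set_option autoImplicit false

namespace Pool.Agent.Run7.h760

open Finset Matrix Filter Topology
open Pool.Agent.H550R3.Jones (br brf cjones)
open Pool.Agent.Y482.CY (sb LL UU Nz)
open Pool.Agent.Y481.CC (LI UI CM Lt TW permL wr enc)

/-- `s_1 s_2` and its inverse -/
def xw : List Lt := [(false, true), (true, true)]
def xi : List Lt := [(true, false), (false, false)]

theorem xw_cube {v : ℂ} (hv : v ≠ 0) (b m : ℕ) (h : Nz v m) :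
    Mw b m v xw ^ 3 = sc b m v • (1 : Matrix (Fin (m + 1)) (Fin (m + 1)) ℂ) := by
  have e : Mw b m v xw = LI b m v * UU b m v := by simp [Mw, xw, CM]
  rw [e, ← Dh_Dh hv]
  conv_rhs => rw [← half1 hv b m h]
  have h2 : LI b m v * UU b m v * LI b m v = UU b m v * LI b m v * UU b m v := by
    rw [half1 hv b m h, half2 hv b m h]
  conv_rhs =>
    arg 2
    rw [h2]
  simp only [pow_succ, pow_zero, Matrix.one_mul, Matrix.mul_assoc]

theorem xw_xi {v : ℂ} (hv : v ≠ 0) (b m : ℕ) (h : Nz v m) :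
    Mw b m v xw * Mw b m v xi = 1 := by
  obtain ⟨h1, h2, h3, h4⟩ := Pool.Agent.Y548.CC.lui v hv b m h
  have e : Mw b m v xw = LI b m v * UU b m v := by simp [Mw, xw, CM]
  have e2 : Mw b m v xi = UI b m v * LL b m v := by simp [Mw, xi, CM]
  rw [e, e2]
  calc _ = LI b m v * (UU b m v * UI b m v) * LL b m v := by simp only [Matrix.mul_assoc]
    _ = 1 := by rw [h3, Matrix.mul_one, h2]

theorem xi_cube {v : ℂ} (hv : v ≠ 0) (b m : ℕ) (h : Nz v m) :
    Mw b m v xi ^ 3 = (sc b m v)⁻¹ • (1 : Matrix (Fin (m + 1)) (Fin (m + 1)) ℂ) := by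
  have h1 := xw_xi hv b m h
  have h2 : Mw b m v xi * Mw b m v xw = 1 := mul_eq_one_comm.1 h1
  have hc : Commute (Mw b m v xw) (Mw b m v xi) := by
    unfold Commute SemiconjBy
    rw [h1, h2]
  have h3 : Mw b m v xw ^ 3 * Mw b m v xi ^ 3 = 1 := by
    rw [← hc.mul_pow, h1, one_pow]
  rw [xw_cube hv b m h, Matrix.smul_mul, Matrix.one_mul] at h3
  rw [← h3, smul_smul, inv_mul_cancel₀ (sc_ne hv b m), one_smul]

theorem sum2 (f : Fin (1 + 1) → ℂ) : ∑ j, f j = f 0 + f 1 := Fin.sum_univ_two f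

theorem v0 : ((0 : Fin (1 + 1)) : ℕ) = 0 := rfl
theorem v1 : ((1 : Fin (1 + 1)) : ℕ) = 1 := rfl

theorem xw_one {v : ℂ} (hv : v ≠ 0) (b : ℕ) (h : Nz v 1) :
    TW xw b 1 v = -v ^ (-(2 * 1 * ((b : ℤ) - 1))) := by
  have e : Mw b 1 v xw = LI b 1 v * UU b 1 v := by simp [Mw, xw, CM]
  have g1 := gb_zero h
  have g2 := gb_self h
  have g3 : gb v 0 0 = 1 := gb_zero (nzm h (by omega))
  have a1 : LI b 1 v 0 0 = 1 := by rw [LI_gb, v0]; simp [g1]
  have a2 : LI b 1 v 0 1 = 0 := by rw [LI_gb, v0, v1]; simp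
  have a3 : LI b 1 v 1 0 = -v ^ (-(2 * 1 * ((b : ℤ) - 1))) := by
    rw [LI_gb, v0, v1]
    simp only [Nat.zero_le, if_true, Nat.sub_zero, g2, mul_one, pow_one]
    rw [neg_one_mul]
    congr 2
    push_cast; ring
  have a4 : LI b 1 v 1 1 = -v ^ (-(2 * 1 * ((b : ℤ) - 1))) := by
    rw [LI_gb, v1]
    simp only [le_refl, if_true, Nat.sub_self, g3, mul_one, pow_one]
    rw [neg_one_mul]
    congr 2
    push_cast; ring
  have b1 : UU b 1 v 0 0 = -v ^ (-(2 * 1 * ((b : ℤ) - 1))) := by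
    rw [UU_gb, v0]
    simp only [Nat.sub_zero, g3, mul_one, pow_one]
    rw [neg_one_mul]
    congr 2
    push_cast; ring
  have b2 : UU b 1 v 0 1 = -1 := by
    rw [UU_gb, v0, v1]
    simp [g1]
  have b4 : UU b 1 v 1 1 = 1 := by
    rw [UU_gb, v1]
    simp [g2]
  rw [TW_eq, e, Matrix.trace, sum2]
  simp only [Matrix.diag_apply, Matrix.mul_apply, sum2, a1, a2, a3, a4, b1, b2, b4]
  ring

theorem xi_one {v : ℂ} (hv : v ≠ 0) (b : ℕ) (h : Nz v 1) :
    TW xi b 1 v = -v ^ (-(2 * (-1) * ((b : ℤ) - 1))) := by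
  have e : Mw b 1 v xi = UI b 1 v * LL b 1 v := by simp [Mw, xi, CM]
  have g1 := gb_zero h
  have g2 := gb_self h
  have g3 : gb v 0 0 = 1 := gb_zero (nzm h (by omega))
  have a1 : LL b 1 v 0 0 = 1 := by rw [LL_gb, v0]; simp [g1]
  have a2 : LL b 1 v 0 1 = 0 := by rw [LL_gb, v0, v1]; simp
  have a3 : LL b 1 v 1 0 = -1 := by
    rw [LL_gb, v0, v1]
    simp [g2]
  have a4 : LL b 1 v 1 1 = -v ^ (-(2 * (-1) * ((b : ℤ) - 1))) := by
    rw [LL_gb, v1]
    simp only [le_refl, if_true, Nat.sub_self, g3, mul_one, pow_one]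
    rw [neg_one_mul]
    congr 2
    push_cast; ring
  have b1 : UI b 1 v 0 0 = -v ^ (-(2 * (-1) * ((b : ℤ) - 1))) := by
    rw [UI_gb, v0]
    simp only [Nat.sub_zero, g3, mul_one, pow_one]
    rw [neg_one_mul]
    congr 2
    push_cast; ring
  have b2 : UI b 1 v 0 1 = -v ^ (-(2 * (-1) * ((b : ℤ) - 1))) := by
    rw [UI_gb, v0, v1]
    simp only [Nat.sub_zero, g1, mul_one, pow_one]
    rw [neg_one_mul]
    congr 2
    push_cast; ring
  have b4 : UI b 1 v 1 1 = 1 := by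
    rw [UI_gb, v1]
    simp [g2]
  rw [TW_eq, e, Matrix.trace, sum2]
  simp only [Matrix.diag_apply, Matrix.mul_apply, sum2, a1, a2, a3, a4, b1, b2, b4]
  ring

theorem tor_xw : Tor xw 1 where
  cube := fun v hv b m h => by rw [zpow_one]; exact xw_cube hv b m h
  wrz := by decide
  one := fun v hv b h => xw_one hv b h
  abs := Or.inl rfl
  cyc := by
    have : permL xw = Equiv.swap 1 0 * Equiv.swap 1 2 := by decide
    rw [this]
    exact Equiv.Perm.isThreeCycle_swap_mul_swap_same (by decide) (by decide) (by decide)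

theorem tor_xi : Tor xi (-1) where
  cube := fun v hv b m h => by rw [_root_.zpow_neg, zpow_one]; exact xi_cube hv b m h
  wrz := by decide
  one := fun v hv b h => xi_one hv b h
  abs := Or.inr rfl
  cyc := by
    have : permL xi = Equiv.swap 1 2 * Equiv.swap 1 0 := by decide
    rw [this]
    exact Equiv.Perm.isThreeCycle_swap_mul_swap_same (by decide) (by decide) (by decide)

end Pool.Agent.Run7.h760
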