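import Pool.Agent.Run7.h760.Rep

/-! The half twist, words in the three-strand braid group, invariance of the trace. -/

set_option autoImplicit false

namespace Pool.Agent.Run7.h760

open Finset Matrix
open Pool.Agent.H550R3.Jones (br brf)
open Pool.Agent.Y482.CY (sb LL UU Nz)
open Pool.Agent.Y481.CC (LI UI CM Lt TW permL wr)

theorem half1 {v : ℂ} (hv : v ≠ 0) (b m : ℕ) (h : Nz v m) :
    LI b m v * UU b m v * LI b m v = Dh b m v := by
  rw [LI_UU hv b m h, Matrix.mul_assoc, (Pool.Agent.Y548.CC.lui v hv b m h).1, Matrix.mul_one]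

theorem half2 {v : ℂ} (hv : v ≠ 0) (b m : ℕ) (h : Nz v m) :
    UU b m v * LI b m v * UU b m v = Dh b m v := by
  have h1 : UU b m v * LI b m v * UU b m v * LI b m v = Dh b m v * LI b m v := by
    rw [← UU_Dh hv, ← half1 hv b m h]
    simp only [Matrix.mul_assoc]
  have h2 := (Pool.Agent.Y548.CC.lui v hv b m h).2.1
  calc UU b m v * LI b m v * UU b m v =
      UU b m v * LI b m v * UU b m v * (LI b m v * LL b m v) := by rw [h2, Matrix.mul_one]
    _ = Dh b m v * LI b m v * LL b m v := by rw [← Matrix.mul_assoc, h1]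
    _ = Dh b m v := by rw [Matrix.mul_assoc, h2, Matrix.mul_one]

theorem LI_Dh {v : ℂ} (hv : v ≠ 0) (b m : ℕ) (h : Nz v m) :
    LI b m v * Dh b m v = Dh b m v * UU b m v := by
  rw [← half2 hv b m h]
  conv_rhs => rw [half2 hv b m h, ← half1 hv b m h]
  simp only [Matrix.mul_assoc]

/-- the words of the full twist and of its inverse -/
def fw : List Lt := [(false, true), (true, true), (false, true), (false, true), (true, true),
  (false, true)]
def bw : List Lt := [(false, false), (true, false), (false, false), (false, false), (true, false),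
  (false, false)]

/-- the word of the `d`-th power of the full twist -/
def Cw (d : ℤ) : List Lt := if 0 ≤ d then (List.replicate d.toNat fw).flatten else
  (List.replicate (-d).toNat bw).flatten

/-- relation of words: equal or conjugate in the braid group -/
inductive Rel3 : List Lt → List Lt → Prop
  | refl (u : List Lt) : Rel3 u u
  | symm {u w : List Lt} : Rel3 u w → Rel3 w u
  | trans {u w z : List Lt} : Rel3 u w → Rel3 w z → Rel3 u z
  | cancel (u w : List Lt) (c d : Bool) : Rel3 (u ++ (c, d) :: (c, !d) :: w) (u ++ w)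
  | braid (u w : List Lt) : Rel3 (u ++ (false, true) :: (true, true) :: (false, true) :: w)
      (u ++ (true, true) :: (false, true) :: (true, true) :: w)
  | rot (g : Lt) (u : List Lt) : Rel3 (g :: u) (u ++ [g])

/-- matrix of a word -/
noncomputable def Mw (b m : ℕ) (v : ℂ) (w : List Lt) : Matrix (Fin (m + 1)) (Fin (m + 1)) ℂ :=
  (w.map (CM b m v)).prod

theorem TW_eq (b m : ℕ) (v : ℂ) (w : List Lt) : TW w b m v = (Mw b m v w).trace := rfl

theorem Mw_append (b m : ℕ) (v : ℂ) (u w : List Lt) :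
    Mw b m v (u ++ w) = Mw b m v u * Mw b m v w := by
  unfold Mw; rw [List.map_append, List.prod_append]

theorem Mw_cons (b m : ℕ) (v : ℂ) (g : Lt) (w : List Lt) :
    Mw b m v (g :: w) = CM b m v g * Mw b m v w := by
  unfold Mw; rw [List.map_cons, List.prod_cons]

theorem Mw_nil (b m : ℕ) (v : ℂ) : Mw b m v [] = 1 := rfl

theorem CM_inv {v : ℂ} (hv : v ≠ 0) (b m : ℕ) (h : Nz v m) (c d : Bool) :
    CM b m v (c, d) * CM b m v (c, !d) = 1 := by
  obtain ⟨h1, h2, h3, h4⟩ := Pool.Agent.Y548.CC.lui v hv b m h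
  cases c <;> cases d <;> simp [CM, h1, h2, h3, h4]

theorem TW_rel {u w : List Lt} (hr : Rel3 u w) {v : ℂ} (hv : v ≠ 0) (b m : ℕ) (h : Nz v m) :
    TW u b m v = TW w b m v := by
  induction hr with
  | refl u => rfl
  | symm _ ih => exact ih.symm
  | trans _ _ ih1 ih2 => exact ih1.trans ih2
  | cancel u w c d =>
    rw [TW_eq, TW_eq, Mw_append, Mw_append, Mw_cons, Mw_cons, ← Matrix.mul_assoc (CM b m v (c, d)),
      CM_inv hv b m h, Matrix.one_mul]
  | braid u w =>
    rw [TW_eq, TW_eq, Mw_append, Mw_append]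
    simp only [Mw_cons]
    have e1 : CM b m v (false, true) * (CM b m v (true, true) * (CM b m v (false, true) *
        Mw b m v w)) = Dh b m v * Mw b m v w := by
      rw [← half1 hv b m h]
      simp [CM, Matrix.mul_assoc]
    have e2 : CM b m v (true, true) * (CM b m v (false, true) * (CM b m v (true, true) *
        Mw b m v w)) = Dh b m v * Mw b m v w := by
      rw [← half2 hv b m h]
      simp [CM, Matrix.mul_assoc]
    rw [e1, e2]
  | rot g u =>
    rw [TW_eq, TW_eq, Mw_append, Mw_cons, Mw_cons, Mw_nil, Matrix.mul_one, Matrix.trace_mul_comm]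

theorem wr_append (u w : List Lt) : wr (u ++ w) = wr u + wr w := by
  unfold wr; rw [List.map_append, List.sum_append]

theorem wr_cons (g : Lt) (w : List Lt) : wr (g :: w) = (if g.2 then 1 else -1) + wr w := by
  unfold wr; rw [List.map_cons, List.sum_cons]

theorem wr_rel {u w : List Lt} (hr : Rel3 u w) : wr u = wr w := by
  induction hr with
  | refl u => rfl
  | symm _ ih => exact ih.symm
  | trans _ _ ih1 ih2 => exact ih1.trans ih2
  | cancel u w c d =>
    rw [wr_append, wr_append, wr_cons, wr_cons]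
    cases d <;> simp
  | braid u w => simp [wr_append, wr_cons]
  | rot g u => simp [wr, add_comm]

theorem permL_append (u w : List Lt) : permL (u ++ w) = permL u * permL w := by
  unfold permL; rw [List.map_append, List.prod_append]

theorem permL_cons (g : Lt) (w : List Lt) :
    permL (g :: w) = (if g.1 then Equiv.swap 1 2 else Equiv.swap 0 1) * permL w := by
  unfold permL; rw [List.map_cons, List.prod_cons]

theorem perm_rel {u w : List Lt} (hr : Rel3 u w) : IsConj (permL u) (permL w) := by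
  induction hr with
  | refl u => exact IsConj.refl _
  | symm _ ih => exact ih.symm
  | trans _ _ ih1 ih2 => exact ih1.trans ih2
  | cancel u w c d =>
    rw [permL_append, permL_append, permL_cons, permL_cons]
    have : (if (c, d).1 then Equiv.swap (1 : Fin 3) 2 else Equiv.swap 0 1) *
        ((if (c, !d).1 then Equiv.swap (1 : Fin 3) 2 else Equiv.swap 0 1) * permL w) =
        permL w := by
      cases c <;> simp
    rw [this]
  | braid u w =>
    rw [permL_append, permL_append]
    simp only [permL_cons]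
    have : (Equiv.swap (0 : Fin 3) 1) * (Equiv.swap 1 2 * (Equiv.swap 0 1 * permL w)) =
      (Equiv.swap (1 : Fin 3) 2) * (Equiv.swap 0 1 * (Equiv.swap 1 2 * permL w)) := by
      rw [← mul_assoc, ← mul_assoc, ← mul_assoc, ← mul_assoc]
      congr 1
      decide
    simp only [if_true, Bool.false_eq_true, if_false]
    rw [this]
  | rot g u =>
    rw [permL_append, permL_cons, permL_cons]
    have : permL [] = 1 := rfl
    rw [this, mul_one, isConj_iff]
    refine ⟨permL u, ?_⟩
    rw [mul_assoc, mul_assoc, mul_inv_cancel, mul_one]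

theorem three_rel {u w : List Lt} (hr : Rel3 u w) (h : (permL u).IsThreeCycle) :
    (permL w).IsThreeCycle := by
  obtain ⟨c, hc⟩ := isConj_iff.1 (perm_rel hr)
  have : (permL w).cycleType = (permL u).cycleType := by
    rw [← hc, Equiv.Perm.cycleType_conj]
  unfold Equiv.Perm.IsThreeCycle at h ⊢
  rw [this, h]

/-! ### the full twist -/

theorem Mw_fw {v : ℂ} (hv : v ≠ 0) (b m : ℕ) (h : Nz v m) :
    Mw b m v fw = sc b m v • (1 : Matrix (Fin (m + 1)) (Fin (m + 1)) ℂ) := by
  rw [← Dh_Dh hv]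
  conv_rhs => rw [← half1 hv b m h]
  simp [Mw, fw, CM, Matrix.mul_assoc]

theorem sc_ne {v : ℂ} (hv : v ≠ 0) (b m : ℕ) : sc b m v ≠ 0 := zpow_ne_zero _ hv

theorem Mw_fw_bw {v : ℂ} (hv : v ≠ 0) (b m : ℕ) (h : Nz v m) :
    Mw b m v fw * Mw b m v bw = 1 := by
  obtain ⟨h1, h2, h3, h4⟩ := Pool.Agent.Y548.CC.lui v hv b m h
  have e : Mw b m v fw = LI b m v * UU b m v * LI b m v * (LI b m v * UU b m v * LI b m v) := by
    simp [Mw, fw, CM, Matrix.mul_assoc]
  have e2 : Mw b m v bw = LL b m v * (UI b m v * (LL b m v * (LL b m v * (UI b m v *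
      LL b m v)))) := by
    simp [Mw, bw, CM]
  have h2' : ∀ X : Matrix (Fin (m + 1)) (Fin (m + 1)) ℂ, LI b m v * (LL b m v * X) = X := by
    intro X; rw [← Matrix.mul_assoc, h2, Matrix.one_mul]
  have h3' : ∀ X : Matrix (Fin (m + 1)) (Fin (m + 1)) ℂ, UU b m v * (UI b m v * X) = X := by
    intro X; rw [← Matrix.mul_assoc, h3, Matrix.one_mul]
  rw [e, e2]
  simp only [Matrix.mul_assoc, h2', h3', h2]

theorem Mw_bw {v : ℂ} (hv : v ≠ 0) (b m : ℕ) (h : Nz v m) :
    Mw b m v bw = (sc b m v)⁻¹ • (1 : Matrix (Fin (m + 1)) (Fin (m + 1)) ℂ) := by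
  have h1 := Mw_fw_bw hv b m h
  rw [Mw_fw hv b m h, Matrix.smul_mul, Matrix.one_mul] at h1
  rw [← h1, smul_smul, inv_mul_cancel₀ (sc_ne hv b m), one_smul]

theorem Mw_rep {v : ℂ} (b m : ℕ) (c : ℂ) (z : List Lt)
    (hz : Mw b m v z = c • (1 : Matrix (Fin (m + 1)) (Fin (m + 1)) ℂ)) (n : ℕ) :
    Mw b m v (List.replicate n z).flatten =
      c ^ n • (1 : Matrix (Fin (m + 1)) (Fin (m + 1)) ℂ) := by
  induction n with
  | zero => simp [Mw_nil]
  | succ n ih =>
    rw [List.replicate_succ, List.flatten_cons, Mw_append, ih, hz, Matrix.smul_mul,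
      Matrix.one_mul, smul_smul, pow_succ, mul_comm]

theorem Mw_Cw {v : ℂ} (hv : v ≠ 0) (b m : ℕ) (h : Nz v m) (d : ℤ) :
    Mw b m v (Cw d) = (sc b m v) ^ d • (1 : Matrix (Fin (m + 1)) (Fin (m + 1)) ℂ) := by
  unfold Cw
  split_ifs with hd
  · rw [Mw_rep b m _ _ (Mw_fw hv b m h)]
    congr 1
    conv_rhs => rw [← Int.toNat_of_nonneg hd]
    rw [zpow_natCast]
  · rw [Mw_rep b m _ _ (Mw_bw hv b m h)]
    congr 1
    have : d = -(((-d).toNat : ℕ) : ℤ) := by omega
    conv_rhs => rw [this]
    rw [_root_.zpow_neg, zpow_natCast, inv_pow]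

theorem TW_Cw {v : ℂ} (hv : v ≠ 0) (b m : ℕ) (h : Nz v m) (d : ℤ) (u : List Lt) :
    TW (Cw d ++ u) b m v = (sc b m v) ^ d * TW u b m v := by
  rw [TW_eq, TW_eq, Mw_append, Mw_Cw hv b m h, Matrix.smul_mul, Matrix.one_mul,
    Matrix.trace_smul, smul_eq_mul]

end Pool.Agent.Run7.h760
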