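import Pool.Agent.Run7.h760.Class
import Pool.Agent.Run7.h760.Rep2

/-! Words of the three-strand braid group as elements of a group; normal forms of words. -/

set_option autoImplicit false

namespace Pool.Agent.Run7.h760

open Pool.Agent.Y481.CC (Lt)

/-- words which are equal in the braid group -/
inductive EqW : List Lt → List Lt → Prop
  | refl (u : List Lt) : EqW u u
  | symm {u w : List Lt} : EqW u w → EqW w u
  | trans {u w z : List Lt} : EqW u w → EqW w z → EqW u z
  | cancel (u w : List Lt) (c d : Bool) : EqW (u ++ (c, d) :: (c, !d) :: w) (u ++ w)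
  | braid (u w : List Lt) : EqW (u ++ (false, true) :: (true, true) :: (false, true) :: w)
      (u ++ (true, true) :: (false, true) :: (true, true) :: w)

theorem EqW.left (z : List Lt) {u w : List Lt} (h : EqW u w) : EqW (z ++ u) (z ++ w) := by
  induction h with
  | refl u => exact EqW.refl _
  | symm _ ih => exact ih.symm
  | trans _ _ ih1 ih2 => exact ih1.trans ih2
  | cancel u w c d => rw [← List.append_assoc, ← List.append_assoc]; exact EqW.cancel _ _ _ _
  | braid u w => rw [← List.append_assoc, ← List.append_assoc]; exact EqW.braid _ _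

theorem EqW.right (z : List Lt) {u w : List Lt} (h : EqW u w) : EqW (u ++ z) (w ++ z) := by
  induction h with
  | refl u => exact EqW.refl _
  | symm _ ih => exact ih.symm
  | trans _ _ ih1 ih2 => exact ih1.trans ih2
  | cancel u w c d => simpa using EqW.cancel u (w ++ z) c d
  | braid u w => simpa using EqW.braid u (w ++ z)

theorem EqW.append {u w u' w' : List Lt} (h : EqW u w) (h' : EqW u' w') :
    EqW (u ++ u') (w ++ w') := (h.right u').trans (h'.left w)

theorem EqW.rel {u w : List Lt} (h : EqW u w) : Rel3 u w := by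
  induction h with
  | refl u => exact Rel3.refl _
  | symm _ ih => exact ih.symm
  | trans _ _ ih1 ih2 => exact ih1.trans ih2
  | cancel u w c d => exact Rel3.cancel u w c d
  | braid u w => exact Rel3.braid u w

theorem rel_rot (u w : List Lt) : Rel3 (u ++ w) (w ++ u) := by
  induction u generalizing w with
  | nil => rw [List.nil_append, List.append_nil]; exact Rel3.refl _
  | cons g u ih =>
    have h1 := Rel3.rot g (u ++ w)
    have h2 := ih (w ++ [g])
    rw [List.cons_append]
    rw [List.append_assoc] at h1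
    have e : w ++ [g] ++ u = w ++ g :: u := by simp
    rw [e] at h2
    exact h1.trans h2

/-- the congruence of words -/
def wc : Con (FreeMonoid Lt) where
  r u w := EqW (FreeMonoid.toList u) (FreeMonoid.toList w)
  iseqv := ⟨fun _ => EqW.refl _, fun h => h.symm, fun h h' => h.trans h'⟩
  mul' := fun h h' => EqW.append h h'

/-- class of a word -/
def mkw (w : List Lt) : wc.Quotient := ((FreeMonoid.ofList w : FreeMonoid Lt) : wc.Quotient)

theorem mkw_append (u w : List Lt) : mkw (u ++ w) = mkw u * mkw w := rfl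

theorem mkw_nil : mkw [] = 1 := rfl

theorem mkw_eq {u w : List Lt} : mkw u = mkw w ↔ EqW u w := (Con.eq wc)

/-- a letter as a unit -/
def lu (g : Lt) : wc.Quotientˣ where
  val := mkw [g]
  inv := mkw [(g.1, !g.2)]
  val_inv := by
    rw [← mkw_append, ← mkw_nil, mkw_eq]
    obtain ⟨c, d⟩ := g
    exact EqW.cancel [] [] c d
  inv_val := by
    rw [← mkw_append, ← mkw_nil, mkw_eq]
    obtain ⟨c, d⟩ := g
    have h := EqW.cancel [] [] c (!d)
    rw [Bool.not_not] at h
    exact h

/-- the generators -/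
def gs : wc.Quotientˣ := lu (false, true)
def gt : wc.Quotientˣ := lu (true, true)

theorem g_braid : gs * gt * gs = gt * gs * gt := by
  apply Units.ext
  change mkw ([(false, true)] ++ [(true, true)] ++ [(false, true)]) =
    mkw ([(true, true)] ++ [(false, true)] ++ [(true, true)])
  rw [mkw_eq]
  exact EqW.braid [] []

theorem ev_val (w : List Lt) : ((Cl.ev gs gt w : wc.Quotientˣ) : wc.Quotient) = mkw w := by
  induction w with
  | nil => rfl
  | cons g w ih =>
    rw [Cl.ev_cons, Units.val_mul, ih]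
    have h : ((Cl.lt gs gt g : wc.Quotientˣ) : wc.Quotient) = mkw [g] := by
      obtain ⟨c, d⟩ := g
      cases c <;> cases d <;> rfl
    rw [h, ← mkw_append]
    rfl

theorem conj_rel {u w : List Lt} (h : IsConj (Cl.ev gs gt u) (Cl.ev gs gt w)) : Rel3 u w := by
  obtain ⟨c, hc⟩ := isConj_iff.1 h
  obtain ⟨z, hz⟩ : ∃ z, (c : wc.Quotient) = mkw z := by
    obtain ⟨z, hz⟩ := Con.mk'_surjective (c := wc) (c : wc.Quotient)
    exact ⟨FreeMonoid.toList z, hz.symm⟩
  obtain ⟨z', hz'⟩ : ∃ z', ((c⁻¹ : wc.Quotientˣ) : wc.Quotient) = mkw z' := by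
    obtain ⟨z, hz⟩ := Con.mk'_surjective (c := wc) ((c⁻¹ : wc.Quotientˣ) : wc.Quotient)
    exact ⟨FreeMonoid.toList z, hz.symm⟩
  have h1 : EqW (z' ++ z) [] := by
    rw [← mkw_eq, mkw_append, mkw_nil, ← hz, ← hz', ← Units.val_mul, inv_mul_cancel]
    rfl
  have h2 : EqW (z ++ u ++ z') w := by
    rw [← mkw_eq, mkw_append, mkw_append, ← hz, ← hz', ← ev_val, ← ev_val, ← Units.val_mul,
      ← Units.val_mul, hc]
  have h3 : Rel3 u (u ++ z' ++ z) := by
    have := h1.left u
    rw [List.append_nil, ← List.append_assoc] at this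
    exact this.symm.rel
  have h4 : Rel3 (u ++ z' ++ z) (z ++ u ++ z') := by
    have := rel_rot (u ++ z') z
    rwa [← List.append_assoc] at this
  exact h3.trans (h4.trans h2.rel)

theorem ev_rep (n : ℕ) (z : List Lt) : Cl.ev gs gt (List.replicate n z).flatten =
    Cl.ev gs gt z ^ n := by
  induction n with
  | zero => simp [Cl.ev]
  | succ n ih => rw [List.replicate_succ, List.flatten_cons, Cl.ev_append, ih, pow_succ']

theorem ev_fw : Cl.ev gs gt fw = Cl.C gs gt := by
  simp [Cl.ev, fw, Cl.lt, Cl.C, Cl.D, mul_assoc]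

theorem ev_bw : Cl.ev gs gt bw = (Cl.C gs gt)⁻¹ := by
  simp [Cl.ev, bw, Cl.lt, Cl.C, Cl.D, mul_assoc]

theorem ev_Cw (d : ℤ) : Cl.ev gs gt (Cw d) = Cl.C gs gt ^ d := by
  unfold Cw
  split_ifs with hd
  · rw [ev_rep, ev_fw]
    conv_rhs => rw [← Int.toNat_of_nonneg hd]
    rw [zpow_natCast]
  · rw [ev_rep, ev_bw]
    have : d = -(((-d).toNat : ℕ) : ℤ) := by omega
    conv_rhs => rw [this]
    rw [zpow_neg, zpow_natCast, inv_pow]

/-- **normal form of words** -/
theorem word_class (w : List Lt) : ∃ (d : ℤ) (nf : List Lt), Cl.NF nf ∧ Rel3 w (Cw d ++ nf) := by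
  obtain ⟨d, nf, h1, h2⟩ := Cl.classify gs gt g_braid w
  refine ⟨d, nf, h1, conj_rel ?_⟩
  rw [Cl.ev_append, ev_Cw]
  exact h2

/-- the half twist exchanges the generators -/
theorem flip_conj (k : ℤ) : IsConj (gs * gt ^ k) (gt * gs ^ k) := by
  rw [isConj_iff]
  refine ⟨Cl.D gs gt, ?_⟩
  have h1 := Cl.D_s gs gt g_braid
  have h2 := Cl.D_t gs gt g_braid
  have h3 : Cl.D gs gt * gt ^ k = gs ^ k * Cl.D gs gt := by
    have : SemiconjBy (Cl.D gs gt) gt gs := h2
    exact (this.zpow_right k)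
  rw [mul_inv_eq_iff_eq_mul, ← mul_assoc, h1, mul_assoc, h3, mul_assoc]

theorem flip_conj' (k : ℤ) : IsConj (gs⁻¹ * gt ^ k) (gt⁻¹ * gs ^ k) := by
  rw [isConj_iff]
  refine ⟨Cl.D gs gt, ?_⟩
  have h1 : Cl.D gs gt * gs⁻¹ = gt⁻¹ * Cl.D gs gt := by
    have : SemiconjBy (Cl.D gs gt) gs gt := Cl.D_s gs gt g_braid
    exact this.inv_right
  have h2 := Cl.D_t gs gt g_braid
  have h3 : Cl.D gs gt * gt ^ k = gs ^ k * Cl.D gs gt := by
    have : SemiconjBy (Cl.D gs gt) gt gs := h2
    exact (this.zpow_right k)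
  rw [mul_inv_eq_iff_eq_mul, ← mul_assoc, h1, mul_assoc, h3, mul_assoc]

/-- `s_1^{-1} s_2^{-Q}` is conjugate to `C^{-1} s_1 s_2^{4 - Q}` -/
theorem spec_conj (Q : ℤ) : IsConj (gs⁻¹ * gt ^ (-Q)) ((Cl.C gs gt)⁻¹ * (gs * gt ^ (4 - Q))) := by
  rw [isConj_iff]
  refine ⟨gt ^ (-2 : ℤ), ?_⟩
  have hC : Cl.C gs gt = gs * gt * gt * gs * gt * gt := by
    unfold Cl.C Cl.D
    calc gs * gt * gs * (gs * gt * gs) = gs * gt * gs * (gt * gs * gt) := by rw [g_braid]
      _ = gs * gt * (gs * gt * gs) * gt := by simp only [mul_assoc]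
      _ = gs * gt * (gt * gs * gt) * gt := by rw [g_braid]
      _ = _ := by simp only [mul_assoc]
  have e1 : gt ^ (4 - Q) = gt * gt * gt ^ (-Q) * gt * gt := by
    have : (4 - Q : ℤ) = 1 + 1 + -Q + 1 + 1 := by ring
    rw [this, zpow_add, zpow_add, zpow_add, zpow_add, zpow_one]
  have e2 : (gt ^ (-2 : ℤ))⁻¹ = gt * gt := by
    have : (-2 : ℤ) = -1 + -1 := by norm_num
    rw [this, zpow_add, zpow_neg_one, mul_inv_rev, inv_inv]
  have e3 : gt ^ (-2 : ℤ) = gt⁻¹ * gt⁻¹ := by
    have : (-2 : ℤ) = -1 + -1 := by norm_num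
    rw [this, zpow_add, zpow_neg_one]
  rw [e1, e2, e3, hC]
  group

end Pool.Agent.Run7.h760
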