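import Pool.Agent.Run7.h760.Good
import Pool.Agent.Run7.h760.Torus2
import Pool.Agent.Run7.h760.Words
import Pool.Agent.H105R3.JSanCurl

/-! From the sum over the levels to the coloured Jones polynomial; stabilisation. -/

set_option autoImplicit false

namespace Pool.Agent.Run7.h760

open Finset Matrix Filter Topology
open Pool.Agent.H550R3.Jones (br brf cjones crossP crossN ptr Adm)
open Pool.Agent.TH193.CY (crossP2 crossN2)
open Pool.Agent.Y482.CY (B3 on12 on23 lv sb LL UU Nz)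
open Pool.Agent.Y481.CC (LI UI CM Lt TW permL wr enc opB wop)

/-- growth of the degree of the coloured Jones polynomial -/
def GoodJ (w : List Lt) : Prop := ∃ (α C : ℝ) (n0 : ℕ), ∀ ν : ℕ, n0 ≤ ν → ∃ (E : ℤ) (c : ℂ),
  c ≠ 0 ∧ Tendsto (fun y : ℝ => (y : ℂ) ^ E * cjones (ν + 1) 2 (w.map enc) (y : ℂ)) l0 (𝓝 c) ∧
  α * ((ν : ℝ) + 1) ^ 2 - C * ((ν : ℝ) + 1) ≤ (E : ℝ) + ν ∧
  (E : ℝ) + ν ≤ α * ((ν : ℝ) + 1) ^ 2 + C

theorem goodJ {w : List Lt} (hw : (permL w).IsThreeCycle) (h : Good w) : GoodJ w := by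
  obtain ⟨α, C, n0, h⟩ := h
  refine ⟨α, C, n0, fun ν hν => ?_⟩
  obtain ⟨E, c, hc, h1, h2, h3⟩ := h ν hν
  refine ⟨E + ν * wr w - (ν + 1), -c, neg_ne_zero.2 hc, ?_, ?_, ?_⟩
  · have h4 := h1.div (br_lim (n := (ν : ℤ) + 1) (by omega)) (by norm_num)
    have e0 : c / (-1) = -c := by rw [div_neg, div_one]
    rw [e0] at h4
    refine (tendsto_congr' ?_).1 h4
    filter_upwards [ev_pos, ev_lt] with y hy hy1
    have hv := cne hy
    have hnz := nz_real hy hy1 (2 * (ν + 1))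
    have hm := main_sum hv w hw (ν + 1) (by omega) hnz
    have hbr : br (y : ℂ) ((ν + 1 : ℕ) : ℤ) ≠ 0 := hnz (ν + 1) (by omega) (by omega)
    have e1 : ((ν + 1 : ℕ) : ℤ) = (ν : ℤ) + 1 := by push_cast; ring
    rw [e1] at hm hbr
    have e2 : 3 * (ν + 1 - 1) / 2 + 1 = 3 * ν / 2 + 1 := by omega
    rw [e2] at hm
    have e3 : ∑ k ∈ range (3 * ν / 2 + 1), br (y : ℂ) (3 * ((ν : ℤ) + 1 - 1) - 2 * k + 1) *
        TW w (ν + 1) k (y : ℂ) = ∑ m ∈ range (3 * ν / 2 + 1), ft w ν m y := by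
      refine sum_congr rfl fun k _ => ?_
      unfold ft
      have : 3 * ((ν : ℤ) + 1 - 1) - 2 * k + 1 = 3 * (ν : ℤ) - 2 * k + 1 := by ring
      rw [this]
    rw [e3] at hm
    have hy' : (y : ℂ) ^ ((ν : ℤ) + 1) ≠ 0 := zpow_ne_zero _ hv
    change ((y : ℂ) ^ E * ∑ m ∈ range (3 * ν / 2 + 1), ft w ν m y) /
      ((y : ℂ) ^ ((ν : ℤ) + 1) * br (y : ℂ) ((ν : ℤ) + 1)) = _
    rw [div_eq_iff (mul_ne_zero hy' hbr)]
    have e4 : (y : ℂ) ^ (E + ν * wr w - (ν + 1)) * (y : ℂ) ^ ((ν : ℤ) + 1) =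
        (y : ℂ) ^ (E + ν * wr w) := z2 hv (by ring)
    have e5 : (y : ℂ) ^ (E + ν * wr w) * (y : ℂ) ^ (-(((ν : ℤ) + 1 - 1) * wr w)) =
        (y : ℂ) ^ E := z2 hv (by ring)
    calc (y : ℂ) ^ E * ∑ m ∈ range (3 * ν / 2 + 1), ft w ν m y =
        (y : ℂ) ^ (E + ν * wr w) * ((y : ℂ) ^ (-(((ν : ℤ) + 1 - 1) * wr w)) *
          ∑ m ∈ range (3 * ν / 2 + 1), ft w ν m y) := by rw [← e5]; ring
      _ = (y : ℂ) ^ (E + ν * wr w) * (br (y : ℂ) ((ν : ℤ) + 1) *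
          cjones (ν + 1) 2 (w.map enc) (y : ℂ)) := by rw [hm]
      _ = _ := by rw [← e4]; ring
  · push_cast
    linarith
  · push_cast
    linarith

theorem cj_rel {u w : List Lt} (hr : Rel3 u w) (hu : (permL u).IsThreeCycle) (ν : ℕ) {y : ℝ}
    (hy : 0 < y) (hy1 : y < 1) : cjones (ν + 1) 2 (u.map enc) (y : ℂ) =
      cjones (ν + 1) 2 (w.map enc) (y : ℂ) := by
  have hv := cne hy
  have hnz := nz_real hy hy1 (2 * (ν + 1))
  have h1 := main_sum hv u hu (ν + 1) (by omega) hnz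
  have h2 := main_sum hv w (three_rel hr hu) (ν + 1) (by omega) hnz
  have hbr : br (y : ℂ) ((ν + 1 : ℕ) : ℤ) ≠ 0 := hnz (ν + 1) (by omega) (by omega)
  apply mul_left_cancel₀ hbr
  rw [h1, h2, wr_rel hr]
  congr 1
  refine sum_congr rfl fun k hk => ?_
  rw [TW_rel hr hv _ _ (nz_real hy hy1 _)]

theorem goodJ_rel {u w : List Lt} (hr : Rel3 u w) (hu : (permL u).IsThreeCycle) (h : GoodJ w) :
    GoodJ u := by
  obtain ⟨α, C, n0, h⟩ := h
  refine ⟨α, C, n0, fun ν hν => ?_⟩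
  obtain ⟨E, c, hc, h1, h2, h3⟩ := h ν hν
  refine ⟨E, c, hc, ?_, h2, h3⟩
  refine (tendsto_congr' ?_).1 h1
  filter_upwards [ev_pos, ev_lt] with y hy hy1
  rw [cj_rel hr hu ν hy hy1]

/-! ### stabilisation -/

theorem o12_one (N : ℕ) : on12 (1 : Matrix (Fin N × Fin N) (Fin N × Fin N) ℂ) = 1 :=
  Pool.Agent.W715.VC.on12_one

theorem o12_mul {N : ℕ} (A B : Matrix (Fin N × Fin N) (Fin N × Fin N) ℂ) :
    on12 A * on12 B = on12 (A * B) := Pool.Agent.W715.VC.on12_mul A B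

theorem low_wop {N : ℕ} {v : ℂ} (u : List Lt) (hu : ∀ g ∈ u, g.1 = false) :
    ∃ A : Matrix (Fin N × Fin N) (Fin N × Fin N) ℂ, wop N v u = on12 A := by
  induction u with
  | nil => exact ⟨1, by rw [o12_one]; rfl⟩
  | cons g u ih =>
    obtain ⟨A, hA⟩ := ih fun g' hg' => hu g' (List.mem_cons_of_mem _ hg')
    have hg := hu g List.mem_cons_self
    obtain ⟨c, d⟩ := g
    simp only at hg
    subst hg
    have e : wop N v ((false, d) :: u) = opB N v (false, d) * wop N v u := by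
      simp [wop]
    rw [e, hA]
    refine ⟨(if d then crossP2 N N v else crossN2 N N v) * A, ?_⟩
    rw [← o12_mul]
    simp [opB]

theorem tr_stab {N : ℕ} {v : ℂ} (hv : v ≠ 0) (A X : Matrix (Fin N × Fin N) (Fin N × Fin N) ℂ)
    (κ : ℂ) (hX : ∀ i j : Fin N, ∑ x : Fin N, v ^ ((N : ℤ) - 1 - 2 * (x : ℕ)) * X (i, x) (j, x) =
      κ * if i = j then 1 else 0) :
    ∑ x : B3 N, v ^ (3 * ((N : ℤ) - 1) - 2 * (lv x : ℤ)) * (on12 A * on23 X) x x =
      κ * ∑ p : Fin N × Fin N, v ^ (2 * ((N : ℤ) - 1) - 2 * ((p.1 : ℕ) : ℤ) - 2 * ((p.2 : ℕ) : ℤ)) *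
        A p p := by
  have h1 : ∀ a b c : Fin N, (on12 A * on23 X) (a, b, c) (a, b, c) =
      ∑ d : Fin N, A (a, b) (a, d) * X (d, c) (b, c) := by
    intro a b c
    rw [Matrix.mul_apply, Fintype.sum_prod_type, Finset.sum_eq_single a, Fintype.sum_prod_type]
    · refine Finset.sum_congr rfl fun d _ => ?_
      rw [Finset.sum_eq_single c]
      · simp [on12, on23]
      · intro c' _ hc'
        have : ¬ (c = c') := fun h => hc' h.symm
        simp [on12, this]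
      · simp
    · intro a' _ ha'
      refine Finset.sum_eq_zero fun q _ => ?_
      simp [on23, ha']
    · simp
  simp only [Fintype.sum_prod_type, lv]
  rw [Finset.mul_sum]
  refine Finset.sum_congr rfl fun a _ => ?_
  rw [Finset.mul_sum]
  refine Finset.sum_congr rfl fun b _ => ?_
  have h2 : ∀ c : Fin N, v ^ (3 * ((N : ℤ) - 1) - 2 * (((a : ℕ) + (b : ℕ) + (c : ℕ) : ℕ) : ℤ)) *
      (on12 A * on23 X) (a, b, c) (a, b, c) =
      ∑ d : Fin N, v ^ (2 * ((N : ℤ) - 1) - 2 * ((a : ℕ) : ℤ) - 2 * ((b : ℕ) : ℤ)) *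
        A (a, b) (a, d) * (v ^ ((N : ℤ) - 1 - 2 * (c : ℕ)) * X (d, c) (b, c)) := by
    intro c
    rw [h1, Finset.mul_sum]
    refine Finset.sum_congr rfl fun d _ => ?_
    have e : v ^ (3 * ((N : ℤ) - 1) - 2 * (((a : ℕ) + (b : ℕ) + (c : ℕ) : ℕ) : ℤ)) =
        v ^ (2 * ((N : ℤ) - 1) - 2 * ((a : ℕ) : ℤ) - 2 * ((b : ℕ) : ℤ)) *
        v ^ ((N : ℤ) - 1 - 2 * (c : ℕ)) := by
      rw [← zpow_add₀ hv]; congr 1; push_cast; ring
    rw [e]; ring
  rw [Finset.sum_congr rfl fun c _ => h2 c, Finset.sum_comm]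
  have h3 : ∀ d : Fin N, ∑ c : Fin N, v ^ (2 * ((N : ℤ) - 1) - 2 * ((a : ℕ) : ℤ) -
      2 * ((b : ℕ) : ℤ)) * A (a, b) (a, d) * (v ^ ((N : ℤ) - 1 - 2 * (c : ℕ)) * X (d, c) (b, c)) =
      v ^ (2 * ((N : ℤ) - 1) - 2 * ((a : ℕ) : ℤ) - 2 * ((b : ℕ) : ℤ)) * A (a, b) (a, d) *
        (κ * if d = b then 1 else 0) := by
    intro d
    rw [← Finset.mul_sum, hX d b]
  rw [Finset.sum_congr rfl fun d _ => h3 d, Finset.sum_eq_single b]
  · rw [if_pos rfl]; ring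
  · intro d _ hd
    rw [if_neg hd]; ring
  · simp

theorem cj_stab {N : ℕ} (hN : 1 ≤ N) {v : ℂ} (hv : v ≠ 0) (h : Nz v (2 * N)) (u : List Lt)
    (hu : ∀ g ∈ u, g.1 = false) : cjones N 2 ((u ++ [(true, true)]).map enc) v =
      cjones N 2 ((u ++ [(true, false)]).map enc) v := by
  have hbr : br v (N : ℤ) ≠ 0 := h N (by omega) (by omega)
  apply mul_left_cancel₀ hbr
  rw [Pool.Agent.Y899.CC.t_QT v hv _ N hN h, Pool.Agent.Y899.CC.t_QT v hv _ N hN h]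
  obtain ⟨A, hA⟩ := low_wop (N := N) (v := v) u hu
  have hAdm : Adm N v := ⟨hv, fun k h1 h2 => h k h1 (by omega)⟩
  obtain ⟨c1, c2⟩ := Pool.Agent.H105R3.JSan.taskSanCurl N v hAdm
  have e1 : wop N v (u ++ [(true, true)]) = on12 A * on23 (crossP2 N N v) := by
    rw [← hA]; simp [wop, opB]
  have e2 : wop N v (u ++ [(true, false)]) = on12 A * on23 (crossN2 N N v) := by
    rw [← hA]; simp [wop, opB]
  rw [e1, e2, tr_stab hv A (crossP2 N N v) (v ^ ((N : ℤ) - 1)), tr_stab hv A (crossN2 N N v)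
    (v ^ (-((N : ℤ) - 1))), wr_append, wr_append]
  · have w1 : wr [(true, true)] = 1 := by decide
    have w2 : wr [(true, false)] = -1 := by decide
    rw [w1, w2]
    have e3 : v ^ (-(((N : ℤ) - 1) * (wr u + 1))) * v ^ ((N : ℤ) - 1) =
        v ^ (-(((N : ℤ) - 1) * (wr u + -1))) * v ^ (-((N : ℤ) - 1)) := z22 hv (by ring)
    linear_combination (br v 1 * ∑ p : Fin N × Fin N, v ^ (2 * ((N : ℤ) - 1) -
      2 * ((p.1 : ℕ) : ℤ) - 2 * ((p.2 : ℕ) : ℤ)) * A p p) * e3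
  · intro i j
    have h1 := congrFun (congrFun c2 i) j
    unfold ptr at h1
    rw [Pool.Agent.Y899.CC.crossN2_eq hv]
    simp only [Matrix.smul_apply, smul_eq_mul]
    rw [Matrix.one_apply] at h1
    rw [← h1, Finset.mul_sum]
    exact Finset.sum_congr rfl fun x _ => by ring
  · intro i j
    have h1 := congrFun (congrFun c1 i) j
    unfold ptr at h1
    rw [Pool.Agent.Y899.CC.crossP2_eq hv]
    simp only [Matrix.smul_apply, smul_eq_mul]
    rw [Matrix.one_apply] at h1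
    rw [← h1, Finset.mul_sum]
    exact Finset.sum_congr rfl fun x _ => by ring

theorem goodJ_stab (u : List Lt) (hu : ∀ g ∈ u, g.1 = false)
    (h : GoodJ (u ++ [(true, false)])) : GoodJ (u ++ [(true, true)]) := by
  obtain ⟨α, C, n0, h⟩ := h
  refine ⟨α, C, n0, fun ν hν => ?_⟩
  obtain ⟨E, c, hc, h1, h2, h3⟩ := h ν hν
  refine ⟨E, c, hc, ?_, h2, h3⟩
  refine (tendsto_congr' ?_).1 h1
  filter_upwards [ev_pos, ev_lt] with y hy hy1
  rw [cj_stab (by omega) (cne hy) (nz_real hy hy1 _) u hu]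

end Pool.Agent.Run7.h760
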