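import Pool.Agent.Run7.h760.CJ
import Pool.Agent.Run7.h760.GJ
import Pool.Agent.Y467.Jw.Poly

/-! Evaluation of the coloured Jones polynomials at real points. -/

set_option autoImplicit false

namespace Pool.Agent.Run7.h760.CJ

open Finset Matrix
open Pool.Agent.H550R3.Jones (br brf cjones crossP crossN gen rep)
open Pool.Agent.Y467.Jw (crP crN)
open Pool.Agent.Y482.CY (B3 lv Nz)
open Pool.Agent.Y481.CC (Lt permL wr enc wop)

/-- evaluation at `v` -/
noncomputable def evL (v : ℂˣ) : LP →+* ℂ := LaurentPolynomial.eval₂ (Int.castRingHom ℂ) v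

theorem evL_qp (v : ℂˣ) (y : ℂ) (hy : y = ((v ^ (-2 : ℤ) : ℂˣ) : ℂ)) (m : ℤ) :
    evL v (qp m) = y ^ m := by
  unfold evL qp
  rw [LaurentPolynomial.eval₂_T, hy, ← Units.val_zpow_eq_zpow_val, _root_.zpow_mul]

theorem evL_qbr (v : ℂˣ) (y : ℂ) (hy : y = ((v ^ (-2 : ℤ) : ℂˣ) : ℂ)) (m : ℤ) :
    evL v (qbr m) = br y m := by
  unfold qbr br
  rw [map_sub, evL_qp v y hy, evL_qp v y hy]

theorem evL_qbin (v : ℂˣ) (y : ℂ) (hy : y = ((v ^ (-2 : ℤ) : ℂˣ) : ℂ)) : ∀ a b : ℕ,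
    evL v (qbin a b) = Pool.Agent.Y467.Jw.gb y a b := by
  intro a
  induction a with
  | zero =>
    intro b
    cases b with
    | zero => simp [qbin, Pool.Agent.Y467.Jw.gb]
    | succ b => simp [qbin, Pool.Agent.Y467.Jw.gb]
  | succ a ih =>
    intro b
    cases b with
    | zero => simp [qbin, Pool.Agent.Y467.Jw.gb]
    | succ b =>
      rw [qbin, Pool.Agent.Y467.Jw.gb, map_add, map_mul, map_mul, evL_qp v y hy, evL_qp v y hy, ih,
        ih]

theorem y_ne (v : ℂˣ) (y : ℂ) (hy : y = ((v ^ (-2 : ℤ) : ℂˣ) : ℂ)) : y ≠ 0 := by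
  rw [hy]; exact Units.ne_zero _

theorem evL_pos (v : ℂˣ) (y : ℂ) (hy : y = ((v ^ (-2 : ℤ) : ℂˣ) : ℂ)) (N : ℕ)
    (p x : Fin N × Fin N) : evL v (posX N p x) = crP N y p x := by
  have hy0 := y_ne v y hy
  unfold posX crP
  by_cases h : (p.1 : ℕ) + p.2 = x.1 + x.2 ∧ (x.2 : ℕ) ≤ p.1
  · rw [if_pos h, if_pos h, map_mul, map_mul, map_prod, evL_qp v y hy, evL_qbin v y hy,
      zpow_add₀ hy0, zpow_natCast]
    congr 1
    exact Finset.prod_congr rfl fun t _ => evL_qbr v y hy _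
  · rw [if_neg h, if_neg h, map_zero]

theorem evL_neg (v : ℂˣ) (y : ℂ) (hy : y = ((v ^ (-2 : ℤ) : ℂˣ) : ℂ)) (N : ℕ)
    (p x : Fin N × Fin N) : evL v (negX N p x) = crN N y p x := by
  have hy0 := y_ne v y hy
  unfold negX crN
  by_cases h : (p.1 : ℕ) + p.2 = x.1 + x.2 ∧ (x.1 : ℕ) ≤ p.2
  · rw [if_pos h, if_pos h, map_mul, map_mul, map_mul, map_prod, evL_qp v y hy, evL_qbin v y hy,
      sub_eq_add_neg (_ - _) (Nat.cast _), zpow_add₀ hy0, map_pow, map_neg, map_one, ← mul_assoc]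
    congr 1
    exact Finset.prod_congr rfl fun t _ => evL_qbr v y hy _
  · rw [if_neg h, if_neg h, map_zero]

theorem evL_letter (v : ℂˣ) (y : ℂ) (hy : y = ((v ^ (-2 : ℤ) : ℂˣ) : ℂ)) (N n : ℕ)
    (g : Fin n × Bool) : (letterOp N n g).map (evL v) =
      gen (if g.2 then crP N y else crN N y) (n + 1) (g.1 : ℕ) := by
  ext s t
  unfold letterOp gen
  have h1 : (g.1 : ℕ) + 1 < n + 1 := by have := g.1.2; omega
  rw [Matrix.map_apply, dif_pos h1]
  have hc : (∀ j : Fin (n + 1), j ≠ g.1.castSucc → j ≠ g.1.succ → s j = t j) ↔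
      (∀ j : Fin (n + 1), (j : ℕ) ≠ (g.1 : ℕ) → (j : ℕ) ≠ (g.1 : ℕ) + 1 → s j = t j) := by
    constructor
    · intro h j h2 h3
      refine h j (fun h4 => h2 ?_) (fun h4 => h3 ?_)
      · rw [h4]; rfl
      · rw [h4]; rfl
    · intro h j h2 h3
      refine h j (fun h4 => h2 (Fin.ext h4)) (fun h4 => h3 (Fin.ext h4))
  by_cases h : ∀ j : Fin (n + 1), j ≠ g.1.castSucc → j ≠ g.1.succ → s j = t j
  · rw [if_pos h, if_pos (hc.1 h)]
    cases hg : g.2
    · simp only [Bool.false_eq_true, if_false]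
      exact evL_neg v y hy N _ _
    · simp only [if_true]
      exact evL_pos v y hy N _ _
  · rw [if_neg h, if_neg (fun h' => h (hc.2 h')), map_zero]

theorem evL_braid (v : ℂˣ) (y : ℂ) (hy : y = ((v ^ (-2 : ℤ) : ℂˣ) : ℂ)) (N n : ℕ) (w : Word n) :
    (braidOp N w).map (evL v) =
      rep (crP N y) (crN N y) (n + 1) (w.map fun g => ((g.1 : ℕ), g.2)) := by
  unfold braidOp rep
  induction w with
  | nil =>
    simp only [List.map_nil, List.prod_nil]
    exact Matrix.map_one _ (map_zero _) (map_one _)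
  | cons g w ih =>
    simp only [List.map_cons, List.prod_cons] at ih ⊢
    rw [Matrix.map_mul, ih, evL_letter v y hy]

theorem evL_cJ (v : ℂˣ) (y : ℂ) (hy : y = ((v ^ (-2 : ℤ) : ℂˣ) : ℂ)) (N n : ℕ) (w : Word n) :
    evL v (colouredJones w N) = ∑ s : Fin (n + 1) → Fin N,
      (∏ j, y ^ ((N : ℤ) - 1 - 2 * (s j : ℕ))) *
        rep (crP N y) (crN N y) (n + 1) (w.map fun g => ((g.1 : ℕ), g.2)) s s := by
  unfold colouredJones
  rw [map_sum]
  refine Finset.sum_congr rfl fun s _ => ?_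
  rw [map_mul, evL_qp v y hy, ← evL_braid v y hy, Matrix.map_apply]
  congr 1
  have hy0 := y_ne v y hy
  generalize (univ : Finset (Fin (n + 1))) = S
  induction S using Finset.induction_on with
  | empty => simp
  | insert a S ha ih => rw [Finset.sum_insert ha, Finset.prod_insert ha, zpow_add₀ hy0, ih]

/-- letters -/
def toLt (g : Fin 2 × Bool) : Lt := (decide (g.1 = 1), g.2)

theorem enc_toLt (g : Fin 2 × Bool) : enc (toLt g) = ((g.1 : ℕ), g.2) := by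
  obtain ⟨i, e⟩ := g
  fin_cases i <;> simp [enc, toLt]

/-- the quantum trace over three strands -/
theorem full_trace {N : ℕ} (hN : 1 ≤ N) {y : ℂ} (hy : y ≠ 0) (hNz : Nz y (2 * N)) (w : List Lt) :
    br y 1 * ∑ s : Fin 3 → Fin N, (∏ j, y ^ ((N : ℤ) - 1 - 2 * (s j : ℕ))) *
      rep (crossP N y) (crossN N y) 3 (w.map enc) s s = br y (N : ℤ) * cjones N 2 (w.map enc) y := by
  rw [Pool.Agent.Y899.CC.t_QT y hy w N hN hNz, mul_assoc (br y 1)]
  congr 1
  rw [← Equiv.sum_comp (Pool.Agent.H927R2.J.SanYB.e3 (Fin N)), Finset.mul_sum]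
  refine Finset.sum_congr rfl fun s _ => ?_
  rw [Pool.Agent.Y899.CC.rep_eq hy, Matrix.submatrix_apply, Matrix.smul_apply, smul_eq_mul]
  have e1 : (∏ j, y ^ ((N : ℤ) - 1 - 2 * (s j : ℕ))) = y ^ (3 * ((N : ℤ) - 1) -
      2 * (lv (Pool.Agent.H927R2.J.SanYB.e3 (Fin N) s) : ℤ)) := by
    rw [Fin.prod_univ_three, ← zpow_add₀ hy, ← zpow_add₀ hy]
    congr 1
    have : lv (Pool.Agent.H927R2.J.SanYB.e3 (Fin N) s) = (s 0 : ℕ) + (s 1 : ℕ) + (s 2 : ℕ) := rfl
    rw [this]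
    push_cast
    ring
  rw [e1]
  ring

end Pool.Agent.Run7.h760.CJ
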