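import Pool.Agent.Run7.h760.Term

/-! The growth of the degree in terms of the largest exponent. -/

set_option autoImplicit false

namespace Pool.Agent.Run7.h760

open Finset Matrix Filter Topology
open Pool.Agent.H550R3.Jones (br brf cjones)
open Pool.Agent.Y482.CY (sb LL UU Nz)
open Pool.Agent.Y481.CC (LI UI CM Lt TW permL wr enc)

/-- the degree is `α n² + O(n)` and at most `α n² + O(1)` -/
def Good (w : List Lt) : Prop := ∃ (α C : ℝ) (n0 : ℕ), ∀ ν : ℕ, n0 ≤ ν → ∃ (E : ℤ) (c : ℂ),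
  c ≠ 0 ∧ Tendsto (fun y : ℝ => (y : ℂ) ^ E * ∑ m ∈ range (3 * ν / 2 + 1), ft w ν m y) l0 (𝓝 c) ∧
  α * ((ν : ℝ) + 1) ^ 2 - C * ((ν : ℝ) + 1) ≤ (ν : ℝ) * (wr w : ℝ) + E - 1 ∧
  (ν : ℝ) * (wr w : ℝ) + E - 1 ≤ α * ((ν : ℝ) + 1) ^ 2 + C

theorem good_rel {w w' : List Lt} (hr : Rel3 w w') (h : Good w') : Good w := by
  obtain ⟨α, C, n0, h⟩ := h
  refine ⟨α, C, n0, fun ν hν => ?_⟩
  obtain ⟨E, c, hc, h1, h2, h3⟩ := h ν hν
  refine ⟨E, c, hc, ?_, ?_, ?_⟩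
  · refine (tendsto_congr' ?_).1 h1
    filter_upwards [ev_pos, ev_lt] with y hy0 hy1
    congr 1
    refine sum_congr rfl fun m _ => ?_
    unfold ft
    rw [TW_rel hr (cne hy0) _ _ (nz_real hy0 hy1 m)]
  · rw [wr_rel hr]; exact h2
  · rw [wr_rel hr]; exact h3

/-- exponent of a level -/
def ee (d P Q : ℤ) (ν m : ℕ) : ℤ := if m ≤ ν then E2 d P ν m else E1 d P Q ν m

/-- leading coefficient of a level -/
def cc (P ν m : ℕ) : ℂ := if m ≤ ν then -(-1) ^ (m * P) else -(-1) ^ ((3 * ν - 2 * m) * P)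

theorem ee_lim (d : ℤ) (p : List Bool)
    (h3 : (permL (Cw d ++ mw (p ++ [false]))).IsThreeCycle) (ν m : ℕ)
    (hm : m ∈ range (3 * ν / 2 + 1)) :
    Tendsto (fun y : ℝ => (y : ℂ) ^ (ee d ((p ++ [false]).count true)
      ((p ++ [false]).count false) ν m) *
      ft (Cw d ++ mw (p ++ [false])) ν m y) l0 (𝓝 (cc ((p ++ [false]).count true) ν m)) := by
  rw [mem_range] at hm
  unfold ee cc
  split_ifs with h
  · exact ft2_lim d p ν m h
  · obtain ⟨M, rfl⟩ : ∃ M, m = ν + M := ⟨m - ν, by omega⟩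
    obtain ⟨l, rfl⟩ : ∃ l, ν = l + 2 * M := ⟨ν - 2 * M, by omega⟩
    have e1 : l + 2 * M + M = l + 3 * M := by ring
    have e2 : 3 * (l + 2 * M) - 2 * (l + 3 * M) = l := by omega
    rw [e1, e2]
    exact ft1_lim d p l M h3 (wr_even _ h3)

theorem max_exists (s : Finset ℕ) (hs : s.Nonempty) (e : ℕ → ℤ) (c : ℕ → ℂ) (κ : ℂ) (hκ : κ ≠ 0)
    (h : ∀ m ∈ s, (∀ m' ∈ s, e m' ≤ e m) → c m = κ) :
    ∃ m1 ∈ s, (∀ m ∈ s, e m ≤ e m1) ∧ (∑ m ∈ s, if e m = e m1 then c m else 0) ≠ 0 := by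
  obtain ⟨m1, h1, h2⟩ := Finset.exists_max_image s e hs
  refine ⟨m1, h1, h2, ?_⟩
  have h3 : ∀ m ∈ s, (if e m = e m1 then c m else 0) = if e m = e m1 then κ else 0 := by
    intro m hm
    by_cases h4 : e m = e m1
    · rw [if_pos h4, if_pos h4]
      exact h m hm fun m' hm' => by rw [h4]; exact h2 m' hm'
    · rw [if_neg h4, if_neg h4]
  rw [Finset.sum_congr rfl h3, ← Finset.sum_filter, Finset.sum_const, nsmul_eq_mul]
  refine mul_ne_zero ?_ hκ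
  have : 0 < (s.filter fun m => e m = e m1).card :=
    Finset.card_pos.2 ⟨m1, Finset.mem_filter.2 ⟨h1, rfl⟩⟩
  exact_mod_cast this.ne'

theorem good_of_max (d : ℤ) (p : List Bool)
    (h3 : (permL (Cw d ++ mw (p ++ [false]))).IsThreeCycle) (P Q : ℕ)
    (hP : (p ++ [false]).count true = P) (hQ : (p ++ [false]).count false = Q)
    (α C1 C2 : ℝ) (n0 : ℕ)
    (H : ∀ ν : ℕ, n0 ≤ ν →
      (∀ m, m ≤ 3 * ν / 2 → (ν : ℝ) * (6 * d + P - Q) + (ee d P Q ν m : ℤ) - 1 ≤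
        α * ((ν : ℝ) + 1) ^ 2 + C1) ∧
      (∃ m, m ≤ 3 * ν / 2 ∧ α * ((ν : ℝ) + 1) ^ 2 - C2 * ((ν : ℝ) + 1) ≤
        (ν : ℝ) * (6 * d + P - Q) + (ee d P Q ν m : ℤ) - 1) ∧
      (∃ κ : ℂ, κ ≠ 0 ∧ ∀ m, m ≤ 3 * ν / 2 → (∀ m', m' ≤ 3 * ν / 2 → ee d P Q ν m' ≤ ee d P Q ν m) →
        cc P ν m = κ)) : Good (Cw d ++ mw (p ++ [false])) := by
  have hwr : (wr (Cw d ++ mw (p ++ [false])) : ℝ) = 6 * d + P - Q := by
    rw [wr_append, wr_Cw, wr_mw, hP, hQ]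
    push_cast; ring
  refine ⟨α, max C1 C2, n0, fun ν hν => ?_⟩
  obtain ⟨H1, ⟨m0, hm0, H2⟩, κ, hκ, H3⟩ := H ν hν
  obtain ⟨m1, hm1, a1, a2⟩ := max_exists (range (3 * ν / 2 + 1)) ⟨0, by simp⟩
    (ee d P Q ν) (cc P ν) κ hκ (fun m hm h => H3 m (by rw [mem_range] at hm; omega)
      fun m' hm' => h m' (by rw [mem_range]; omega))
  refine ⟨ee d P Q ν m1, _, a2, ?_, ?_, ?_⟩
  · refine sum_lim _ _ _ _ _ ?_ a1
    intro m hm
    have := ee_lim d p h3 ν m hm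
    rw [hP, hQ] at this
    exact this
  · rw [hwr]
    have h4 : ee d P Q ν m0 ≤ ee d P Q ν m1 := a1 m0 (by rw [mem_range]; omega)
    have h5 : (ee d P Q ν m0 : ℝ) ≤ (ee d P Q ν m1 : ℝ) := by exact_mod_cast h4
    have h6 : C2 * ((ν : ℝ) + 1) ≤ max C1 C2 * ((ν : ℝ) + 1) :=
      mul_le_mul_of_nonneg_right (le_max_right _ _) (by positivity)
    linarith
  · rw [hwr]
    rw [mem_range] at hm1
    have h4 := H1 m1 (by omega)
    have h6 := le_max_left C1 C2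
    linarith

/-- comparison with the level `ν` -/
theorem E2_nu (d P ν t : ℤ) : E2 d P ν ν - E2 d P ν (ν - t) =
    -2 * t + 2 * d * (ν * t + t + t ^ 2) + P * (t + t ^ 2) := by
  unfold E2; ring

theorem E1_nu (d P Q ν M : ℤ) : E2 d P ν ν - E1 d P Q ν (ν + M) =
    M * (2 - 2 * d * (ν + 1 - M) + P * (M + 1) + Q * (2 * ν + 1 - M)) := by
  unfold E1 E2; ring

theorem ee_low (d P Q : ℤ) (ν m : ℕ) (h : m ≤ ν) : ee d P Q ν m = E2 d P ν m := by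
  unfold ee; rw [if_pos h]

theorem ee_high (d P Q : ℤ) (ν M : ℕ) : ee d P Q ν (ν + M) = E1 d P Q ν (ν + M) := by
  unfold ee
  split_ifs with h
  · have : M = 0 := by omega
    subst this
    unfold E1 E2
    push_cast
    ring
  · push_cast; rfl

theorem neg1_par {a b : ℕ} (h : a % 2 = b % 2) (P : ℕ) : (-1 : ℂ) ^ (a * P) = (-1) ^ (b * P) := by
  have key : ∀ k : ℕ, (-1 : ℂ) ^ (k * P) = ((-1) ^ P) ^ (k % 2) := by
    intro k
    conv_lhs => rw [← Nat.div_add_mod k 2, Nat.add_mul, pow_add]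
    have e1 : 2 * (k / 2) * P = 2 * (k / 2 * P) := by ring
    rw [e1, pow_mul]
    simp only [even_two, Even.neg_pow, one_pow, one_mul]
    rw [mul_comm, pow_mul]
  rw [key a, key b, h]

theorem cc_high (P ν m : ℕ) (h1 : ν ≤ m) (h2 : m ≤ 3 * ν / 2) : cc P ν m = -(-1) ^ (ν * P) := by
  unfold cc
  split_ifs with h
  · have : m = ν := by omega
    rw [this]
  · rw [neg1_par (a := 3 * ν - 2 * m) (b := ν) (by omega)]

theorem neg1_ne (k : ℕ) : (-(-1 : ℂ) ^ k) ≠ 0 := neg_ne_zero.2 (pow_ne_zero _ (by norm_num))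

end Pool.Agent.Run7.h760
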