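import Pool.Agent.Y548.CC.QV

/-! Gaussian binomials: Pascal, the q-binomial theorem, two Vandermonde sums. -/

set_option autoImplicit false

namespace Pool.Agent.Run7.h760

open Finset Matrix
open Pool.Agent.H550R3.Jones (br brf)
open Pool.Agent.Y482.CY (sb LL UU Nz)
open Pool.Agent.Y548.CC (brf_zero brf_succ brf_ne br_ne sb_zero sb_self pascal)

/-- balanced Gaussian binomial, zero outside the triangle -/
noncomputable def gb (v : ℂ) (n k : ℕ) : ℂ := if k ≤ n then sb v n k else 0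

theorem z2 {v : ℂ} (hv : v ≠ 0) {a b c : ℤ} (h : a + b = c) : v ^ a * v ^ b = v ^ c := by
  rw [← zpow_add₀ hv, h]

theorem z22 {v : ℂ} (hv : v ≠ 0) {a b c d : ℤ} (h : a + b = c + d) :
    v ^ a * v ^ b = v ^ c * v ^ d := by
  rw [← zpow_add₀ hv, ← zpow_add₀ hv, h]

theorem nzm {v : ℂ} {m n : ℕ} (h : Nz v m) (hn : n ≤ m) : Nz v n :=
  fun l h1 h2 => h l h1 (by omega)

theorem gb_zero {v : ℂ} {n : ℕ} (h : Nz v n) : gb v n 0 = 1 := by
  simp [gb, sb_zero h]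

theorem gb_self {v : ℂ} {n : ℕ} (h : Nz v n) : gb v n n = 1 := by
  simp [gb, sb_self h]

theorem gb_gt {v : ℂ} {n k : ℕ} (h : n < k) : gb v n k = 0 := by
  simp [gb, Nat.not_le.2 h]

theorem gb_symm {v : ℂ} {n k : ℕ} (h : k ≤ n) : gb v n (n - k) = gb v n k := by
  have e : n - (n - k) = k := by omega
  simp only [gb, Nat.sub_le, if_true, h, sb, e]
  rw [mul_comm (brf v (n - k))]

theorem P2 {v : ℂ} (hv : v ≠ 0) {n : ℕ} (k : ℕ) (h : Nz v (n + 1)) :
    gb v (n + 1) (k + 1) = v ^ (-((k : ℤ) + 1)) * gb v n (k + 1) +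
      v ^ ((n : ℤ) - k) * gb v n k := by
  rcases lt_trichotomy k n with hk | hk | hk
  · obtain ⟨d, rfl⟩ : ∃ d, n = k + d + 1 := ⟨n - k - 1, by omega⟩
    obtain ⟨p1, -⟩ := pascal hv (k := k) (d := d) h
    have a1 : k + 1 ≤ k + d + 1 + 1 := by omega
    have a2 : k + 1 ≤ k + d + 1 := by omega
    have a3 : k ≤ k + d + 1 := by omega
    simp only [gb, a1, a2, a3, if_true]
    have e0 : k + d + 1 + 1 = k + d + 2 := by omega
    rw [e0]
    have h1 : v ^ ((k : ℤ) + 1) ≠ 0 := zpow_ne_zero _ hv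
    have h2 : v ^ (((k + d + 1 : ℕ) : ℤ) - k) = v ^ (-((k : ℤ) + 1)) * v ^ ((k : ℤ) + d + 2) := by
      rw [← zpow_add₀ hv]; congr 1; push_cast; ring
    have h3 : v ^ (-((k : ℤ) + 1)) * v ^ ((k : ℤ) + 1) = 1 := by
      rw [← zpow_add₀ hv]; simp
    rw [h2]
    linear_combination v ^ (-((k : ℤ) + 1)) * p1 - sb v (k + d + 2) (k + 1) * h3
  · subst hk
    rw [gb_self h, gb_gt (Nat.lt_succ_self k), gb_self (nzm h (by omega))]
    simp
  · rw [gb_gt (by omega), gb_gt (by omega), gb_gt (by omega)]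
    simp

theorem P1 {v : ℂ} (hv : v ≠ 0) {n : ℕ} (k : ℕ) (h : Nz v (n + 1)) :
    gb v (n + 1) (k + 1) = v ^ ((k : ℤ) + 1) * gb v n (k + 1) +
      v ^ ((k : ℤ) - n) * gb v n k := by
  rcases lt_trichotomy k n with hk | hk | hk
  · obtain ⟨d, rfl⟩ : ∃ d, n = k + d + 1 := ⟨n - k - 1, by omega⟩
    obtain ⟨-, p1⟩ := pascal hv (k := k) (d := d) h
    have a1 : k + 1 ≤ k + d + 1 + 1 := by omega
    have a2 : k + 1 ≤ k + d + 1 := by omega
    have a3 : k ≤ k + d + 1 := by omega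
    simp only [gb, a1, a2, a3, if_true]
    have e0 : k + d + 1 + 1 = k + d + 2 := by omega
    rw [e0]
    have h2 : v ^ ((k : ℤ) - ((k + d + 1 : ℕ) : ℤ)) =
        v ^ ((k : ℤ) + 1) * v ^ (-((k : ℤ) + d + 2)) := by
      rw [← zpow_add₀ hv]; congr 1; push_cast; ring
    have h3 : v ^ ((k : ℤ) + 1) * v ^ (-((k : ℤ) + 1)) = 1 := by
      rw [← zpow_add₀ hv]; simp
    rw [h2]
    linear_combination v ^ ((k : ℤ) + 1) * p1 - sb v (k + d + 2) (k + 1) * h3
  · subst hk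
    rw [gb_self h, gb_gt (Nat.lt_succ_self k), gb_self (nzm h (by omega))]
    simp
  · rw [gb_gt (by omega), gb_gt (by omega), gb_gt (by omega)]
    simp

/-- alternating Vandermonde sum -/
theorem AV {v : ℂ} (hv : v ≠ 0) (i : ℕ) : ∀ (m a : ℕ), i ≤ m → a ≤ m → Nz v m →
    ∑ j ∈ range (a + 1), (-1) ^ j * v ^ (((a : ℤ) + i - m - 1) * j) * gb v i j *
      gb v (m - j) (a - j) = v ^ ((a : ℤ) * i) * gb v (m - i) a := by
  induction i with
  | zero =>
    intro m a _ ha h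
    rw [sum_eq_single 0]
    · simp [gb_zero (v := v) (n := 0) (fun l h1 h2 => absurd h2 (by omega))]
    · intro j _ hj
      rw [gb_gt (Nat.pos_of_ne_zero hj)]; simp
    · simp
  | succ i ih =>
    intro m a hi ha h
    obtain ⟨m, rfl⟩ : ∃ k, m = k + 1 := ⟨m - 1, by omega⟩
    cases a with
    | zero =>
      have hm1 : m + 1 - (i + 1) = m - i := by omega
      simp [gb_zero h, gb_zero (v := v) (n := i + 1) (nzm h (by omega)), hm1,
        gb_zero (v := v) (n := m - i) (nzm h (by omega))]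
    | succ a =>
      have ih1 := ih (m + 1) (a + 1) (by omega) ha h
      have ih2 := ih m a (by omega) (by omega) (nzm h (by omega))
      have e1 : m + 1 - (i + 1) = m - i := by omega
      have e2 : m + 1 - i = m - i + 1 := by omega
      rw [e1]
      rw [e2, P1 hv a (nzm h (by omega))] at ih1
      rw [sum_range_succ'] at ih1 ⊢
      have hsplit : ∀ j ∈ range (a + 1), (-1) ^ (j + 1) *
          v ^ ((((a + 1 : ℕ) : ℤ) + ((i + 1 : ℕ) : ℤ) - ((m + 1 : ℕ) : ℤ) - 1) *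
            ((j + 1 : ℕ) : ℤ)) * gb v (i + 1) (j + 1) *
            gb v (m + 1 - (j + 1)) (a + 1 - (j + 1)) =
          (-1) ^ (j + 1) * v ^ ((((a + 1 : ℕ) : ℤ) + (i : ℤ) - ((m + 1 : ℕ) : ℤ) - 1) *
            ((j + 1 : ℕ) : ℤ)) * gb v i (j + 1) * gb v (m + 1 - (j + 1)) (a + 1 - (j + 1)) +
          (-v ^ ((a : ℤ) + 2 * i - m)) *
            ((-1) ^ j * v ^ (((a : ℤ) + i - m - 1) * j) * gb v i j * gb v (m - j) (a - j)) := by
        intro j _
        rw [P2 hv j (nzm h (by omega))]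
        have e3 : m + 1 - (j + 1) = m - j := by omega
        have e4 : a + 1 - (j + 1) = a - j := by omega
        rw [e3, e4]
        have x1 : v ^ ((((a + 1 : ℕ) : ℤ) + ((i + 1 : ℕ) : ℤ) - ((m + 1 : ℕ) : ℤ) - 1) *
            ((j + 1 : ℕ) : ℤ)) * v ^ (-((j : ℤ) + 1)) =
            v ^ ((((a + 1 : ℕ) : ℤ) + (i : ℤ) - ((m + 1 : ℕ) : ℤ) - 1) * ((j + 1 : ℕ) : ℤ)) := by
          rw [← zpow_add₀ hv]; congr 1; push_cast; ring
        have x2 : v ^ ((((a + 1 : ℕ) : ℤ) + ((i + 1 : ℕ) : ℤ) - ((m + 1 : ℕ) : ℤ) - 1) *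
            ((j + 1 : ℕ) : ℤ)) * v ^ ((i : ℤ) - j) =
            v ^ ((a : ℤ) + 2 * i - m) * v ^ (((a : ℤ) + i - m - 1) * j) := by
          rw [← zpow_add₀ hv, ← zpow_add₀ hv]; congr 1; push_cast; ring
        rw [pow_succ]
        linear_combination (-(-1) ^ j * gb v i (j + 1) * gb v (m - j) (a - j)) * x1 -
          ((-1) ^ j * gb v i j * gb v (m - j) (a - j)) * x2
      rw [sum_congr rfl hsplit, sum_add_distrib, ← mul_sum, ih2]
      simp only [Nat.cast_zero, mul_zero, zpow_zero, pow_zero, one_mul, Nat.sub_zero,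
        gb_zero (v := v) (n := i + 1) (nzm h (by omega)),
        gb_zero (v := v) (n := i) (nzm h (by omega))] at ih1 ⊢
      have x3 : v ^ (((a + 1 : ℕ) : ℤ) * (i : ℤ)) * v ^ ((a : ℤ) + 1) =
          v ^ (((a + 1 : ℕ) : ℤ) * ((i + 1 : ℕ) : ℤ)) := z2 hv (by push_cast; ring)
      have x4 : v ^ (((a + 1 : ℕ) : ℤ) * (i : ℤ)) * v ^ ((a : ℤ) - ((m - i : ℕ) : ℤ)) =
          v ^ ((a : ℤ) + 2 * i - m) * v ^ ((a : ℤ) * i) := by
        rw [← zpow_add₀ hv, ← zpow_add₀ hv]; congr 1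
        rw [Nat.cast_sub (by omega)]; push_cast; ring
      linear_combination ih1 + gb v (m - i) (a + 1) * x3 + gb v (m - i) a * x4

end Pool.Agent.Run7.h760
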