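import Pool.Agent.Run7.h760.Rep2

/-! The invariant subspace at the levels above `b - 1`. -/

set_option autoImplicit false

namespace Pool.Agent.Run7.h760

open Finset Matrix
open Pool.Agent.H550R3.Jones (br brf)
open Pool.Agent.Y482.CY (sb LL UU Nz)
open Pool.Agent.Y481.CC (LI UI CM Lt TW permL wr)

/-- Vandermonde sum -/
theorem VD {v : ℂ} (hv : v ≠ 0) (n : ℕ) : ∀ (M r : ℕ), Nz v (M + n) →
    ∑ s ∈ range (r + 1), v ^ (-(((n : ℤ) + M) * s)) * gb v M (r - s) * gb v n s =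
      v ^ (-((n : ℤ) * r)) * gb v (M + n) r := by
  induction n with
  | zero =>
    intro M r _
    rw [sum_eq_single 0]
    · simp [gb_zero (v := v) (n := 0) (fun l h1 h2 => absurd h2 (by omega))]
    · intro j _ hj
      rw [gb_gt (Nat.pos_of_ne_zero hj)]; simp
    · simp
  | succ n ih =>
    intro M r h
    cases r with
    | zero =>
      simp [gb_zero (v := v) (n := M) (nzm h (by omega)),
        gb_zero (v := v) (n := n + 1) (nzm h (by omega)),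
        gb_zero (v := v) (n := M + (n + 1)) (nzm h (by omega))]
    | succ r =>
      have ih1 := ih M (r + 1) (nzm h (by omega))
      have ih2 := ih M r (nzm h (by omega))
      have e0 : M + (n + 1) = M + n + 1 := by omega
      rw [e0, P1 hv r (nzm h (by omega))]
      rw [sum_range_succ'] at ih1 ⊢
      have hsplit : ∀ s ∈ range (r + 1),
          v ^ (-((((n + 1 : ℕ) : ℤ) + M) * ((s + 1 : ℕ) : ℤ))) * gb v M (r + 1 - (s + 1)) *
            gb v (n + 1) (s + 1) =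
          v ^ (-(((n : ℤ) + M) * ((s + 1 : ℕ) : ℤ))) * gb v M (r + 1 - (s + 1)) *
            gb v n (s + 1) +
          v ^ (-(2 * (n : ℤ) + 1 + M)) *
            (v ^ (-(((n : ℤ) + M) * s)) * gb v M (r - s) * gb v n s) := by
        intro s _
        rw [P1 hv s (nzm h (by omega))]
        have e3 : r + 1 - (s + 1) = r - s := by omega
        rw [e3]
        have x1 : v ^ (-((((n + 1 : ℕ) : ℤ) + M) * ((s + 1 : ℕ) : ℤ))) * v ^ ((s : ℤ) + 1) =
            v ^ (-(((n : ℤ) + M) * ((s + 1 : ℕ) : ℤ))) := z2 hv (by push_cast; ring)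
        have x2 : v ^ (-((((n + 1 : ℕ) : ℤ) + M) * ((s + 1 : ℕ) : ℤ))) * v ^ ((s : ℤ) - n) =
            v ^ (-(2 * (n : ℤ) + 1 + M)) * v ^ (-(((n : ℤ) + M) * s)) :=
          z22 hv (by push_cast; ring)
        linear_combination (gb v M (r - s) * gb v n (s + 1)) * x1 +
          (gb v M (r - s) * gb v n s) * x2
      rw [sum_congr rfl hsplit, sum_add_distrib, ← mul_sum, ih2]
      simp only [Nat.cast_zero, mul_zero, neg_zero, zpow_zero, one_mul, Nat.sub_zero,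
        gb_zero (v := v) (n := n + 1) (nzm h (by omega)),
        gb_zero (v := v) (n := n) (nzm h (by omega))] at ih1 ⊢
      have x3 : v ^ (-(((n + 1 : ℕ) : ℤ) * ((r + 1 : ℕ) : ℤ))) * v ^ ((r : ℤ) + 1) =
          v ^ (-((n : ℤ) * ((r + 1 : ℕ) : ℤ))) := z2 hv (by push_cast; ring)
      have x4 : v ^ (-(((n + 1 : ℕ) : ℤ) * ((r + 1 : ℕ) : ℤ))) * v ^ ((r : ℤ) - ((M + n : ℕ) : ℤ)) =
          v ^ (-(2 * (n : ℤ) + 1 + M)) * v ^ (-((n : ℤ) * r)) := z22 hv (by push_cast; ring)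
      linear_combination ih1 - gb v (M + n) (r + 1) * x3 - gb v (M + n) r * x4

/-- q-binomial theorem -/
theorem bin {v : ℂ} (hv : v ≠ 0) (n : ℕ) : ∀ (z : ℂ), Nz v n →
    ∑ k ∈ range (n + 1), gb v n k * z ^ k =
      ∏ t ∈ range n, (1 + z * v ^ ((n : ℤ) - 1 - 2 * t)) := by
  induction n with
  | zero =>
    intro z _
    simp [gb_zero (v := v) (n := 0) (fun l h1 h2 => absurd h2 (by omega))]
  | succ n ih =>
    intro z h
    have ih1 := ih (z * v ^ (-1 : ℤ)) (nzm h (by omega))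
    rw [prod_range_succ']
    have e1 : ∀ t ∈ range n, (1 + z * v ^ (((n + 1 : ℕ) : ℤ) - 1 - 2 * ((t + 1 : ℕ) : ℤ))) =
        1 + z * v ^ (-1 : ℤ) * v ^ ((n : ℤ) - 1 - 2 * t) := by
      intro t _
      rw [mul_assoc, z2 hv (show (-1 : ℤ) + ((n : ℤ) - 1 - 2 * t) =
        ((n + 1 : ℕ) : ℤ) - 1 - 2 * ((t + 1 : ℕ) : ℤ) by push_cast; ring)]
    rw [prod_congr rfl e1, ← ih1]
    have e2 : ∑ k ∈ range (n + 1 + 1), gb v (n + 1) k * z ^ k =
        ∑ k ∈ range (n + 1 + 1), gb v n k * (z * v ^ (-1 : ℤ)) ^ k +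
        ∑ k ∈ range (n + 1), z * v ^ (n : ℤ) * (gb v n k * (z * v ^ (-1 : ℤ)) ^ k) := by
      rw [sum_range_succ', sum_range_succ' (fun k => gb v n k * (z * v ^ (-1 : ℤ)) ^ k)]
      have : ∀ k ∈ range (n + 1), gb v (n + 1) (k + 1) * z ^ (k + 1) =
          gb v n (k + 1) * (z * v ^ (-1 : ℤ)) ^ (k + 1) +
          z * v ^ (n : ℤ) * (gb v n k * (z * v ^ (-1 : ℤ)) ^ k) := by
        intro k _
        rw [P2 hv k h, mul_pow, mul_pow, ← zpow_natCast (v ^ (-1 : ℤ)),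
          ← zpow_natCast (v ^ (-1 : ℤ)), ← _root_.zpow_mul, ← _root_.zpow_mul]
        have x1 : (-1 : ℤ) * ((k + 1 : ℕ) : ℤ) = -((k : ℤ) + 1) := by push_cast; ring
        have x2 : v ^ (n : ℤ) * v ^ ((-1 : ℤ) * (k : ℤ)) = v ^ ((n : ℤ) - k) := z2 hv (by ring)
        rw [x1, ← x2, pow_succ]
        ring
      rw [sum_congr rfl this, sum_add_distrib, gb_zero h,
        gb_zero (v := v) (n := n) (nzm h (by omega))]
      ring
    rw [e2, ← mul_sum, sum_range_succ, gb_gt (Nat.lt_succ_self n)]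
    have : v ^ (((n + 1 : ℕ) : ℤ) - 1 - 2 * ((0 : ℕ) : ℤ)) = v ^ (n : ℤ) := by
      congr 1; push_cast; ring
    rw [this]
    ring

/-- a zero of the q-binomial sum -/
theorem bin_zero {v : ℂ} (hv : v ≠ 0) {n : ℕ} (h : Nz v n) (c : ℤ) (t : ℕ) (ht : t < n)
    (hc : c + (n : ℤ) - 1 - 2 * t = 0) :
    ∑ k ∈ range (n + 1), (-1) ^ k * v ^ (c * k) * gb v n k = 0 := by
  have h1 := bin hv n (-v ^ c) h
  have h2 : ∏ t ∈ range n, (1 + -v ^ c * v ^ ((n : ℤ) - 1 - 2 * t)) = 0 := by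
    refine prod_eq_zero (mem_range.2 ht) ?_
    rw [neg_mul, z2 hv (show c + ((n : ℤ) - 1 - 2 * t) = 0 by linarith)]
    simp
  rw [h2] at h1
  rw [← h1]
  refine sum_congr rfl fun k _ => ?_
  rw [neg_pow (v ^ c) k, ← zpow_natCast (v ^ c), ← _root_.zpow_mul]
  ring

/-- basis of the invariant subspace; `b = l + 2 M + 1`, `m = l + 3 M` -/
noncomputable def Zm (l M : ℕ) (v : ℂ) : Matrix (Fin (l + 3 * M + 1)) (Fin (l + 1)) ℂ := fun a i =>
  if M + (i : ℕ) ≤ a then (-1) ^ ((a : ℕ) + i) *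
    v ^ (-(((a : ℕ) : ℤ) * (a : ℕ)) + ((l : ℤ) + 4 * M - 1) * (a : ℕ) + ((i : ℕ) : ℤ) * (i : ℕ) -
      ((l : ℤ) - M - 1) * (i : ℕ)) * gb v M (a - M - i) else 0

/-- the scalar -/
noncomputable def kp (l M : ℕ) (v : ℂ) : ℂ :=
  (-1) ^ M * v ^ (-((M : ℤ) * (2 * (l : ℤ) + 3 * M + 1)))

theorem kp_ne {v : ℂ} (hv : v ≠ 0) (l M : ℕ) : kp l M v ≠ 0 :=
  mul_ne_zero (pow_ne_zero _ (by norm_num)) (zpow_ne_zero _ hv)

theorem LI_Z {v : ℂ} (hv : v ≠ 0) (l M : ℕ) (h : Nz v (l + 3 * M)) :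
    LI (l + 2 * M + 1) (l + 3 * M) v * Zm l M v =
      kp l M v • (Zm l M v * LI (l + M + 1) l v) := by
  ext a i
  rw [Matrix.smul_apply, smul_eq_mul, mul_apply, mul_apply]
  have ha : (a : ℕ) ≤ l + 3 * M := by omega
  have hi : (i : ℕ) ≤ l := by omega
  -- left side
  let F : ℕ → ℂ := fun j => if j ≤ (a : ℕ) ∧ M + (i : ℕ) ≤ j then
    ((-1) ^ (a : ℕ) * (-1) ^ (i : ℕ) * v ^ (-(((a : ℕ) : ℤ) * (a : ℕ)) + (2 * (M : ℤ) - 1) * (a : ℕ)
      + ((i : ℕ) : ℤ) * (i : ℕ) - ((l : ℤ) - M - 1) * (i : ℕ))) *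
      ((-1) ^ j * v ^ ((((a : ℕ) : ℤ) - l - 2 * M - 1) * j) * gb v M (j - M - i) *
        gb v (l + 3 * M - j) (a - j)) else 0
  have h1 : ∀ j : Fin (l + 3 * M + 1), LI (l + 2 * M + 1) (l + 3 * M) v a j * Zm l M v j i =
      F j := by
    intro j
    rw [LI_gb]
    unfold Zm
    by_cases hj : (j : ℕ) ≤ a
    · by_cases hj2 : M + (i : ℕ) ≤ j
      · simp only [F, hj, hj2, and_self, if_true]
        rw [pow_add]
        have e : v ^ (-(((a : ℕ) : ℤ) * (a : ℕ)) - (2 * ((l + 2 * M + 1 : ℕ) : ℤ) -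
            2 * ((l + 3 * M : ℕ) : ℤ) - 1 - (j : ℕ)) * (a : ℕ) +
            ((j : ℕ) : ℤ) * (j : ℕ) - 2 * ((l + 3 * M : ℕ) : ℤ) * (j : ℕ)) *
            v ^ (-(((j : ℕ) : ℤ) * (j : ℕ)) + ((l : ℤ) + 4 * M - 1) * (j : ℕ) +
            ((i : ℕ) : ℤ) * (i : ℕ) - ((l : ℤ) - M - 1) * (i : ℕ)) =
            v ^ (-(((a : ℕ) : ℤ) * (a : ℕ)) + (2 * (M : ℤ) - 1) * (a : ℕ)
            + ((i : ℕ) : ℤ) * (i : ℕ) - ((l : ℤ) - M - 1) * (i : ℕ)) *
            v ^ ((((a : ℕ) : ℤ) - l - 2 * M - 1) * (j : ℕ)) := z22 hv (by push_cast; ring)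
        linear_combination ((-1) ^ (a : ℕ) * (-1) ^ (i : ℕ) * (-1) ^ (j : ℕ) *
          gb v M (j - M - i) * gb v (l + 3 * M - j) (a - j)) * e
      · simp [F, hj2]
    · simp [F, hj]
  rw [sum_congr rfl fun j _ => h1 j, Fin.sum_univ_eq_sum_range F (l + 3 * M + 1)]
  -- right side
  let G : ℕ → ℂ := fun c => if M + c ≤ (a : ℕ) ∧ (i : ℕ) ≤ c then
    ((-1) ^ (a : ℕ) * v ^ (-(((a : ℕ) : ℤ) * (a : ℕ)) + ((l : ℤ) + 4 * M - 1) * (a : ℕ)
      + ((i : ℕ) : ℤ) * (i : ℕ) - 2 * l * (i : ℕ))) *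
      (v ^ (-(((l : ℤ) + M - (i : ℕ)) * c)) * gb v M (a - M - c) * gb v (l - i) (c - i)) else 0
  have h2 : ∀ c : Fin (l + 1), Zm l M v a c * LI (l + M + 1) l v c i = G c := by
    intro c
    rw [LI_gb]
    unfold Zm
    by_cases hc : M + (c : ℕ) ≤ a
    · by_cases hc2 : (i : ℕ) ≤ c
      · simp only [G, hc, hc2, and_self, if_true]
        rw [pow_add]
        have s1 : (-1 : ℂ) ^ (c : ℕ) * (-1) ^ (c : ℕ) = 1 := by rw [← mul_pow]; simp
        have e : v ^ (-(((a : ℕ) : ℤ) * (a : ℕ)) + ((l : ℤ) + 4 * M - 1) * (a : ℕ) +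
            ((c : ℕ) : ℤ) * (c : ℕ) - ((l : ℤ) - M - 1) * (c : ℕ)) *
            v ^ (-(((c : ℕ) : ℤ) * (c : ℕ)) - (2 * ((l + M + 1 : ℕ) : ℤ) -
            2 * (l : ℤ) - 1 - (i : ℕ)) * (c : ℕ) +
            ((i : ℕ) : ℤ) * (i : ℕ) - 2 * (l : ℤ) * (i : ℕ)) =
            v ^ (-(((a : ℕ) : ℤ) * (a : ℕ)) + ((l : ℤ) + 4 * M - 1) * (a : ℕ)
            + ((i : ℕ) : ℤ) * (i : ℕ) - 2 * l * (i : ℕ)) *
            v ^ (-(((l : ℤ) + M - (i : ℕ)) * (c : ℕ))) := z22 hv (by push_cast; ring)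
        calc _ = ((-1 : ℂ) ^ (c : ℕ) * (-1) ^ (c : ℕ)) * ((-1) ^ (a : ℕ) *
              gb v M (a - M - c) * gb v (l - i) (c - i)) *
              (v ^ (-(((a : ℕ) : ℤ) * (a : ℕ)) + ((l : ℤ) + 4 * M - 1) * (a : ℕ) +
            ((c : ℕ) : ℤ) * (c : ℕ) - ((l : ℤ) - M - 1) * (c : ℕ)) *
            v ^ (-(((c : ℕ) : ℤ) * (c : ℕ)) - (2 * ((l + M + 1 : ℕ) : ℤ) -
            2 * (l : ℤ) - 1 - (i : ℕ)) * (c : ℕ) +
            ((i : ℕ) : ℤ) * (i : ℕ) - 2 * (l : ℤ) * (i : ℕ))) := by ring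
          _ = _ := by rw [e, s1]; ring
      · simp [G, hc2]
    · simp [G, hc]
  rw [sum_congr rfl fun c _ => h2 c, Fin.sum_univ_eq_sum_range G (l + 1)]
  by_cases hai : M + (i : ℕ) ≤ a
  · -- evaluate both sums
    obtain ⟨r, hr⟩ : ∃ r, (a : ℕ) = M + i + r := ⟨a - M - i, by omega⟩
    have hF : ∑ j ∈ range (l + 3 * M + 1), F j = ∑ t ∈ range (r + 1), F (M + i + t) := by
      have := Pool.Agent.Y548.CC.shift F (l + 3 * M) (M + i) a (by omega) ha (by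
        intro j hj
        simp only [F]
        rw [if_neg (by omega)])
      rw [this]
      congr 2
      omega
    have hF2 : ∑ t ∈ range (r + 1), F (M + i + t) =
        ((-1) ^ (a : ℕ) * (-1) ^ (i : ℕ) * v ^ (-(((a : ℕ) : ℤ) * (a : ℕ)) +
        (2 * (M : ℤ) - 1) * (a : ℕ)
        + ((i : ℕ) : ℤ) * (i : ℕ) - ((l : ℤ) - M - 1) * (i : ℕ))) *
        ((-1) ^ M * (-1) ^ (i : ℕ) * v ^ ((((a : ℕ) : ℤ) - l - 2 * M - 1) * ((M : ℤ) + (i : ℕ)))) *
        (v ^ ((r : ℤ) * M) * gb v (l + M - i) r) := by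
      have key := AV hv M (l + 2 * M - i) r (by omega) (by omega) (nzm h (by omega))
      have e0 : l + 2 * M - (i : ℕ) - M = l + M - i := by omega
      rw [e0] at key
      rw [← key, mul_sum]
      refine sum_congr rfl fun t ht => ?_
      rw [mem_range] at ht
      simp only [F]
      rw [if_pos (by omega)]
      have e1 : M + (i : ℕ) + t - M - i = t := by omega
      have e2 : l + 3 * M - (M + (i : ℕ) + t) = l + 2 * M - i - t := by omega
      have e3 : (a : ℕ) - (M + i + t) = r - t := by omega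
      rw [e1, e2, e3, pow_add, pow_add]
      have e4 : v ^ ((((a : ℕ) : ℤ) - l - 2 * M - 1) * ((M + (i : ℕ) + t : ℕ) : ℤ)) =
          v ^ ((((a : ℕ) : ℤ) - l - 2 * M - 1) * ((M : ℤ) + (i : ℕ))) *
          v ^ (((r : ℤ) + M - ((l + 2 * M - (i : ℕ) : ℕ) : ℤ) - 1) * t) := by
        rw [← zpow_add₀ hv]
        congr 1
        have c1 : ((l + 2 * M - (i : ℕ) : ℕ) : ℤ) = (l : ℤ) + 2 * M - (i : ℕ) := by omega
        have c2 : ((a : ℕ) : ℤ) = (M : ℤ) + (i : ℕ) + r := by omega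
        rw [c1, c2]
        push_cast
        ring
      rw [e4]
      ring
    have hG : ∑ c ∈ range (l + 1), G c = ∑ s ∈ range (r + 1),
        ((-1) ^ (a : ℕ) * v ^ (-(((a : ℕ) : ℤ) * (a : ℕ)) + ((l : ℤ) + 4 * M - 1) * (a : ℕ)
        + ((i : ℕ) : ℤ) * (i : ℕ) - 2 * l * (i : ℕ))) *
        v ^ (-(((l : ℤ) + M - (i : ℕ)) * (i : ℕ))) *
        (v ^ (-((((l - (i : ℕ) : ℕ) : ℤ) + M) * s)) * gb v M (r - s) * gb v (l - i) s) := by
      have g1 : ∑ c ∈ range (l + 1), G c = ∑ c ∈ range (l + r + 1), G c := by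
        refine sum_subset (range_subset_range.2 (by omega)) ?_
        intro c _ hc
        rw [mem_range] at hc
        simp only [G]
        split_ifs
        · rw [gb_gt (show l - (i : ℕ) < c - i by omega)]; ring
        · rfl
      have g2 := Pool.Agent.Y548.CC.shift G (l + r) i (i + r) (by omega) (by omega) (by
        intro c hc
        simp only [G]
        rw [if_neg (by omega)])
      rw [g1, g2]
      have e0 : (i : ℕ) + r - i + 1 = r + 1 := by omega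
      rw [e0]
      refine sum_congr rfl fun s hs => ?_
      rw [mem_range] at hs
      simp only [G]
      rw [if_pos (by omega)]
      have e1 : (i : ℕ) + s - i = s := by omega
      have e2 : (a : ℕ) - M - (i + s) = r - s := by omega
      rw [e1, e2]
      have e4 : v ^ (-(((l : ℤ) + M - (i : ℕ)) * (((i : ℕ) + s : ℕ) : ℤ))) =
          v ^ (-(((l : ℤ) + M - (i : ℕ)) * (i : ℕ))) *
          v ^ (-((((l - (i : ℕ) : ℕ) : ℤ) + M) * s)) := by
        rw [← zpow_add₀ hv]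
        congr 1
        have c1 : ((l - (i : ℕ) : ℕ) : ℤ) = (l : ℤ) - (i : ℕ) := by omega
        rw [c1]
        push_cast
        ring
      rw [e4]
      ring
    have key2 := VD hv (l - i) M r (nzm h (by omega))
    rw [hF, hF2, hG, ← mul_sum, key2]
    have e0 : M + (l - (i : ℕ)) = l + M - i := by omega
    rw [e0]
    unfold kp
    have s1 : (-1 : ℂ) ^ (i : ℕ) * (-1) ^ (i : ℕ) = 1 := by rw [← mul_pow]; simp
    have c1 : ((l - (i : ℕ) : ℕ) : ℤ) = (l : ℤ) - (i : ℕ) := by omega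
    have c2 : ((a : ℕ) : ℤ) = (M : ℤ) + (i : ℕ) + r := by omega
    rw [c1, c2]
    have e : v ^ (-(((M : ℤ) + (i : ℕ) + r) * ((M : ℤ) + (i : ℕ) + r)) +
        (2 * (M : ℤ) - 1) * ((M : ℤ) + (i : ℕ) + r)
        + ((i : ℕ) : ℤ) * (i : ℕ) - ((l : ℤ) - M - 1) * (i : ℕ)) *
        v ^ ((((M : ℤ) + (i : ℕ) + r) - l - 2 * M - 1) * ((M : ℤ) + (i : ℕ))) *
        v ^ ((r : ℤ) * M) =
        v ^ (-((M : ℤ) * (2 * (l : ℤ) + 3 * M + 1))) *
        v ^ (-(((M : ℤ) + (i : ℕ) + r) * ((M : ℤ) + (i : ℕ) + r)) +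
        ((l : ℤ) + 4 * M - 1) * ((M : ℤ) + (i : ℕ) + r)
        + ((i : ℕ) : ℤ) * (i : ℕ) - 2 * l * (i : ℕ)) *
        v ^ (-(((l : ℤ) + M - (i : ℕ)) * (i : ℕ))) *
        v ^ (-(((l : ℤ) - (i : ℕ)) * r)) := by
      rw [← zpow_add₀ hv, ← zpow_add₀ hv, ← zpow_add₀ hv, ← zpow_add₀ hv, ← zpow_add₀ hv]
      congr 1
      ring
    calc _ = ((-1 : ℂ) ^ (i : ℕ) * (-1) ^ (i : ℕ)) * ((-1) ^ (a : ℕ) * (-1) ^ M *
        gb v (l + M - i) r) * (v ^ (-(((M : ℤ) + (i : ℕ) + r) * ((M : ℤ) + (i : ℕ) + r)) +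
        (2 * (M : ℤ) - 1) * ((M : ℤ) + (i : ℕ) + r)
        + ((i : ℕ) : ℤ) * (i : ℕ) - ((l : ℤ) - M - 1) * (i : ℕ)) *
        v ^ ((((M : ℤ) + (i : ℕ) + r) - l - 2 * M - 1) * ((M : ℤ) + (i : ℕ))) *
        v ^ ((r : ℤ) * M)) := by ring
      _ = _ := by rw [e, s1]; ring
  · have hF : ∑ j ∈ range (l + 3 * M + 1), F j = 0 := by
      refine sum_eq_zero fun j _ => ?_
      simp only [F]
      rw [if_neg (by omega)]
    have hG : ∑ c ∈ range (l + 1), G c = 0 := by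
      refine sum_eq_zero fun j _ => ?_
      simp only [G]
      rw [if_neg (by omega)]
    rw [hF, hG, mul_zero]

end Pool.Agent.Run7.h760
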