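import Pool.Agent.Run7.h760.Reg1

/-! The letters on the invariant subspace. -/

set_option autoImplicit false

namespace Pool.Agent.Run7.h760

open Finset Matrix
open Pool.Agent.H550R3.Jones (br brf)
open Pool.Agent.Y482.CY (sb LL UU Nz)
open Pool.Agent.Y481.CC (LI UI CM Lt TW permL wr)

theorem Dh_Z {v : ℂ} (hv : v ≠ 0) (l M : ℕ) :
    Dh (l + 2 * M + 1) (l + 3 * M) v * Zm l M v =
      kp l M v ^ 3 • (Zm l M v * Dh (l + M + 1) l v) := by
  ext a i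
  rw [Matrix.smul_apply, smul_eq_mul]
  have ha : (a : ℕ) ≤ l + 3 * M := by omega
  have hi : (i : ℕ) ≤ l := by omega
  have h1 : (Zm l M v * Dh (l + M + 1) l v) a i = Zm l M v a (Fin.rev i) *
      v ^ (-(2 * (((l + M + 1 : ℕ) : ℤ) - 1) * l) -
        (2 * ((l + M + 1 : ℕ) : ℤ) - 2 * l) * ((l : ℤ) - (i : ℕ))) := by
    rw [mul_apply, sum_eq_single (Fin.rev i)]
    · unfold Dh
      have : (Fin.rev i : ℕ) + (i : ℕ) = l := by rw [rev_val]; omega
      rw [if_pos this]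
      have h2 : ((Fin.rev i : ℕ) : ℤ) = (l : ℤ) - (i : ℕ) := by
        rw [rev_val]; omega
      rw [h2]
    · intro j _ hj
      unfold Dh
      rw [if_neg, mul_zero]
      intro h
      apply hj
      apply Fin.ext
      rw [rev_val]; omega
    · simp
  have h2 : (Dh (l + 2 * M + 1) (l + 3 * M) v * Zm l M v) a i =
      v ^ (-(2 * (((l + 2 * M + 1 : ℕ) : ℤ) - 1) * ((l + 3 * M : ℕ) : ℤ)) -
        (2 * ((l + 2 * M + 1 : ℕ) : ℤ) - 2 * ((l + 3 * M : ℕ) : ℤ)) * (a : ℕ)) *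
        Zm l M v (Fin.rev a) i := by
    rw [mul_apply, sum_eq_single (Fin.rev a)]
    · unfold Dh
      have : (a : ℕ) + (Fin.rev a : ℕ) = l + 3 * M := by rw [rev_val]; omega
      rw [if_pos this]
    · intro j _ hj
      unfold Dh
      rw [if_neg, zero_mul]
      intro h
      apply hj
      apply Fin.ext
      rw [rev_val]; omega
    · simp
  rw [h1, h2]
  unfold Zm kp
  rw [rev_val, rev_val]
  by_cases hc : M + (i : ℕ) ≤ l + 3 * M - a
  · by_cases hc2 : M + (l - (i : ℕ)) ≤ a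
    · rw [if_pos hc, if_pos hc2]
      have g1 : gb v M (l + 3 * M - a - M - i) = gb v M (a - M - (l - i)) := by
        have : l + 3 * M - (a : ℕ) - M - i = M - (a - M - (l - i)) := by omega
        rw [this, gb_symm (by omega)]
      rw [g1]
      have c1 : ((l + 3 * M - (a : ℕ) : ℕ) : ℤ) = (l : ℤ) + 3 * M - (a : ℕ) := by omega
      have c2 : ((l - (i : ℕ) : ℕ) : ℤ) = (l : ℤ) - (i : ℕ) := by omega
      rw [c1, c2]
      have s1 : (-1 : ℂ) ^ (l + 3 * M - (a : ℕ) + i) = ((-1) ^ M) ^ 3 *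
          (-1) ^ ((a : ℕ) + (l - i)) := by
        rw [← pow_mul, ← pow_add]
        have e1 : M * 3 + ((a : ℕ) + (l - i)) + (l + 3 * M - a + i) = 2 * (l + 3 * M) := by omega
        have e2 : (-1 : ℂ) ^ (M * 3 + ((a : ℕ) + (l - i))) * (-1) ^ (l + 3 * M - (a : ℕ) + i) = 1 := by
          rw [← pow_add, e1, pow_mul]; simp
        have e3 : (-1 : ℂ) ^ (M * 3 + ((a : ℕ) + (l - i))) *
            (-1) ^ (M * 3 + ((a : ℕ) + (l - i))) = 1 := by
          rw [← mul_pow]; simp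
        have e4 : (-1 : ℂ) ^ (M * 3 + ((a : ℕ) + (l - i))) ≠ 0 :=
          pow_ne_zero _ (by norm_num)
        apply mul_left_cancel₀ e4
        rw [e2, e3]
      rw [s1]
      have e : v ^ (-(2 * (((l + 2 * M + 1 : ℕ) : ℤ) - 1) * ((l + 3 * M : ℕ) : ℤ)) -
          (2 * ((l + 2 * M + 1 : ℕ) : ℤ) - 2 * ((l + 3 * M : ℕ) : ℤ)) * (a : ℕ)) *
          v ^ (-(((l : ℤ) + 3 * M - (a : ℕ)) * ((l : ℤ) + 3 * M - (a : ℕ))) +
            ((l : ℤ) + 4 * M - 1) * ((l : ℤ) + 3 * M - (a : ℕ)) + ((i : ℕ) : ℤ) * (i : ℕ) -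
            ((l : ℤ) - M - 1) * (i : ℕ)) =
          (v ^ (-((M : ℤ) * (2 * (l : ℤ) + 3 * M + 1)))) ^ 3 *
          v ^ (-(((a : ℕ) : ℤ) * (a : ℕ)) + ((l : ℤ) + 4 * M - 1) * (a : ℕ) +
            ((l : ℤ) - (i : ℕ)) * ((l : ℤ) - (i : ℕ)) - ((l : ℤ) - M - 1) * ((l : ℤ) - (i : ℕ))) *
          v ^ (-(2 * (((l + M + 1 : ℕ) : ℤ) - 1) * l) -
            (2 * ((l + M + 1 : ℕ) : ℤ) - 2 * l) * ((l : ℤ) - (i : ℕ))) := by
        rw [← zpow_natCast (v ^ (-((M : ℤ) * (2 * (l : ℤ) + 3 * M + 1)))), ← _root_.zpow_mul,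
          ← zpow_add₀ hv, ← zpow_add₀ hv, ← zpow_add₀ hv]
        congr 1
        push_cast
        ring
      calc _ = (((-1) ^ M) ^ 3 * (-1) ^ ((a : ℕ) + (l - i)) * gb v M (a - M - (l - i))) *
          (v ^ (-(2 * (((l + 2 * M + 1 : ℕ) : ℤ) - 1) * ((l + 3 * M : ℕ) : ℤ)) -
          (2 * ((l + 2 * M + 1 : ℕ) : ℤ) - 2 * ((l + 3 * M : ℕ) : ℤ)) * (a : ℕ)) *
          v ^ (-(((l : ℤ) + 3 * M - (a : ℕ)) * ((l : ℤ) + 3 * M - (a : ℕ))) +
            ((l : ℤ) + 4 * M - 1) * ((l : ℤ) + 3 * M - (a : ℕ)) + ((i : ℕ) : ℤ) * (i : ℕ) -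
            ((l : ℤ) - M - 1) * (i : ℕ))) := by ring
        _ = _ := by rw [e]; ring
    · rw [if_pos hc, if_neg hc2, gb_gt (by omega)]
      ring
  · by_cases hc2 : M + (l - (i : ℕ)) ≤ a
    · rw [if_neg hc, if_pos hc2, gb_gt (by omega)]
      ring
    · rw [if_neg hc, if_neg hc2]
      ring

theorem sc_kp {v : ℂ} (hv : v ≠ 0) (l M : ℕ) :
    sc (l + 2 * M + 1) (l + 3 * M) v = kp l M v ^ 6 * sc (l + M + 1) l v := by
  unfold sc kp
  rw [mul_pow, ← pow_mul, mul_comm M 6, pow_mul]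
  norm_num
  rw [← zpow_natCast, ← _root_.zpow_neg, ← _root_.zpow_neg, ← _root_.zpow_neg, ← _root_.zpow_mul,
    ← zpow_add₀ hv]
  congr 1
  push_cast
  ring

theorem UU_Z {v : ℂ} (hv : v ≠ 0) (l M : ℕ) (h : Nz v (l + 3 * M)) :
    UU (l + 2 * M + 1) (l + 3 * M) v * Zm l M v =
      kp l M v • (Zm l M v * UU (l + M + 1) l v) := by
  have hs := sc_ne hv (l + 2 * M + 1) (l + 3 * M)
  have h1 : sc (l + 2 * M + 1) (l + 3 * M) v • Zm l M v =
      kp l M v ^ 3 • (Dh (l + 2 * M + 1) (l + 3 * M) v * Zm l M v * Dh (l + M + 1) l v) := by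
    calc sc (l + 2 * M + 1) (l + 3 * M) v • Zm l M v =
        Dh (l + 2 * M + 1) (l + 3 * M) v * (Dh (l + 2 * M + 1) (l + 3 * M) v * Zm l M v) := by
          rw [← Matrix.mul_assoc, Dh_Dh hv, Matrix.smul_mul, Matrix.one_mul]
      _ = Dh (l + 2 * M + 1) (l + 3 * M) v *
          (kp l M v ^ 3 • (Zm l M v * Dh (l + M + 1) l v)) := by rw [Dh_Z hv]
      _ = _ := by rw [Matrix.mul_smul, Matrix.mul_assoc]
  have h2 : sc (l + 2 * M + 1) (l + 3 * M) v •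
      (UU (l + 2 * M + 1) (l + 3 * M) v * Zm l M v) =
      kp l M v ^ 4 • (Dh (l + 2 * M + 1) (l + 3 * M) v * Zm l M v *
        (LI (l + M + 1) l v * Dh (l + M + 1) l v)) := by
    rw [← Matrix.mul_smul, h1, Matrix.mul_smul]
    have e2 : UU (l + 2 * M + 1) (l + 3 * M) v *
        (Dh (l + 2 * M + 1) (l + 3 * M) v * Zm l M v * Dh (l + M + 1) l v) =
        Dh (l + 2 * M + 1) (l + 3 * M) v * (LI (l + 2 * M + 1) (l + 3 * M) v * Zm l M v) *
          Dh (l + M + 1) l v := by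
      simp only [← Matrix.mul_assoc]
      rw [UU_Dh hv]
    rw [e2, LI_Z hv l M h, Matrix.mul_smul, Matrix.smul_mul, smul_smul, ← pow_succ]
    simp only [Matrix.mul_assoc]
  have h3 : sc (l + 2 * M + 1) (l + 3 * M) v •
      (UU (l + 2 * M + 1) (l + 3 * M) v * Zm l M v) =
      sc (l + 2 * M + 1) (l + 3 * M) v • (kp l M v • (Zm l M v * UU (l + M + 1) l v)) := by
    rw [h2, LI_Dh hv _ _ (nzm h (by omega)), ← Matrix.mul_assoc, smul_smul,
      mul_comm (sc (l + 2 * M + 1) (l + 3 * M) v),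
      ← smul_smul, ← Matrix.smul_mul (sc (l + 2 * M + 1) (l + 3 * M) v), h1, Matrix.smul_mul,
      smul_smul, ← pow_succ']
  exact smul_right_injective _ hs h3

theorem inv_Z {v : ℂ} (hv : v ≠ 0) (l M : ℕ)
    (A B : Matrix (Fin (l + 3 * M + 1)) (Fin (l + 3 * M + 1)) ℂ)
    (A' B' : Matrix (Fin (l + 1)) (Fin (l + 1)) ℂ) (h1 : B * A = 1) (h2 : A' * B' = 1)
    (h3 : A * Zm l M v = kp l M v • (Zm l M v * A')) :
    B * Zm l M v = (kp l M v)⁻¹ • (Zm l M v * B') := by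
  have hk := kp_ne hv l M
  have e1 : Zm l M v = kp l M v • (B * Zm l M v * A') := by
    calc Zm l M v = B * A * Zm l M v := by rw [h1, Matrix.one_mul]
      _ = B * (A * Zm l M v) := by rw [Matrix.mul_assoc]
      _ = _ := by rw [h3, Matrix.mul_smul, Matrix.mul_assoc]
  have e2 : Zm l M v * B' = kp l M v • (B * Zm l M v) := by
    calc Zm l M v * B' = kp l M v • (B * Zm l M v * A') * B' := by rw [← e1]
      _ = _ := by rw [Matrix.smul_mul, Matrix.mul_assoc, h2, Matrix.mul_one]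
  rw [e2, smul_smul, inv_mul_cancel₀ hk, one_smul]

theorem CM_Z {v : ℂ} (hv : v ≠ 0) (l M : ℕ) (h : Nz v (l + 3 * M)) (g : Lt) :
    CM (l + 2 * M + 1) (l + 3 * M) v g * Zm l M v =
      kp l M v ^ (if g.2 then (1 : ℤ) else -1) • (Zm l M v * CM (l + M + 1) l v g) := by
  obtain ⟨a1, a2, a3, a4⟩ := Pool.Agent.Y548.CC.lui v hv (l + 2 * M + 1) (l + 3 * M) h
  obtain ⟨b1, b2, b3, b4⟩ := Pool.Agent.Y548.CC.lui v hv (l + M + 1) l (nzm h (by omega))
  obtain ⟨c, d⟩ := g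
  cases c <;> cases d
  · have := inv_Z hv l M _ _ _ _ a1 b2 (LI_Z hv l M h)
    simpa [CM] using this
  · simpa [CM] using LI_Z hv l M h
  · have := inv_Z hv l M _ _ _ _ a4 b3 (UU_Z hv l M h)
    simpa [CM] using this
  · simpa [CM] using UU_Z hv l M h

theorem Mw_Z {v : ℂ} (hv : v ≠ 0) (l M : ℕ) (h : Nz v (l + 3 * M)) (w : List Lt) :
    Mw (l + 2 * M + 1) (l + 3 * M) v w * Zm l M v =
      kp l M v ^ (wr w) • (Zm l M v * Mw (l + M + 1) l v w) := by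
  induction w with
  | nil => simp [Mw_nil, wr]
  | cons g w ih =>
    rw [Mw_cons, Mw_cons, Matrix.mul_assoc, ih, Matrix.mul_smul, ← Matrix.mul_assoc,
      CM_Z hv l M h g, wr_cons, zpow_add₀ (kp_ne hv l M), Matrix.smul_mul, smul_smul,
      Matrix.mul_assoc, mul_comm (kp l M v ^ wr w)]

end Pool.Agent.Run7.h760
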