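import Pool.Agent.Run7.h760.Reg2

/-! The quotient by the invariant subspace has trace zero for 3-cycles. -/

set_option autoImplicit false

namespace Pool.Agent.Run7.h760

open Finset Matrix
open Pool.Agent.H550R3.Jones (br brf)
open Pool.Agent.Y482.CY (sb LL UU Nz)
open Pool.Agent.Y481.CC (LI UI CM Lt TW permL wr)

/-! ### linear algebra -/

theorem linv {m n : Type} [Fintype m] [Fintype n] [DecidableEq m] [DecidableEq n]
    (A : Matrix n m ℂ) (h : ∀ x, A *ᵥ x = 0 → x = 0) : ∃ B : Matrix m n ℂ, B * A = 1 := by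
  have hk : LinearMap.ker (Matrix.toLin' A) = ⊥ := by
    rw [LinearMap.ker_eq_bot']
    intro x hx
    exact h x (by simpa using hx)
  obtain ⟨g, hg⟩ := LinearMap.exists_leftInverse_of_injective _ hk
  refine ⟨LinearMap.toMatrix' g, ?_⟩
  have h1 : LinearMap.toMatrix' (g ∘ₗ Matrix.toLin' A) = LinearMap.toMatrix' g * A := by
    rw [LinearMap.toMatrix'_comp, LinearMap.toMatrix'_toLin']
  rw [← h1, hg, LinearMap.toMatrix'_id]

theorem tr_split {K Q L : Type} [Fintype K] [Fintype Q] [Fintype L] [DecidableEq K]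
    [DecidableEq Q] [DecidableEq L] (e : K ≃ Q ⊕ L) (F : Matrix Q K ℂ) (Z : Matrix K L ℂ)
    (S : Matrix K Q ℂ) (T0 : Matrix L K ℂ) (h1 : F * S = 1) (h2 : T0 * Z = 1) (h3 : F * Z = 0)
    (A : Matrix K K ℂ) (Ω : Matrix Q Q ℂ) (A' : Matrix L L ℂ) (h4 : F * A = Ω * F)
    (h5 : A * Z = Z * A') : A.trace = Ω.trace + A'.trace := by
  set T : Matrix L K ℂ := T0 - T0 * S * F with hT
  have h6 : T * Z = 1 := by
    rw [hT, Matrix.sub_mul, h2, Matrix.mul_assoc (T0 * S), h3, Matrix.mul_zero, sub_zero]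
  have h7 : T * S = 0 := by
    rw [hT, Matrix.sub_mul, Matrix.mul_assoc (T0 * S), h1, Matrix.mul_one, sub_self]
  have h8 : fromRows F T * fromCols S Z = 1 := by
    rw [fromRows_mul_fromCols, h1, h3, h6, h7, fromBlocks_one]
  have h9 := (fromCols_mul_fromRows_eq_one_comm e S Z F T).2 h8
  rw [fromCols_mul_fromRows] at h9
  calc A.trace = (A * (S * F + Z * T)).trace := by rw [h9, Matrix.mul_one]
    _ = (A * S * F).trace + (A * Z * T).trace := by
      rw [Matrix.mul_add, Matrix.trace_add, Matrix.mul_assoc, Matrix.mul_assoc]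
    _ = (F * A * S).trace + (T * (Z * A')).trace := by
      rw [Matrix.trace_mul_comm, ← Matrix.mul_assoc, h5, Matrix.trace_mul_comm (Z * A')]
    _ = Ω.trace + A'.trace := by
      rw [h4, Matrix.mul_assoc, h1, Matrix.mul_one, ← Matrix.mul_assoc, h6, Matrix.one_mul]

/-! ### the functionals -/

/-- the functionals of the middle strand -/
noncomputable def ps (l M : ℕ) (v : ℂ) (i j : ℕ) : ℂ :=
  v ^ ((j : ℤ) * j - ((l : ℤ) + 5 * M - 2 - 2 * i) * j)

/-- the functionals -/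
noncomputable def Fm (l M : ℕ) (v : ℂ) : Matrix (Fin 3 × Fin M) (Fin (l + 3 * M + 1)) ℂ :=
  fun p j => if p.1 = 0 then (if (j : ℕ) = l + 2 * M + 1 + p.2 then 1 else 0)
    else if p.1 = 1 then ps l M v p.2 j
    else (if (j : ℕ) = p.2 then 1 else 0)

/-- the span of a block of functionals -/
def Inb (l M : ℕ) (v : ℂ) (p : Fin 3) (r : Fin (l + 3 * M + 1) → ℂ) : Prop :=
  ∃ c : Fin M → ℂ, ∀ j, r j = ∑ i, c i * Fm l M v (p, i) j

theorem inb0 (l M : ℕ) (v : ℂ) (r : Fin (l + 3 * M + 1) → ℂ)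
    (h : ∀ j : Fin (l + 3 * M + 1), (j : ℕ) < l + 2 * M + 1 → r j = 0) : Inb l M v 0 r := by
  refine ⟨fun i => r ⟨l + 2 * M + 1 + i, by omega⟩, fun j => ?_⟩
  simp only [Fm, if_true, mul_ite, mul_one, mul_zero]
  rcases Nat.lt_or_ge (j : ℕ) (l + 2 * M + 1) with hj | hj
  · rw [h j hj]
    symm
    refine sum_eq_zero fun i _ => ?_
    rw [if_neg (by omega)]
  · rw [sum_eq_single (⟨(j : ℕ) - (l + 2 * M + 1), by omega⟩ : Fin M)]
    · have e : (j : ℕ) = l + 2 * M + 1 + ((j : ℕ) - (l + 2 * M + 1)) := by omega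
      rw [if_pos e]
      congr 1
      exact Fin.ext e
    · intro i _ hi
      rw [if_neg]
      intro h2
      apply hi
      apply Fin.ext
      simp only
      omega
    · simp

theorem inb2 (l M : ℕ) (v : ℂ) (r : Fin (l + 3 * M + 1) → ℂ)
    (h : ∀ j : Fin (l + 3 * M + 1), M ≤ (j : ℕ) → r j = 0) : Inb l M v 2 r := by
  refine ⟨fun i => r ⟨i, by omega⟩, fun j => ?_⟩
  have n1 : (2 : Fin 3) ≠ 0 := by decide
  have n2 : (2 : Fin 3) ≠ 1 := by decide
  simp only [Fm, n1, n2, if_false, mul_ite, mul_one, mul_zero]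
  rcases Nat.lt_or_ge (j : ℕ) M with hj | hj
  · rw [sum_eq_single (⟨(j : ℕ), hj⟩ : Fin M)]
    · rw [if_pos rfl]
    · intro i _ hi
      rw [if_neg]
      intro h2
      apply hi
      apply Fin.ext
      exact h2.symm
    · simp
  · rw [h j hj]
    symm
    refine sum_eq_zero fun i _ => ?_
    rw [if_neg (by omega)]

/-- `A` permutes the blocks -/
def BP (l M : ℕ) (v : ℂ) (σ : Equiv.Perm (Fin 3))
    (A : Matrix (Fin (l + 3 * M + 1)) (Fin (l + 3 * M + 1)) ℂ) : Prop :=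
  ∀ p r, Inb l M v p r → Inb l M v (σ p) (r ᵥ* A)

theorem BP.mul {l M : ℕ} {v : ℂ} {σ τ : Equiv.Perm (Fin 3)}
    {A B : Matrix (Fin (l + 3 * M + 1)) (Fin (l + 3 * M + 1)) ℂ} (h1 : BP l M v σ A)
    (h2 : BP l M v τ B) : BP l M v (τ * σ) (A * B) := by
  intro p r hr
  rw [← Matrix.vecMul_vecMul]
  exact h2 _ _ (h1 _ _ hr)

theorem Inb.smul {l M : ℕ} {v : ℂ} {p : Fin 3} {r : Fin (l + 3 * M + 1) → ℂ}
    (h : Inb l M v p r) (c : ℂ) : Inb l M v p (c • r) := by
  obtain ⟨d, hd⟩ := h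
  refine ⟨fun i => c * d i, fun j => ?_⟩
  rw [Pi.smul_apply, hd j, smul_eq_mul, mul_sum]
  exact sum_congr rfl fun i _ => by ring

theorem BP.smul {l M : ℕ} {v : ℂ} {σ : Equiv.Perm (Fin 3)}
    {A : Matrix (Fin (l + 3 * M + 1)) (Fin (l + 3 * M + 1)) ℂ} (h1 : BP l M v σ A) (c : ℂ) :
    BP l M v σ (c • A) := by
  intro p r hr
  rw [Matrix.vecMul_smul]
  exact (h1 _ _ hr).smul c

theorem BP.one (l M : ℕ) (v : ℂ) : BP l M v 1 1 := by
  intro p r hr
  rw [Matrix.vecMul_one]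
  exact hr

/-- enough to check a block on its functionals -/
theorem inb_rows {l M : ℕ} {v : ℂ} {p q : Fin 3}
    {A : Matrix (Fin (l + 3 * M + 1)) (Fin (l + 3 * M + 1)) ℂ}
    (h : ∀ i, Inb l M v q (Fm l M v (p, i) ᵥ* A)) (r : Fin (l + 3 * M + 1) → ℂ)
    (hr : Inb l M v p r) : Inb l M v q (r ᵥ* A) := by
  obtain ⟨c, hc⟩ := hr
  choose d hd using h
  refine ⟨fun k => ∑ i, c i * d i k, fun j => ?_⟩
  have h1 : (r ᵥ* A) j = ∑ i, c i * (Fm l M v (p, i) ᵥ* A) j := by
    simp only [Matrix.vecMul, dotProduct, mul_sum]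
    rw [sum_comm]
    refine sum_congr rfl fun k _ => ?_
    rw [hc k, sum_mul]
    exact sum_congr rfl fun i _ => by ring
  rw [h1]
  simp only [hd, mul_sum, sum_mul]
  rw [sum_comm]
  exact sum_congr rfl fun k _ => sum_congr rfl fun i _ => by ring

/-- independence of the middle functionals -/
theorem ps_indep {v : ℂ} (hv : v ≠ 0) (l M : ℕ) (h : Nz v M) (c : Fin M → ℂ)
    (hc : ∀ j : Fin M, ∑ i : Fin M, c i * ps l M v i (M + j) = 0) : c = 0 := by
  have hinj : Function.Injective fun j : Fin M => v ^ (2 * ((M : ℤ) + (j : ℕ))) := by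
    have key : ∀ j j' : Fin M, (j : ℕ) < j' →
        v ^ (2 * ((M : ℤ) + (j : ℕ))) ≠ v ^ (2 * ((M : ℤ) + (j' : ℕ))) := by
      intro j j' hjj h2
      have h3 := h ((j' : ℕ) - j) (by omega) (by omega)
      apply h3
      unfold br
      rw [sub_eq_zero]
      have e1 : v ^ (2 * ((M : ℤ) + (j' : ℕ))) =
          v ^ (((j' : ℕ) - (j : ℕ) : ℕ) : ℤ) * v ^ (2 * (M : ℤ) + (j : ℕ) + (j' : ℕ)) := by
        rw [← zpow_add₀ hv]; congr 1; omega
      have e2 : v ^ (2 * ((M : ℤ) + (j : ℕ))) =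
          v ^ (-(((j' : ℕ) - (j : ℕ) : ℕ) : ℤ)) * v ^ (2 * (M : ℤ) + (j : ℕ) + (j' : ℕ)) := by
        rw [← zpow_add₀ hv]; congr 1; omega
      rw [e1, e2] at h2
      exact (mul_right_cancel₀ (zpow_ne_zero _ hv) h2).symm
    intro j j' hjj
    by_contra hne
    rcases Nat.lt_or_gt_of_ne (fun h => hne (Fin.ext h)) with h1 | h1
    · exact key j j' h1 hjj
    · exact key j' j h1 hjj.symm
  have hdet := Matrix.det_vandermonde_ne_zero_iff.2 hinj
  apply Matrix.eq_zero_of_mulVec_eq_zero hdet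
  funext j
  have h1 := hc j
  simp only [Matrix.mulVec, dotProduct, Matrix.vandermonde_apply, Pi.zero_apply]
  have h2 : ∑ i : Fin M, c i * ps l M v i (M + j) =
      v ^ (((M + j : ℕ) : ℤ) * ((M + j : ℕ) : ℤ) - ((l : ℤ) + 5 * M - 2) * ((M + j : ℕ) : ℤ)) *
      ∑ i : Fin M, (v ^ (2 * ((M : ℤ) + (j : ℕ)))) ^ (i : ℕ) * c i := by
    rw [mul_sum]
    refine sum_congr rfl fun i _ => ?_
    unfold ps
    rw [← zpow_natCast (v ^ (2 * ((M : ℤ) + (j : ℕ)))), ← _root_.zpow_mul]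
    have : v ^ (((M + j : ℕ) : ℤ) * ((M + j : ℕ) : ℤ) - ((l : ℤ) + 5 * M - 2 - 2 * (i : ℕ)) *
        ((M + j : ℕ) : ℤ)) = v ^ (((M + j : ℕ) : ℤ) * ((M + j : ℕ) : ℤ) -
        ((l : ℤ) + 5 * M - 2) * ((M + j : ℕ) : ℤ)) * v ^ (2 * ((M : ℤ) + (j : ℕ)) * (i : ℕ)) := by
      rw [← zpow_add₀ hv]; congr 1; push_cast; ring
    rw [this]; ring
  rw [h2] at h1
  exact (mul_eq_zero.1 h1).resolve_left (zpow_ne_zero _ hv)

/-- the rows are independent -/
theorem Fm_right {v : ℂ} (hv : v ≠ 0) (l M : ℕ) (h : Nz v M) :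
    ∃ S : Matrix (Fin (l + 3 * M + 1)) (Fin 3 × Fin M) ℂ, Fm l M v * S = 1 := by
  have h0 : ∀ x, (Fm l M v)ᵀ *ᵥ x = 0 → x = 0 := by
    intro x hx
    have hx2 : ∀ j : Fin (l + 3 * M + 1), ∑ i : Fin M, x (0, i) * Fm l M v (0, i) j +
        ∑ i : Fin M, x (1, i) * Fm l M v (1, i) j +
        ∑ i : Fin M, x (2, i) * Fm l M v (2, i) j = 0 := by
      intro j
      have := congrFun hx j
      simp only [Matrix.mulVec, dotProduct, Matrix.transpose_apply, Fintype.sum_prod_type,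
        Fin.sum_univ_three, Pi.zero_apply] at this
      rw [← this]
      simp only [mul_comm]
    have n1 : (2 : Fin 3) ≠ 0 := by decide
    have n2 : (2 : Fin 3) ≠ 1 := by decide
    have n3 : (1 : Fin 3) ≠ 0 := by decide
    have a1 : (fun i => x (1, i)) = 0 := by
      apply ps_indep hv l M h
      intro j
      have h3 := hx2 ⟨M + j, by omega⟩
      have e0 : ∑ i : Fin M, x (0, i) * Fm l M v (0, i) ⟨M + j, by omega⟩ = 0 := by
        refine sum_eq_zero fun i _ => ?_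
        simp only [Fm, if_true]
        rw [if_neg (by omega), mul_zero]
      have e2 : ∑ i : Fin M, x (2, i) * Fm l M v (2, i) ⟨M + j, by omega⟩ = 0 := by
        refine sum_eq_zero fun i _ => ?_
        simp only [Fm, n1, n2, if_false]
        rw [if_neg (by omega), mul_zero]
      rw [e0, e2, zero_add, add_zero] at h3
      rw [← h3]
      refine sum_congr rfl fun i _ => ?_
      simp only [Fm, n3, if_false, if_true]
    have a1' : ∀ i, x (1, i) = 0 := fun i => congrFun a1 i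
    have a0 : ∀ i, x (0, i) = 0 := by
      intro i
      have h3 := hx2 ⟨l + 2 * M + 1 + i, by omega⟩
      have e1 : ∑ k : Fin M, x (1, k) * Fm l M v (1, k) ⟨l + 2 * M + 1 + i, by omega⟩ = 0 :=
        sum_eq_zero fun k _ => by rw [a1', zero_mul]
      have e2 : ∑ k : Fin M, x (2, k) * Fm l M v (2, k) ⟨l + 2 * M + 1 + i, by omega⟩ = 0 := by
        refine sum_eq_zero fun k _ => ?_
        simp only [Fm, n1, n2, if_false]
        rw [if_neg (by omega), mul_zero]
      rw [e1, e2, add_zero, add_zero, sum_eq_single i] at h3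
      · simpa [Fm] using h3
      · intro k _ hk
        simp only [Fm, if_true]
        rw [if_neg, mul_zero]
        intro h4
        exact hk (Fin.ext (by omega))
      · simp
    have a2 : ∀ i, x (2, i) = 0 := by
      intro i
      have h3 := hx2 ⟨i, by omega⟩
      have e1 : ∑ k : Fin M, x (1, k) * Fm l M v (1, k) ⟨i, by omega⟩ = 0 :=
        sum_eq_zero fun k _ => by rw [a1', zero_mul]
      have e2 : ∑ k : Fin M, x (0, k) * Fm l M v (0, k) ⟨i, by omega⟩ = 0 :=
        sum_eq_zero fun k _ => by rw [a0, zero_mul]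
      rw [e1, e2, add_zero, zero_add, sum_eq_single i] at h3
      · simpa [Fm, n1, n2] using h3
      · intro k _ hk
        simp only [Fm, n1, n2, if_false]
        rw [if_neg, mul_zero]
        intro h4
        exact hk (Fin.ext h4.symm)
      · simp
    funext q
    obtain ⟨p, i⟩ := q
    fin_cases p
    · exact a0 i
    · exact a1' i
    · exact a2 i
  obtain ⟨B, hB⟩ := linv _ h0
  refine ⟨Bᵀ, ?_⟩
  have := congrArg Matrix.transpose hB
  rw [Matrix.transpose_mul, Matrix.transpose_transpose, Matrix.transpose_one] at this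
  exact this

/-- the columns of `Zm` are independent -/
theorem Zm_left {v : ℂ} (hv : v ≠ 0) (l M : ℕ) (h : Nz v M) :
    ∃ T : Matrix (Fin (l + 1)) (Fin (l + 3 * M + 1)) ℂ, T * Zm l M v = 1 := by
  apply linv
  intro x hx
  have h1 : ∀ n : ℕ, ∀ hn : n < l + 1, x ⟨n, hn⟩ = 0 := by
    intro n
    induction n using Nat.strong_induction_on with
    | _ n ih =>
      intro hn
      have h2 := congrFun hx ⟨M + n, by omega⟩
      simp only [Matrix.mulVec, dotProduct, Pi.zero_apply] at h2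
      rw [sum_eq_single (⟨n, hn⟩ : Fin (l + 1))] at h2
      · refine (mul_eq_zero.1 h2).resolve_left ?_
        simp only [Zm, le_refl, if_true]
        have e : M + n - M - n = 0 := by omega
        rw [e, gb_zero h, mul_one]
        exact mul_ne_zero (pow_ne_zero _ (by norm_num)) (zpow_ne_zero _ hv)
      · intro i _ hi
        rcases Nat.lt_or_ge (i : ℕ) n with h3 | h3
        · have := ih i h3 i.2
          rw [show x i = 0 from this, mul_zero]
        · have h4 : ¬ (M + (i : ℕ) ≤ M + n) := by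
            intro h5
            exact hi (Fin.ext (by simp only; omega))
          simp only [Zm]
          rw [if_neg h4, zero_mul]
      · simp
  funext i
  exact h1 i i.2

/-- the functionals vanish on the subspace -/
theorem Fm_Zm {v : ℂ} (hv : v ≠ 0) (l M : ℕ) (h : Nz v M) : Fm l M v * Zm l M v = 0 := by
  ext q i
  obtain ⟨p, k⟩ := q
  rw [Matrix.mul_apply, Matrix.zero_apply]
  have hi : (i : ℕ) ≤ l := by omega
  have n1 : (2 : Fin 3) ≠ 0 := by decide
  have n2 : (2 : Fin 3) ≠ 1 := by decide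
  have n3 : (1 : Fin 3) ≠ 0 := by decide
  fin_cases p
  · refine sum_eq_zero fun j _ => ?_
    simp only [Fm, Zm, Fin.zero_eta, if_true]
    by_cases hj : (j : ℕ) = l + 2 * M + 1 + k
    · rw [if_pos (by omega), gb_gt (by omega)]; simp
    · rw [if_neg hj, zero_mul]
  · simp only [Fm, Fin.mk_one, n3, if_false, if_true]
    let F : ℕ → ℂ := fun j => if M + (i : ℕ) ≤ j then
      ((-1) ^ (i : ℕ) * v ^ (((i : ℕ) : ℤ) * (i : ℕ) - ((l : ℤ) - M - 1) * (i : ℕ))) *
      ((-1) ^ j * v ^ ((2 * ((k : ℕ) : ℤ) + 1 - M) * j) * gb v M (j - M - i)) else 0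
    have h1 : ∀ j : Fin (l + 3 * M + 1), ps l M v k j * Zm l M v j i = F j := by
      intro j
      simp only [Zm, F, ps]
      by_cases hj : M + (i : ℕ) ≤ j
      · rw [if_pos hj, if_pos hj, pow_add]
        have e : v ^ (((j : ℕ) : ℤ) * (j : ℕ) - ((l : ℤ) + 5 * M - 2 - 2 * (k : ℕ)) * (j : ℕ)) *
            v ^ (-(((j : ℕ) : ℤ) * (j : ℕ)) + ((l : ℤ) + 4 * M - 1) * (j : ℕ) +
              ((i : ℕ) : ℤ) * (i : ℕ) - ((l : ℤ) - M - 1) * (i : ℕ)) =
            v ^ (((i : ℕ) : ℤ) * (i : ℕ) - ((l : ℤ) - M - 1) * (i : ℕ)) *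
            v ^ ((2 * ((k : ℕ) : ℤ) + 1 - M) * (j : ℕ)) := z22 hv (by ring)
        linear_combination ((-1) ^ (j : ℕ) * (-1) ^ (i : ℕ) * gb v M (j - M - i)) * e
      · rw [if_neg hj, if_neg hj, mul_zero]
    rw [sum_congr rfl fun j _ => h1 j, Fin.sum_univ_eq_sum_range F (l + 3 * M + 1)]
    have h2 : ∑ j ∈ range (l + 3 * M + 1), F j = ∑ t ∈ range (M + 1), F (M + i + t) := by
      have := Pool.Agent.Y548.CC.shift F (l + 3 * M) (M + i) (M + i + M) (by omega) (by omega) (by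
        intro j hj
        simp only [F]
        rcases hj with hj | hj
        · rw [if_neg (by omega)]
        · rw [if_pos (by omega), gb_gt (by omega)]; ring)
      rw [this]
      congr 2
      omega
    rw [h2]
    have h3 := bin_zero hv h (2 * ((k : ℕ) : ℤ) + 1 - M) k k.2 (by ring)
    have h4 : ∑ t ∈ range (M + 1), F (M + i + t) =
        ((-1) ^ (i : ℕ) * v ^ (((i : ℕ) : ℤ) * (i : ℕ) - ((l : ℤ) - M - 1) * (i : ℕ))) *
        ((-1) ^ (M + (i : ℕ)) * v ^ ((2 * ((k : ℕ) : ℤ) + 1 - M) * ((M : ℤ) + (i : ℕ)))) *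
        ∑ t ∈ range (M + 1), (-1) ^ t * v ^ ((2 * ((k : ℕ) : ℤ) + 1 - M) * t) * gb v M t := by
      rw [mul_sum]
      refine sum_congr rfl fun t _ => ?_
      simp only [F]
      rw [if_pos (by omega)]
      have e1 : M + (i : ℕ) + t - M - i = t := by omega
      have e2 : v ^ ((2 * ((k : ℕ) : ℤ) + 1 - M) * ((M + (i : ℕ) + t : ℕ) : ℤ)) =
          v ^ ((2 * ((k : ℕ) : ℤ) + 1 - M) * ((M : ℤ) + (i : ℕ))) *
          v ^ ((2 * ((k : ℕ) : ℤ) + 1 - M) * t) := by
        rw [← zpow_add₀ hv]; congr 1; push_cast; ring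
      rw [e1, e2, pow_add _ (M + (i : ℕ)) t]
      ring
    rw [h4, h3, mul_zero]
  · refine sum_eq_zero fun j _ => ?_
    have n4 : (⟨2, by omega⟩ : Fin 3) = 2 := rfl
    simp only [Fm, Zm, n4, n1, n2, if_false]
    by_cases hj : (j : ℕ) = k
    · rw [if_neg (show ¬ (M + (i : ℕ) ≤ j) by omega), mul_zero]
    · rw [if_neg hj, zero_mul]

end Pool.Agent.Run7.h760
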