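import Pool.Agent.Run7.h760.Reg3

/-! The letters permute the blocks of functionals; reduction of the levels above `b - 1`. -/

set_option autoImplicit false

namespace Pool.Agent.Run7.h760

open Finset Matrix
open Pool.Agent.H550R3.Jones (br brf)
open Pool.Agent.Y482.CY (sb LL UU Nz)
open Pool.Agent.Y481.CC (LI UI CM Lt TW permL wr)

theorem low_zero {v : ℂ} (hv : v ≠ 0) {m j : ℕ} (hj : j ≤ m) (h : Nz v m) (C : ℂ) (c : ℤ)
    (t : ℕ) (ht : t < m - j) (hc : c + ((m : ℤ) - j) - 1 - 2 * t = 0) (F : ℕ → ℂ)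
    (hF : ∀ k, F k = if j ≤ k then C * ((-1) ^ k * v ^ (c * k) * gb v (m - j) (k - j)) else 0) :
    ∑ k ∈ range (m + 1), F k = 0 := by
  have h1 := Pool.Agent.Y548.CC.shift F m j m hj le_rfl (by
    intro k hk
    rw [hF]
    rcases hk with hk | hk
    · rw [if_neg (by omega)]
    · rw [if_pos (by omega), gb_gt (by omega)]; ring)
  rw [h1]
  have h2 : ∀ s ∈ range (m - j + 1), F (j + s) = C * ((-1) ^ j * v ^ (c * j)) *
      ((-1) ^ s * v ^ (c * s) * gb v (m - j) s) := by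
    intro s _
    rw [hF, if_pos (by omega)]
    have e1 : j + s - j = s := by omega
    have e2 : v ^ (c * ((j + s : ℕ) : ℤ)) = v ^ (c * j) * v ^ (c * s) := by
      rw [← zpow_add₀ hv]; congr 1; push_cast; ring
    rw [e1, e2, pow_add]
    ring
  rw [sum_congr rfl h2, ← mul_sum,
    bin_zero hv (nzm h (by omega)) c t ht (by rw [Nat.cast_sub hj]; exact hc), mul_zero]

theorem one_ne (l M : ℕ) (v : ℂ) (i : Fin M) (j : Fin (l + 3 * M + 1)) :
    Fm l M v (1, i) j = ps l M v i j := by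
  have n3 : (1 : Fin 3) ≠ 0 := by decide
  simp only [Fm, n3, if_false, if_true]

theorem psi_LI {v : ℂ} (hv : v ≠ 0) (l M : ℕ) (h : Nz v (l + 3 * M)) (i : Fin M) :
    Inb l M v 0 (Fm l M v (1, i) ᵥ* LI (l + 2 * M + 1) (l + 3 * M) v) := by
  apply inb0
  intro j hj
  simp only [Matrix.vecMul, dotProduct, one_ne]
  let F : ℕ → ℂ := fun k => if (j : ℕ) ≤ k then
    v ^ (((j : ℕ) : ℤ) * (j : ℕ) - 2 * ((l : ℤ) + 3 * M) * (j : ℕ)) *
      ((-1) ^ k * v ^ ((2 * ((i : ℕ) : ℤ) + 1 + (j : ℕ) - l - 3 * M) * k) *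
        gb v (l + 3 * M - j) (k - j)) else 0
  have h1 : ∀ k : Fin (l + 3 * M + 1), ps l M v i k * LI (l + 2 * M + 1) (l + 3 * M) v k j =
      F k := by
    intro k
    rw [LI_gb]
    simp only [F, ps]
    by_cases hk : (j : ℕ) ≤ k
    · rw [if_pos hk, if_pos hk]
      have e : v ^ (((k : ℕ) : ℤ) * (k : ℕ) - ((l : ℤ) + 5 * M - 2 - 2 * (i : ℕ)) * (k : ℕ)) *
          v ^ (-(((k : ℕ) : ℤ) * (k : ℕ)) - (2 * ((l + 2 * M + 1 : ℕ) : ℤ) -
          2 * ((l + 3 * M : ℕ) : ℤ) - 1 - (j : ℕ)) * (k : ℕ) +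
          ((j : ℕ) : ℤ) * (j : ℕ) - 2 * ((l + 3 * M : ℕ) : ℤ) * (j : ℕ)) =
          v ^ (((j : ℕ) : ℤ) * (j : ℕ) - 2 * ((l : ℤ) + 3 * M) * (j : ℕ)) *
          v ^ ((2 * ((i : ℕ) : ℤ) + 1 + (j : ℕ) - l - 3 * M) * (k : ℕ)) :=
        z22 hv (by push_cast; ring)
      linear_combination ((-1) ^ (k : ℕ) * gb v (l + 3 * M - j) (k - j)) * e
    · rw [if_neg hk, if_neg hk, mul_zero]
  rw [sum_congr rfl fun k _ => h1 k, Fin.sum_univ_eq_sum_range F (l + 3 * M + 1)]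
  refine low_zero hv (by omega) h _ _ (i : ℕ) (by omega) ?_ F fun k => rfl
  push_cast
  ring

theorem psi_LL {v : ℂ} (hv : v ≠ 0) (l M : ℕ) (h : Nz v (l + 3 * M)) (i : Fin M) :
    Inb l M v 0 (Fm l M v (1, i) ᵥ* LL (l + 2 * M + 1) (l + 3 * M) v) := by
  apply inb0
  intro j hj
  simp only [Matrix.vecMul, dotProduct, one_ne]
  let F : ℕ → ℂ := fun k => if (j : ℕ) ≤ k then
    v ^ (2 * ((l : ℤ) + 2 * M) * (j : ℕ) + (j : ℕ) - 2 * ((l : ℤ) + 3 * M) * (j : ℕ) +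
      ((j : ℕ) : ℤ) * (j : ℕ) + (j : ℕ)) *
      ((-1) ^ k * v ^ ((2 * ((i : ℕ) : ℤ) + 1 + l + M - (j : ℕ)) * k) *
        gb v (l + 3 * M - j) (k - j)) else 0
  have h1 : ∀ k : Fin (l + 3 * M + 1), ps l M v i k * LL (l + 2 * M + 1) (l + 3 * M) v k j =
      F k := by
    intro k
    rw [LL_gb]
    simp only [F, ps]
    by_cases hk : (j : ℕ) ≤ k
    · rw [if_pos hk, if_pos hk]
      have e : v ^ (((k : ℕ) : ℤ) * (k : ℕ) - ((l : ℤ) + 5 * M - 2 - 2 * (i : ℕ)) * (k : ℕ)) *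
          v ^ (2 * (((l + 2 * M + 1 : ℕ) : ℤ) - 1) * (j : ℕ) - (j : ℕ) * (((k : ℕ) : ℤ) - 1) +
          2 * (((l + 3 * M : ℕ) : ℤ) - (k : ℕ)) * (((k : ℕ) : ℤ) - (j : ℕ)) +
          (((k : ℕ) : ℤ) - (j : ℕ)) * (((k : ℕ) : ℤ) - (j : ℕ) - 1)) =
          v ^ (2 * ((l : ℤ) + 2 * M) * (j : ℕ) + (j : ℕ) - 2 * ((l : ℤ) + 3 * M) * (j : ℕ) +
          ((j : ℕ) : ℤ) * (j : ℕ) + (j : ℕ)) *
          v ^ ((2 * ((i : ℕ) : ℤ) + 1 + l + M - (j : ℕ)) * (k : ℕ)) :=
        z22 hv (by push_cast; ring)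
      linear_combination ((-1) ^ (k : ℕ) * gb v (l + 3 * M - j) (k - j)) * e
    · rw [if_neg hk, if_neg hk, mul_zero]
  rw [sum_congr rfl fun k _ => h1 k, Fin.sum_univ_eq_sum_range F (l + 3 * M + 1)]
  refine low_zero hv (by omega) h _ _ (l + 2 * M + i - j) (by omega) ?_ F fun k => rfl
  rw [Nat.cast_sub (by omega)]
  push_cast
  ring

/-- if `A` maps block 1 to block 0 then its inverse maps block 0 to block 1 -/
theorem swap_inb {v : ℂ} (hv : v ≠ 0) (l M : ℕ) (h : Nz v (l + 3 * M))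
    (A B : Matrix (Fin (l + 3 * M + 1)) (Fin (l + 3 * M + 1)) ℂ) (hAB : A * B = 1)
    (hA : ∀ i, Inb l M v 0 (Fm l M v (1, i) ᵥ* A)) (r : Fin (l + 3 * M + 1) → ℂ)
    (hr : Inb l M v 0 r) : Inb l M v 1 (r ᵥ* B) := by
  choose χ hχ using hA
  have hsum : ∀ c : Fin M → ℂ, (fun j => ∑ i, c i * Fm l M v (1, i) j) ᵥ* A =
      fun j => ∑ k, (c ᵥ* (Matrix.of χ)) k * Fm l M v (0, k) j := by
    intro c
    funext j
    have h1 : ((fun j => ∑ i, c i * Fm l M v (1, i) j) ᵥ* A) j =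
        ∑ i, c i * (Fm l M v (1, i) ᵥ* A) j := by
      simp only [Matrix.vecMul, dotProduct, mul_sum]
      rw [sum_comm]
      refine sum_congr rfl fun k _ => ?_
      rw [sum_mul]
      exact sum_congr rfl fun i _ => by ring
    rw [h1, sum_congr rfl fun i _ => by rw [hχ i j]]
    simp only [mul_sum, Matrix.vecMul, dotProduct, Matrix.of_apply, sum_mul]
    rw [sum_comm]
    exact sum_congr rfl fun k _ => sum_congr rfl fun i _ => by ring
  have hinj : Function.Injective (Matrix.of χ).vecMul := by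
    have h0 : ∀ c : Fin M → ℂ, c ᵥ* (Matrix.of χ) = 0 → c = 0 := by
      intro c hc
      have h1 := hsum c
      rw [hc] at h1
      have h2 : (fun j : Fin (l + 3 * M + 1) => ∑ i, c i * Fm l M v (1, i) j) = 0 := by
        calc _ = ((fun j : Fin (l + 3 * M + 1) => ∑ i, c i * Fm l M v (1, i) j) ᵥ* A) ᵥ* B := by
              rw [Matrix.vecMul_vecMul, hAB, Matrix.vecMul_one]
          _ = 0 := by
            rw [h1]
            funext j
            simp [Matrix.vecMul, dotProduct]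
      apply ps_indep hv l M (nzm h (by omega))
      intro j
      have h3 := congrFun h2 ⟨M + j, by omega⟩
      simpa only [one_ne, Pi.zero_apply] using h3
    intro c c' hcc
    have h1 : (c - c') ᵥ* (Matrix.of χ) = 0 := by
      rw [Matrix.sub_vecMul]
      exact sub_eq_zero.2 hcc
    exact sub_eq_zero.1 (h0 _ h1)
  have hsurj : Function.Surjective (Matrix.of χ).vecMul :=
    Matrix.vecMul_surjective_iff_isUnit.2 (Matrix.vecMul_injective_iff_isUnit.1 hinj)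
  obtain ⟨d, hd⟩ := hr
  obtain ⟨c, hc⟩ := hsurj d
  have h4 : r = (fun j => ∑ i, c i * Fm l M v (1, i) j) ᵥ* A := by
    rw [hsum c]
    funext j
    rw [hd j]
    have : c ᵥ* (Matrix.of χ) = d := hc
    rw [this]
  refine ⟨c, fun j => ?_⟩
  rw [h4, Matrix.vecMul_vecMul, hAB, Matrix.vecMul_one]

theorem low_inb2 (l M : ℕ) (v : ℂ) (A : Matrix (Fin (l + 3 * M + 1)) (Fin (l + 3 * M + 1)) ℂ)
    (hA : ∀ i j : Fin (l + 3 * M + 1), (i : ℕ) < j → A i j = 0) (r : Fin (l + 3 * M + 1) → ℂ)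
    (hr : Inb l M v 2 r) : Inb l M v 2 (r ᵥ* A) := by
  refine inb_rows (fun i => ?_) r hr
  apply inb2
  intro j hj
  simp only [Matrix.vecMul, dotProduct]
  refine sum_eq_zero fun k _ => ?_
  have n1 : (2 : Fin 3) ≠ 0 := by decide
  have n2 : (2 : Fin 3) ≠ 1 := by decide
  simp only [Fm, n1, n2, if_false]
  by_cases hk : (k : ℕ) = i
  · rw [hA k j (by omega), mul_zero]
  · rw [if_neg hk, zero_mul]

theorem bp_tri {v : ℂ} (hv : v ≠ 0) (l M : ℕ) (h : Nz v (l + 3 * M))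
    (A B : Matrix (Fin (l + 3 * M + 1)) (Fin (l + 3 * M + 1)) ℂ) (hAB : A * B = 1)
    (hA : ∀ i, Inb l M v 0 (Fm l M v (1, i) ᵥ* A))
    (hB : ∀ i, Inb l M v 0 (Fm l M v (1, i) ᵥ* B))
    (hT : ∀ i j : Fin (l + 3 * M + 1), (i : ℕ) < j → B i j = 0) :
    BP l M v (Equiv.swap 0 1) B := by
  intro p r hr
  fin_cases p
  · have e : (Equiv.swap (0 : Fin 3) 1) 0 = 1 := by decide
    simp only [Fin.zero_eta] at hr ⊢
    rw [e]
    exact swap_inb hv l M h A B hAB hA r hr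
  · have e : (Equiv.swap (0 : Fin 3) 1) 1 = 0 := by decide
    simp only [Fin.mk_one] at hr ⊢
    rw [e]
    exact inb_rows hB r hr
  · have e : (Equiv.swap (0 : Fin 3) 1) 2 = 2 := by decide
    have n4 : (⟨2, by omega⟩ : Fin 3) = 2 := rfl
    simp only [n4] at hr ⊢
    rw [e]
    exact low_inb2 l M v B hT r hr

theorem bp_LI {v : ℂ} (hv : v ≠ 0) (l M : ℕ) (h : Nz v (l + 3 * M)) :
    BP l M v (Equiv.swap 0 1) (LI (l + 2 * M + 1) (l + 3 * M) v) := by
  obtain ⟨a1, a2, a3, a4⟩ := Pool.Agent.Y548.CC.lui v hv (l + 2 * M + 1) (l + 3 * M) h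
  refine bp_tri hv l M h _ _ a1 (psi_LL hv l M h) (psi_LI hv l M h) ?_
  intro i j hij
  rw [LI_gb, if_neg (by omega)]

theorem bp_LL {v : ℂ} (hv : v ≠ 0) (l M : ℕ) (h : Nz v (l + 3 * M)) :
    BP l M v (Equiv.swap 0 1) (LL (l + 2 * M + 1) (l + 3 * M) v) := by
  obtain ⟨a1, a2, a3, a4⟩ := Pool.Agent.Y548.CC.lui v hv (l + 2 * M + 1) (l + 3 * M) h
  refine bp_tri hv l M h _ _ a2 (psi_LI hv l M h) (psi_LL hv l M h) ?_
  intro i j hij
  rw [LL_gb, if_neg (by omega)]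

theorem vm_Dh (b m : ℕ) (v : ℂ) (r : Fin (m + 1) → ℂ) (j : Fin (m + 1)) :
    (r ᵥ* Dh b m v) j = r (Fin.rev j) *
      v ^ (-(2 * ((b : ℤ) - 1) * m) - (2 * (b : ℤ) - 2 * m) * ((m : ℤ) - (j : ℕ))) := by
  simp only [Matrix.vecMul, dotProduct]
  rw [sum_eq_single (Fin.rev j)]
  · unfold Dh
    have : (Fin.rev j : ℕ) + (j : ℕ) = m := by rw [rev_val]; omega
    rw [if_pos this]
    have h2 : ((Fin.rev j : ℕ) : ℤ) = (m : ℤ) - (j : ℕ) := by
      rw [rev_val]; omega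
    rw [h2]
  · intro k _ hk
    unfold Dh
    rw [if_neg, mul_zero]
    intro h
    apply hk
    apply Fin.ext
    rw [rev_val]; omega
  · simp

theorem bp_Dh {v : ℂ} (hv : v ≠ 0) (l M : ℕ) :
    BP l M v (Equiv.swap 0 2) (Dh (l + 2 * M + 1) (l + 3 * M) v) := by
  have n1 : (2 : Fin 3) ≠ 0 := by decide
  have n2 : (2 : Fin 3) ≠ 1 := by decide
  intro p r hr
  fin_cases p
  · have e : (Equiv.swap (0 : Fin 3) 2) 0 = 2 := by decide
    simp only [Fin.zero_eta] at hr ⊢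
    rw [e]
    refine inb_rows (fun i => ?_) r hr
    apply inb2
    intro j hj
    rw [vm_Dh]
    simp only [Fm, if_true, rev_val]
    rw [if_neg (by omega), zero_mul]
  · have e : (Equiv.swap (0 : Fin 3) 2) 1 = 1 := by decide
    simp only [Fin.mk_one] at hr ⊢
    rw [e]
    refine inb_rows (fun i => ?_) r hr
    -- the functional `i` goes to a multiple of the functional `M - 1 - i`
    refine ⟨fun k => if (k : ℕ) + i + 1 = M then
      v ^ (((l : ℤ) + 3 * M) * ((l : ℤ) + 3 * M) - ((l : ℤ) + 5 * M - 2 - 2 * (i : ℕ)) *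
        ((l : ℤ) + 3 * M) - 2 * ((l : ℤ) + 2 * M) * ((l : ℤ) + 3 * M) -
        (2 - 2 * (M : ℤ)) * ((l : ℤ) + 3 * M)) else 0, fun j => ?_⟩
    rw [sum_eq_single (Fin.rev i)]
    · have hr2 : (Fin.rev i : ℕ) + i + 1 = M := by rw [Fin.val_rev]; omega
      dsimp only
      rw [if_pos hr2, vm_Dh, one_ne, one_ne]
      have hc : ((Fin.rev i : ℕ) : ℤ) = (M : ℤ) - 1 - (i : ℕ) := by omega
      have hc2 : ((Fin.rev j : ℕ) : ℤ) = (l : ℤ) + 3 * M - (j : ℕ) := by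
        rw [rev_val]; omega
      unfold ps
      rw [hc, hc2]
      refine z22 hv ?_
      push_cast
      ring
    · intro k _ hk
      dsimp only
      rw [if_neg, zero_mul]
      intro h
      apply hk
      apply Fin.ext
      rw [Fin.val_rev]; omega
    · simp
  · have e : (Equiv.swap (0 : Fin 3) 2) 2 = 0 := by decide
    have n4 : (⟨2, by omega⟩ : Fin 3) = 2 := rfl
    simp only [n4] at hr ⊢
    rw [e]
    refine inb_rows (fun i => ?_) r hr
    apply inb0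
    intro j hj
    rw [vm_Dh]
    simp only [Fm, n1, n2, if_false, rev_val]
    rw [if_neg (by omega), zero_mul]

theorem bp_conj {v : ℂ} (hv : v ≠ 0) (l M : ℕ)
    {A B : Matrix (Fin (l + 3 * M + 1)) (Fin (l + 3 * M + 1)) ℂ}
    (hA : BP l M v (Equiv.swap 0 1) A)
    (hB : B * Dh (l + 2 * M + 1) (l + 3 * M) v = Dh (l + 2 * M + 1) (l + 3 * M) v * A) :
    BP l M v (Equiv.swap 1 2) B := by
  have hs := sc_ne hv (l + 2 * M + 1) (l + 3 * M)
  have h1 : B = (sc (l + 2 * M + 1) (l + 3 * M) v)⁻¹ • (Dh (l + 2 * M + 1) (l + 3 * M) v * A *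
      Dh (l + 2 * M + 1) (l + 3 * M) v) := by
    rw [← hB, Matrix.mul_assoc, Dh_Dh hv, Matrix.mul_smul, smul_smul, inv_mul_cancel₀ hs,
      one_smul, Matrix.mul_one]
  rw [h1]
  have h2 := (((bp_Dh hv l M).mul hA).mul (bp_Dh hv l M)).smul
    (sc (l + 2 * M + 1) (l + 3 * M) v)⁻¹
  have h3 : Equiv.swap (0 : Fin 3) 2 * (Equiv.swap 0 1 * Equiv.swap 0 2) = Equiv.swap 1 2 := by
    decide
  rw [h3] at h2
  exact h2

theorem bp_CM {v : ℂ} (hv : v ≠ 0) (l M : ℕ) (h : Nz v (l + 3 * M)) (g : Lt) :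
    BP l M v (if g.1 then Equiv.swap 1 2 else Equiv.swap 0 1)
      (CM (l + 2 * M + 1) (l + 3 * M) v g) := by
  obtain ⟨a1, a2, a3, a4⟩ := Pool.Agent.Y548.CC.lui v hv (l + 2 * M + 1) (l + 3 * M) h
  have hU := bp_conj hv l M (bp_LI hv l M h) (UU_Dh hv (l + 2 * M + 1) (l + 3 * M))
  have hUI : UI (l + 2 * M + 1) (l + 3 * M) v * Dh (l + 2 * M + 1) (l + 3 * M) v =
      Dh (l + 2 * M + 1) (l + 3 * M) v * LL (l + 2 * M + 1) (l + 3 * M) v := by
    calc _ = UI (l + 2 * M + 1) (l + 3 * M) v * (Dh (l + 2 * M + 1) (l + 3 * M) v *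
          (LI (l + 2 * M + 1) (l + 3 * M) v * LL (l + 2 * M + 1) (l + 3 * M) v)) := by
            rw [a2, Matrix.mul_one]
      _ = UI (l + 2 * M + 1) (l + 3 * M) v * (Dh (l + 2 * M + 1) (l + 3 * M) v *
          LI (l + 2 * M + 1) (l + 3 * M) v) * LL (l + 2 * M + 1) (l + 3 * M) v := by
            simp only [Matrix.mul_assoc]
      _ = (UI (l + 2 * M + 1) (l + 3 * M) v * UU (l + 2 * M + 1) (l + 3 * M) v) *
          Dh (l + 2 * M + 1) (l + 3 * M) v * LL (l + 2 * M + 1) (l + 3 * M) v := by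
            rw [← UU_Dh hv]; simp only [Matrix.mul_assoc]
      _ = _ := by rw [a4, Matrix.one_mul]
  have hUI2 := bp_conj hv l M (bp_LL hv l M h) hUI
  obtain ⟨c, d⟩ := g
  cases c <;> cases d
  · simpa [CM] using bp_LL hv l M h
  · simpa [CM] using bp_LI hv l M h
  · simpa [CM] using hUI2
  · simpa [CM] using hU

theorem bp_Mw {v : ℂ} (hv : v ≠ 0) (l M : ℕ) (h : Nz v (l + 3 * M)) (w : List Lt) :
    BP l M v (permL w)⁻¹ (Mw (l + 2 * M + 1) (l + 3 * M) v w) := by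
  induction w with
  | nil =>
    have : permL [] = 1 := rfl
    rw [this, inv_one, Mw_nil]
    exact BP.one l M v
  | cons g w ih =>
    rw [Mw_cons, permL_cons, _root_.mul_inv_rev]
    have h1 : (if g.1 then Equiv.swap (1 : Fin 3) 2 else Equiv.swap 0 1)⁻¹ =
        (if g.1 then Equiv.swap (1 : Fin 3) 2 else Equiv.swap 0 1) := by
      split_ifs <;> simp
    rw [h1]
    exact (bp_CM hv l M h g).mul ih

/-- **reduction of the levels above `b - 1`** -/
theorem TW_red {v : ℂ} (hv : v ≠ 0) (l M : ℕ) (h : Nz v (l + 3 * M)) (w : List Lt)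
    (hw : (permL w).IsThreeCycle) :
    TW w (l + 2 * M + 1) (l + 3 * M) v = kp l M v ^ (wr w) * TW w (l + M + 1) l v := by
  obtain ⟨S, hS⟩ := Fm_right hv l M (nzm h (by omega))
  obtain ⟨T, hT⟩ := Zm_left hv l M (nzm h (by omega))
  have hbp := bp_Mw hv l M h w
  have hrow : ∀ q : Fin 3 × Fin M, Inb l M v ((permL w)⁻¹ q.1)
      (Fm l M v q ᵥ* Mw (l + 2 * M + 1) (l + 3 * M) v w) := by
    intro q
    apply hbp
    refine ⟨fun i => if i = q.2 then 1 else 0, fun j => ?_⟩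
    simp
  choose c hc using hrow
  have hΩ : Fm l M v * Mw (l + 2 * M + 1) (l + 3 * M) v w =
      (Matrix.of fun q q' : Fin 3 × Fin M => if q'.1 = (permL w)⁻¹ q.1 then c q q'.2 else 0) *
        Fm l M v := by
    ext q j
    have h1 : (Fm l M v * Mw (l + 2 * M + 1) (l + 3 * M) v w) q j =
        (Fm l M v q ᵥ* Mw (l + 2 * M + 1) (l + 3 * M) v w) j := by
      rw [Matrix.mul_apply]
      simp only [Matrix.vecMul, dotProduct]
    rw [h1, hc, Matrix.mul_apply, Fintype.sum_prod_type, sum_eq_single ((permL w)⁻¹ q.1)]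
    · simp only [Matrix.of_apply, if_true]
    · intro p _ hp
      refine sum_eq_zero fun i _ => ?_
      rw [Matrix.of_apply, if_neg hp, zero_mul]
    · simp
  have hfix : ∀ p : Fin 3, (permL w)⁻¹ p ≠ p := by
    intro p hp
    have h1 : (permL w).support = Finset.univ := by
      rw [← Finset.card_eq_iff_eq_univ, hw.card_support]
      simp
    have h2 : p ∈ (permL w).support := by rw [h1]; exact mem_univ p
    rw [Equiv.Perm.mem_support] at h2
    apply h2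
    exact (Equiv.Perm.inv_eq_iff_eq.1 hp).symm
  have htr : (Matrix.of fun q q' : Fin 3 × Fin M =>
      if q'.1 = (permL w)⁻¹ q.1 then c q q'.2 else 0).trace = 0 := by
    unfold Matrix.trace
    refine sum_eq_zero fun q _ => ?_
    simp only [Matrix.diag_apply, Matrix.of_apply]
    rw [if_neg (Ne.symm (hfix q.1))]
  have hZ : Mw (l + 2 * M + 1) (l + 3 * M) v w * Zm l M v =
      Zm l M v * (kp l M v ^ (wr w) • Mw (l + M + 1) l v w) := by
    rw [Mw_Z hv l M h, Matrix.mul_smul]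
  have e : Fin (l + 3 * M + 1) ≃ (Fin 3 × Fin M) ⊕ Fin (l + 1) := by
    apply Fintype.equivOfCardEq
    simp
    ring
  have := tr_split e (Fm l M v) (Zm l M v) S T hS hT (Fm_Zm hv l M (nzm h (by omega))) _ _ _ hΩ hZ
  rw [TW_eq, this, htr, zero_add, Matrix.trace_smul, smul_eq_mul, TW_eq]

end Pool.Agent.Run7.h760
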