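import Pool.Agent.Run7.h760.QB

/-! The half twist on the highest weight vectors of level `m`. -/

set_option autoImplicit false

namespace Pool.Agent.Run7.h760

open Finset Matrix
open Pool.Agent.H550R3.Jones (br brf)
open Pool.Agent.Y482.CY (sb LL UU Nz)
open Pool.Agent.Y481.CC (LI UI CM Lt)

/-- the half twist -/
noncomputable def Dh (b m : ℕ) (v : ℂ) : Matrix (Fin (m + 1)) (Fin (m + 1)) ℂ := fun a i =>
  if (a : ℕ) + i = m then v ^ (-(2 * ((b : ℤ) - 1) * m) - (2 * (b : ℤ) - 2 * m) * (a : ℕ)) else 0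

/-- the full twist is this scalar -/
noncomputable def sc (b m : ℕ) (v : ℂ) : ℂ :=
  v ^ (-(2 * (m : ℤ) * (3 * (b : ℤ) - 2 - m)))

theorem LI_gb (b m : ℕ) (v : ℂ) (i j : Fin (m + 1)) : LI b m v i j =
    if (j : ℕ) ≤ i then (-1) ^ (i : ℕ) *
    v ^ (-(((i : ℕ) : ℤ) * (i : ℕ)) - (2 * (b : ℤ) - 2 * m - 1 - (j : ℕ)) * (i : ℕ) +
      ((j : ℕ) : ℤ) * (j : ℕ) - 2 * m * (j : ℕ)) * gb v (m - j) (i - j) else 0 := by
  unfold LI gb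
  have : (i : ℕ) - j ≤ m - j := by omega
  simp only [this, if_true]

theorem UI_gb (b m : ℕ) (v : ℂ) (i j : Fin (m + 1)) : UI b m v i j =
    (-1) ^ (m - (i : ℕ)) *
    v ^ (-(((m : ℤ) - (i : ℕ)) * ((m : ℤ) - (i : ℕ))) +
      (2 * (b : ℤ) - 1 - ((m : ℤ) - (j : ℕ))) * ((m : ℤ) - (i : ℕ)) +
      ((m : ℤ) - (j : ℕ)) * ((m : ℤ) - (j : ℕ))) * gb v j i := by
  unfold UI gb
  by_cases h : (i : ℕ) ≤ j <;> simp [h]

theorem LL_gb (b m : ℕ) (v : ℂ) (a i : Fin (m + 1)) : LL b m v a i =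
    if (i : ℕ) ≤ a then (-1) ^ (a : ℕ) *
    v ^ (2 * ((b : ℤ) - 1) * (i : ℕ) - (i : ℕ) * (((a : ℕ) : ℤ) - 1) +
      2 * ((m : ℤ) - (a : ℕ)) * (((a : ℕ) : ℤ) - (i : ℕ)) +
      (((a : ℕ) : ℤ) - (i : ℕ)) * (((a : ℕ) : ℤ) - (i : ℕ) - 1)) * gb v (m - i) (a - i)
    else 0 := by
  unfold LL gb
  have : (a : ℕ) - i ≤ m - i := by omega
  simp only [this, if_true]

theorem UU_gb (b m : ℕ) (v : ℂ) (a i : Fin (m + 1)) : UU b m v a i =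
    (-1) ^ (m - (a : ℕ)) *
    v ^ (-(2 * ((b : ℤ) - 1) * ((m : ℤ) - (i : ℕ))) -
      (((i : ℕ) : ℤ) - (a : ℕ)) * ((m : ℤ) - (a : ℕ) - 1) +
      ((m : ℤ) - (i : ℕ)) * ((m : ℤ) - (i : ℕ) - 1)) * gb v i a := by
  unfold UU gb
  by_cases h : (a : ℕ) ≤ i <;> simp [h]

theorem neg1_sub {m j : ℕ} (h : j ≤ m) : (-1 : ℂ) ^ (m - j) = (-1) ^ m * (-1) ^ j := by
  obtain ⟨k, rfl⟩ : ∃ k, m = j + k := ⟨m - j, by omega⟩
  rw [Nat.add_sub_cancel_left, pow_add]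
  have : (-1 : ℂ) ^ j * (-1) ^ j = 1 := by rw [← mul_pow]; simp
  linear_combination (-(-1) ^ k) * this

theorem rev_val (m : ℕ) (a : Fin (m + 1)) : (Fin.rev a : ℕ) = m - a := by
  rw [Fin.val_rev]; omega

theorem Dh_mul (b m : ℕ) (v : ℂ) (A : Matrix (Fin (m + 1)) (Fin (m + 1)) ℂ)
    (a i : Fin (m + 1)) : (Dh b m v * A) a i =
      v ^ (-(2 * ((b : ℤ) - 1) * m) - (2 * (b : ℤ) - 2 * m) * (a : ℕ)) * A (Fin.rev a) i := by
  rw [mul_apply, sum_eq_single (Fin.rev a)]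
  · unfold Dh
    have : (a : ℕ) + (Fin.rev a : ℕ) = m := by rw [rev_val]; omega
    rw [if_pos this]
  · intro j _ hj
    unfold Dh
    rw [if_neg, zero_mul]
    intro h
    apply hj
    apply Fin.ext
    rw [rev_val]; omega
  · simp

theorem mul_Dh (b m : ℕ) (v : ℂ) (A : Matrix (Fin (m + 1)) (Fin (m + 1)) ℂ)
    (a i : Fin (m + 1)) : (A * Dh b m v) a i = A a (Fin.rev i) *
      v ^ (-(2 * ((b : ℤ) - 1) * m) - (2 * (b : ℤ) - 2 * m) * ((m : ℤ) - (i : ℕ))) := by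
  rw [mul_apply, sum_eq_single (Fin.rev i)]
  · unfold Dh
    have : (Fin.rev i : ℕ) + (i : ℕ) = m := by rw [rev_val]; omega
    rw [if_pos this]
    have h2 : ((Fin.rev i : ℕ) : ℤ) = (m : ℤ) - (i : ℕ) := by
      rw [rev_val]; omega
    rw [h2]
  · intro j _ hj
    unfold Dh
    rw [if_neg, mul_zero]
    intro h
    apply hj
    apply Fin.ext
    rw [rev_val]; omega
  · simp

theorem LI_UU {v : ℂ} (hv : v ≠ 0) (b m : ℕ) (h : Nz v m) :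
    LI b m v * UU b m v = Dh b m v * LL b m v := by
  ext a i
  rw [Dh_mul, mul_apply, LL_gb]
  have ha : (a : ℕ) ≤ m := by omega
  have hi : (i : ℕ) ≤ m := by omega
  have key := AV hv (i : ℕ) m (a : ℕ) hi ha h
  let F : ℕ → ℂ := fun j => if j ≤ (a : ℕ) then
    ((-1) ^ (a : ℕ) * (-1) ^ m * v ^ (-(((a : ℕ) : ℤ) * (a : ℕ)) - (2 * (b : ℤ) - 2 * m - 1) * (a : ℕ)
      - 2 * ((b : ℤ) - 1) * ((m : ℤ) - (i : ℕ)) - ((i : ℕ) : ℤ) * ((m : ℤ) - 1) +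
      ((m : ℤ) - (i : ℕ)) * ((m : ℤ) - (i : ℕ) - 1))) *
      ((-1) ^ j * v ^ ((((a : ℕ) : ℤ) + (i : ℕ) - m - 1) * j) * gb v i j * gb v (m - j) (a - j)) else 0
  have h1 : ∀ j : Fin (m + 1), LI b m v a j * UU b m v j i = F j := by
    intro j
    rw [LI_gb, UU_gb]
    by_cases hj : (j : ℕ) ≤ a
    · have hjm : (j : ℕ) ≤ m := by omega
      simp only [F, hj, if_true]
      rw [neg1_sub hjm]
      have e : v ^ (-(((a : ℕ) : ℤ) * (a : ℕ)) - (2 * (b : ℤ) - 2 * m - 1 - (j : ℕ)) * (a : ℕ) +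
          ((j : ℕ) : ℤ) * (j : ℕ) - 2 * m * (j : ℕ)) *
          v ^ (-(2 * ((b : ℤ) - 1) * ((m : ℤ) - (i : ℕ))) -
          (((i : ℕ) : ℤ) - (j : ℕ)) * ((m : ℤ) - (j : ℕ) - 1) +
          ((m : ℤ) - (i : ℕ)) * ((m : ℤ) - (i : ℕ) - 1)) =
          v ^ (-(((a : ℕ) : ℤ) * (a : ℕ)) - (2 * (b : ℤ) - 2 * m - 1) * (a : ℕ)
          - 2 * ((b : ℤ) - 1) * ((m : ℤ) - (i : ℕ)) - ((i : ℕ) : ℤ) * ((m : ℤ) - 1) +
          ((m : ℤ) - (i : ℕ)) * ((m : ℤ) - (i : ℕ) - 1)) *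
          v ^ ((((a : ℕ) : ℤ) + (i : ℕ) - m - 1) * (j : ℕ)) := z22 hv (by ring)
      linear_combination ((-1) ^ (a : ℕ) * (-1) ^ m * (-1) ^ (j : ℕ) * gb v i j *
        gb v (m - j) (a - j)) * e
    · simp [F, hj]
  rw [sum_congr rfl fun j _ => h1 j, Fin.sum_univ_eq_sum_range F (m + 1)]
  have h2 : ∑ j ∈ range (m + 1), F j = ∑ j ∈ range ((a : ℕ) + 1), F j := by
    symm
    refine sum_subset (range_subset_range.2 (by omega)) ?_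
    intro j _ hj
    rw [mem_range] at hj
    simp only [F]
    rw [if_neg (by omega)]
  have h3 : ∀ j ∈ range ((a : ℕ) + 1), F j =
    ((-1) ^ (a : ℕ) * (-1) ^ m * v ^ (-(((a : ℕ) : ℤ) * (a : ℕ)) - (2 * (b : ℤ) - 2 * m - 1) * (a : ℕ)
      - 2 * ((b : ℤ) - 1) * ((m : ℤ) - (i : ℕ)) - ((i : ℕ) : ℤ) * ((m : ℤ) - 1) +
      ((m : ℤ) - (i : ℕ)) * ((m : ℤ) - (i : ℕ) - 1))) *
      ((-1) ^ j * v ^ ((((a : ℕ) : ℤ) + (i : ℕ) - m - 1) * j) * gb v i j *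
        gb v (m - j) (a - j)) := by
    intro j hj
    rw [mem_range] at hj
    simp only [F]
    rw [if_pos (by omega)]
  rw [h2, sum_congr rfl h3, ← mul_sum, key, rev_val]
  by_cases hc : (i : ℕ) ≤ m - a
  · rw [if_pos hc, neg1_sub ha]
    have g1 : gb v (m - i) (m - a - i) = gb v (m - i) a := by
      have : m - (a : ℕ) - i = m - i - a := by omega
      rw [this, gb_symm (by omega)]
    rw [g1]
    have c1 : ((m - (a : ℕ) : ℕ) : ℤ) = (m : ℤ) - (a : ℕ) := by omega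
    rw [c1]
    have e : v ^ (-(((a : ℕ) : ℤ) * (a : ℕ)) - (2 * (b : ℤ) - 2 * m - 1) * (a : ℕ)
          - 2 * ((b : ℤ) - 1) * ((m : ℤ) - (i : ℕ)) - ((i : ℕ) : ℤ) * ((m : ℤ) - 1) +
          ((m : ℤ) - (i : ℕ)) * ((m : ℤ) - (i : ℕ) - 1)) * v ^ (((a : ℕ) : ℤ) * (i : ℕ)) =
        v ^ (-(2 * ((b : ℤ) - 1) * m) - (2 * (b : ℤ) - 2 * m) * (a : ℕ)) *
        v ^ (2 * ((b : ℤ) - 1) * (i : ℕ) - (i : ℕ) * (((m : ℤ) - (a : ℕ)) - 1) +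
          2 * ((m : ℤ) - ((m : ℤ) - (a : ℕ))) * (((m : ℤ) - (a : ℕ)) - (i : ℕ)) +
          (((m : ℤ) - (a : ℕ)) - (i : ℕ)) * (((m : ℤ) - (a : ℕ)) - (i : ℕ) - 1)) :=
      z22 hv (by ring)
    linear_combination ((-1) ^ (a : ℕ) * (-1) ^ m * gb v (m - i) a) * e
  · rw [if_neg hc, gb_gt (by omega)]
    simp

theorem UU_Dh {v : ℂ} (hv : v ≠ 0) (b m : ℕ) :
    UU b m v * Dh b m v = Dh b m v * LI b m v := by
  ext a i
  rw [Dh_mul, mul_Dh, UU_gb, LI_gb, rev_val, rev_val]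
  have ha : (a : ℕ) ≤ m := by omega
  have hi : (i : ℕ) ≤ m := by omega
  by_cases hc : (i : ℕ) ≤ m - a
  · rw [if_pos hc]
    have g1 : gb v (m - i) (m - a - i) = gb v (m - i) a := by
      have : m - (a : ℕ) - i = m - i - a := by omega
      rw [this, gb_symm (by omega)]
    rw [g1]
    have c1 : ((m - (a : ℕ) : ℕ) : ℤ) = (m : ℤ) - (a : ℕ) := by omega
    have c2 : ((m - (i : ℕ) : ℕ) : ℤ) = (m : ℤ) - (i : ℕ) := by omega
    rw [c1, c2]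
    have e : v ^ (-(2 * ((b : ℤ) - 1) * ((m : ℤ) - ((m : ℤ) - (i : ℕ)))) -
          (((m : ℤ) - (i : ℕ)) - (a : ℕ)) * ((m : ℤ) - (a : ℕ) - 1) +
          ((m : ℤ) - ((m : ℤ) - (i : ℕ))) * ((m : ℤ) - ((m : ℤ) - (i : ℕ)) - 1)) *
        v ^ (-(2 * ((b : ℤ) - 1) * m) - (2 * (b : ℤ) - 2 * m) * ((m : ℤ) - (i : ℕ))) =
        v ^ (-(2 * ((b : ℤ) - 1) * m) - (2 * (b : ℤ) - 2 * m) * (a : ℕ)) *
        v ^ (-(((m : ℤ) - (a : ℕ)) * ((m : ℤ) - (a : ℕ))) -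
          (2 * (b : ℤ) - 2 * m - 1 - (i : ℕ)) * ((m : ℤ) - (a : ℕ)) +
          ((i : ℕ) : ℤ) * (i : ℕ) - 2 * m * (i : ℕ)) := z22 hv (by ring)
    linear_combination ((-1) ^ (m - (a : ℕ)) * gb v (m - i) a) * e
  · rw [if_neg hc, gb_gt (by omega)]
    simp

theorem Dh_Dh {v : ℂ} (hv : v ≠ 0) (b m : ℕ) :
    Dh b m v * Dh b m v = sc b m v • (1 : Matrix (Fin (m + 1)) (Fin (m + 1)) ℂ) := by
  ext a i
  rw [Dh_mul, Matrix.smul_apply, smul_eq_mul]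
  have ha : (a : ℕ) ≤ m := by omega
  by_cases hai : a = i
  · subst hai
    rw [one_apply_eq, mul_one]
    unfold Dh sc
    rw [rev_val, if_pos (by omega)]
    have c1 : ((m - (a : ℕ) : ℕ) : ℤ) = (m : ℤ) - (a : ℕ) := by omega
    rw [c1]
    exact z2 hv (by ring)
  · rw [one_apply_ne hai, mul_zero]
    unfold Dh
    rw [rev_val, if_neg, mul_zero]
    intro h
    apply hai
    apply Fin.ext
    omega

end Pool.Agent.Run7.h760
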