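import Pool.Agent.Run7.h760.Rep2
import Pool.Agent.Y824.CC.Inv
import Pool.Agent.Y259.CC.Ecw
import Pool.Agent.Y239.CC.COW
import Pool.Agent.Y54.CC.TRCW
import Pool.Agent.Y76.CC.SymW
import Pool.Agent.Y983.CC.Patw
import Pool.Agent.Y899.CC.QT
import Pool.Agent.Y15.CY.EC
import Pool.Agent.Y510.CY.CO

/-! The coloured Jones polynomial of a closed 3-braid which is a knot, as a sum over the levels. -/

set_option autoImplicit false

namespace Pool.Agent.Run7.h760

open Finset Matrix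
open Pool.Agent.H550R3.Jones (br brf cjones)
open Pool.Agent.Y482.CY (sb LL UU Nz B3 lv)
open Pool.Agent.Y481.CC

theorem f_ECW : S_ECW := Pool.Agent.Y259.CC.t_ECW Pool.Agent.Y15.CY.t_ec1 Pool.Agent.Y15.CY.t_ec2
  (Pool.Agent.Y824.CC.inv Pool.Agent.Y548.CC.qv)

theorem f_TRCW : S_TRCW := Pool.Agent.Y54.CC.trcw f_ECW
  (Pool.Agent.Y239.CC.COW.t_COW Pool.Agent.Y510.CY.co1 Pool.Agent.Y510.CY.co2
    (Pool.Agent.Y824.CC.inv Pool.Agent.Y548.CC.qv) Pool.Agent.Y548.CC.lui f_ECW)

/-- summation by parts for a symmetric sequence -/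
theorem absum {v : ℂ} (hv : v ≠ 0) (L : ℕ) (τ : ℕ → ℂ) (hs : ∀ m, m ≤ L → τ m = τ (L - m)) :
    (v - v⁻¹) * ∑ m ∈ range (L + 1), v ^ ((L : ℤ) - 2 * m) * τ m =
      ∑ k ∈ range (L / 2 + 1), (v ^ ((L : ℤ) - 2 * k + 1) - v ^ (-((L : ℤ) - 2 * k + 1))) *
        (τ k - if k = 0 then 0 else τ (k - 1)) := by
  set σ : ℕ → ℂ := fun m => if m ≤ L then τ m else 0 with hσ
  set δ : ℕ → ℂ := fun m => σ m - if m = 0 then 0 else σ (m - 1) with hδ
  set g : ℕ → ℂ := fun m => v ^ ((L : ℤ) + 1 - 2 * m) * δ m with hg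
  have s1 : ∑ m ∈ range (L + 2), g m =
      (v - v⁻¹) * ∑ m ∈ range (L + 1), v ^ ((L : ℤ) - 2 * m) * τ m := by
    have a1 : ∑ m ∈ range (L + 2), g m = ∑ m ∈ range (L + 2), v ^ ((L : ℤ) + 1 - 2 * m) * σ m -
        ∑ m ∈ range (L + 2), v ^ ((L : ℤ) + 1 - 2 * m) * (if m = 0 then 0 else σ (m - 1)) := by
      rw [← sum_sub_distrib]
      exact sum_congr rfl fun m _ => by simp only [hg, hδ]; ring
    rw [a1, sum_range_succ, sum_range_succ' _ (L + 1), sub_mul, mul_sum, mul_sum]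
    have a2 : σ (L + 1) = 0 := by simp [hσ]
    rw [a2]
    simp only [mul_zero, add_zero, if_true, Nat.add_sub_cancel, Nat.succ_ne_zero, if_false]
    congr 1
    · refine sum_congr rfl fun m hm => ?_
      rw [mem_range] at hm
      simp only [hσ]
      rw [if_pos (by omega)]
      have : v ^ (1 : ℤ) * v ^ ((L : ℤ) - 2 * m) = v ^ ((L : ℤ) + 1 - 2 * m) :=
        z2 hv (by ring)
      rw [zpow_one] at this
      rw [← this]; ring
    · refine sum_congr rfl fun m hm => ?_
      rw [mem_range] at hm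
      simp only [hσ]
      rw [if_pos (by omega)]
      have : v ^ (-1 : ℤ) * v ^ ((L : ℤ) - 2 * m) = v ^ ((L : ℤ) + 1 - 2 * ((m + 1 : ℕ) : ℤ)) :=
        z2 hv (by push_cast; ring)
      rw [_root_.zpow_neg, zpow_one] at this
      rw [← this]; ring
  have s2 : ∀ m, m ≤ L + 1 → δ (L + 1 - m) = - δ m := by
    intro m hm
    simp only [hδ, hσ]
    rcases Nat.eq_zero_or_pos m with h0 | h0
    · subst h0
      simp [hs 0 (Nat.zero_le _)]
    · rcases Nat.lt_or_ge L m with h1 | h1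
      · have : m = L + 1 := by omega
        subst this
        simp [hs L le_rfl]
      · have e1 : τ (L + 1 - m) = τ (m - 1) := by
          rw [hs (m - 1) (by omega)]; congr 1; omega
        have e2 : τ (L + 1 - m - 1) = τ m := by
          rw [hs m h1]; congr 1; omega
        have c1 : L + 1 - m ≤ L := by omega
        have c2 : L + 1 - m ≠ 0 := by omega
        have c3 : L + 1 - m - 1 ≤ L := by omega
        have c4 : m ≠ 0 := by omega
        have c5 : m - 1 ≤ L := by omega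
        simp only [c1, c2, c3, c4, c5, h1, if_true, if_false, e1, e2]
        ring
  have s3 : ∀ m, m ≤ L + 1 → g (L + 1 - m) = - (v ^ (-((L : ℤ) - 2 * m + 1)) * δ m) := by
    intro m hm
    simp only [hg]
    rw [s2 m hm]
    have : ((L + 1 - m : ℕ) : ℤ) = (L : ℤ) + 1 - m := by omega
    rw [this]
    have : (L : ℤ) + 1 - 2 * ((L : ℤ) + 1 - m) = -((L : ℤ) - 2 * m + 1) := by ring
    rw [this]; ring
  rw [← s1]
  have s4 : ∑ m ∈ range (L + 2), g m = ∑ m ∈ range (L / 2 + 1), g m +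
      ∑ m ∈ range (L / 2 + 1), g (L + 1 - m) := by
    have e1 : L + 2 = (L / 2 + 1) + (L + 1 - L / 2) := by omega
    rw [e1, Finset.sum_range_add]
    congr 1
    rw [← Finset.sum_range_reflect]
    have h2 : ∀ j ∈ range (L + 1 - L / 2), g (L / 2 + 1 + (L + 1 - L / 2 - 1 - j)) =
        g (L + 1 - j) := by
      intro j hj
      rw [mem_range] at hj
      congr 1; omega
    rw [sum_congr rfl h2]
    rcases Nat.even_or_odd L with h | h
    · obtain ⟨k, hk⟩ := h
      have : L + 1 - L / 2 = L / 2 + 1 := by omega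
      rw [this]
    · obtain ⟨k, hk⟩ := h
      have e3 : L + 1 - L / 2 = L / 2 + 1 + 1 := by omega
      rw [e3, sum_range_succ]
      have e4 : L + 1 - (L / 2 + 1) = L / 2 + 1 := by omega
      have e5 : g (L + 1 - (L / 2 + 1)) = 0 := by
        have h3 := s2 (L / 2 + 1) (by omega)
        rw [e4] at h3
        have h4 : δ (L / 2 + 1) = 0 := by
          have : (2 : ℂ) * δ (L / 2 + 1) = 0 := by linear_combination h3
          simpa using this
        rw [e4]
        simp only [hg, h4, mul_zero]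
      rw [e5, add_zero]
  rw [s4, ← sum_add_distrib]
  refine sum_congr rfl fun k hk => ?_
  rw [mem_range] at hk
  rw [s3 k (by omega)]
  have d1 : δ k = τ k - if k = 0 then 0 else τ (k - 1) := by
    simp only [hδ, hσ]
    have c1 : k ≤ L := by omega
    have c2 : k - 1 ≤ L := by omega
    simp only [c1, c2, if_true]
  rw [← d1]
  simp only [hg]
  have : (L : ℤ) + 1 - 2 * k = (L : ℤ) - 2 * k + 1 := by ring
  rw [this]; ring

theorem lv_le {N : ℕ} (x : B3 N) : lv x ≤ 3 * (N - 1) := by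
  unfold lv
  have h1 := x.1.2
  have h2 := x.2.1.2
  have h3 := x.2.2.2
  omega

/-- **the coloured Jones polynomial of the closure of a 3-braid whose permutation is a 3-cycle** -/
theorem main_sum {v : ℂ} (hv : v ≠ 0) (w : List Lt) (hw : (permL w).IsThreeCycle) (N : ℕ)
    (hN : 1 ≤ N) (h : Nz v (2 * N)) : br v (N : ℤ) * cjones N 2 (w.map enc) v =
      v ^ (-(((N : ℤ) - 1) * wr w)) * ∑ k ∈ range (3 * (N - 1) / 2 + 1),
        br v (3 * ((N : ℤ) - 1) - 2 * k + 1) * TW w N k v := by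
  rw [Pool.Agent.Y899.CC.t_QT v hv w N hN h]
  have c0 : ((3 * (N - 1) : ℕ) : ℤ) = 3 * ((N : ℤ) - 1) := by omega
  have e1 : ∑ x : B3 N, v ^ (3 * ((N : ℤ) - 1) - 2 * (lv x : ℤ)) * wop N v w x x =
      ∑ m ∈ range (3 * (N - 1) + 1), v ^ (((3 * (N - 1) : ℕ) : ℤ) - 2 * m) * tauW w N v m := by
    unfold tauW
    simp only [mul_sum]
    rw [sum_comm]
    refine sum_congr rfl fun x _ => ?_
    rw [sum_eq_single (lv x)]
    · rw [if_pos rfl, c0]
    · intro m _ hm
      rw [if_neg (Ne.symm hm), mul_zero]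
    · intro hx
      exfalso
      apply hx
      rw [mem_range]
      have := lv_le x
      omega
  have e2 := absum hv (3 * (N - 1)) (tauW w N v) (fun m hm =>
    Pool.Agent.Y76.CC.symw v hv w N m hN h hm)
  have e3 : br v 1 = v - v⁻¹ := by unfold br; simp
  rw [e1, e3]
  have e4 : (v - v⁻¹) * v ^ (-(((N : ℤ) - 1) * wr w)) *
      ∑ m ∈ range (3 * (N - 1) + 1), v ^ (((3 * (N - 1) : ℕ) : ℤ) - 2 * m) * tauW w N v m =
      v ^ (-(((N : ℤ) - 1) * wr w)) * ((v - v⁻¹) *
      ∑ m ∈ range (3 * (N - 1) + 1), v ^ (((3 * (N - 1) : ℕ) : ℤ) - 2 * m) * tauW w N v m) := by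
    ring
  rw [e4, e2]
  congr 1
  refine sum_congr rfl fun k hk => ?_
  rw [mem_range] at hk
  rw [f_TRCW v hv w N k (nzm h (by omega)),
    Pool.Agent.Y983.CC.Patw.patw v hv w N k hw hN (by omega) h, c0]
  congr 1
  by_cases hk0 : k = 0
  · simp [hk0]
  · rw [if_neg hk0, if_neg hk0,
      Pool.Agent.Y983.CC.Patw.patw v hv w N (k - 1) hw hN (by omega) h]

end Pool.Agent.Run7.h760
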