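import Pool.Agent.Run7.h760.Reg4
import Pool.Agent.Run7.h760.Asy2
import Pool.Agent.Run7.h760.Sum

/-! Leading behaviour of the terms of the sum over the levels. -/

set_option autoImplicit false

namespace Pool.Agent.Run7.h760

open Finset Matrix Filter Topology
open Pool.Agent.H550R3.Jones (br brf cjones)
open Pool.Agent.Y482.CY (sb LL UU Nz)
open Pool.Agent.Y481.CC (LI UI CM Lt TW permL wr enc)

/-- exponent of the level `m ≤ ν` -/
def E2 (d P ν m : ℤ) : ℤ := (3 * ν - 2 * m + 1) + 2 * d * m * (3 * ν + 1 - m) +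
  P * m * (2 * ν + 1 - m)

/-- exponent of the level `m ≥ ν` -/
def E1 (d P Q ν m : ℤ) : ℤ := (3 * ν - 2 * m + 1) + 2 * d * m * (3 * ν + 1 - m) +
  P * (ν * (ν + 1) - (m - ν) * (m - ν + 1)) - Q * (m - ν) * (2 * ν + 1 - (m - ν))

/-- the summand -/
noncomputable def ft (w : List Lt) (ν m : ℕ) (y : ℝ) : ℂ :=
  br (y : ℂ) (3 * (ν : ℤ) - 2 * m + 1) * TW w (ν + 1) m (y : ℂ)

theorem br_mul {y : ℝ} (hy : 0 < y) (n : ℤ) :
    (y : ℂ) ^ n * br (y : ℂ) n = (y : ℂ) ^ (2 * n) - 1 := by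
  unfold br
  rw [mul_sub, z2 (cne hy) (show n + n = 2 * n by ring), z2 (cne hy) (show n + -n = 0 by ring),
    zpow_zero]

theorem br_lim {n : ℤ} (hn : 0 < n) :
    Tendsto (fun y : ℝ => (y : ℂ) ^ n * br (y : ℂ) n) l0 (𝓝 (-1)) := by
  have h : (fun y : ℝ => (y : ℂ) ^ n * br (y : ℂ) n) =ᶠ[l0] fun y => (y : ℂ) ^ (2 * n) - 1 := by
    filter_upwards [ev_pos] with y hy using br_mul hy n
  refine (tendsto_congr' h).2 ?_
  have := (zp0 (n := 2 * n) (by omega)).sub (tendsto_const_nhds (x := (1 : ℂ)))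
  simpa using this

theorem cL_pow {v : ℂ} (b m P : ℕ) : cL b m v ^ P =
    (-1) ^ (m * P) * v ^ (-((P : ℤ) * ((m : ℤ) * (2 * (b : ℤ) - 1 - m)))) := by
  unfold cL
  rw [mul_pow, ← pow_mul, ← zpow_natCast (v ^ _), ← _root_.zpow_mul]
  congr 2
  ring

theorem sc_zpow {v : ℂ} (b m : ℕ) (d : ℤ) : sc b m v ^ d =
    v ^ (-(d * (2 * (m : ℤ) * (3 * (b : ℤ) - 2 - m)))) := by
  unfold sc
  rw [← _root_.zpow_mul]
  congr 1
  ring

/-- the summand for `m ≤ ν` -/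
theorem ft2 (d : ℤ) (u : List Bool) (ν m : ℕ) {y : ℝ} (hy : 0 < y) (hy1 : y < 1) :
    (y : ℂ) ^ (E2 d (u.count true) ν m) * ft (Cw d ++ mw u) ν m y =
      (-1) ^ (m * u.count true) * (((y : ℂ) ^ (2 * (3 * (ν : ℤ) - 2 * m + 1)) - 1) *
        (Nw (ν + 1) m (y : ℂ) u).trace) := by
  have hv := cne hy
  unfold ft
  rw [TW_Cw hv _ _ (nz_real hy hy1 m), TW_norm hv, cL_pow, sc_zpow, ← br_mul hy]
  unfold E2
  have e : (y : ℂ) ^ ((3 * (ν : ℤ) - 2 * m + 1) + 2 * d * m * (3 * ν + 1 - m) +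
      (u.count true : ℕ) * m * (2 * ν + 1 - m)) =
      (y : ℂ) ^ (3 * (ν : ℤ) - 2 * m + 1) *
      (y : ℂ) ^ ((d * (2 * (m : ℤ) * (3 * ((ν + 1 : ℕ) : ℤ) - 2 - m)))) *
      (y : ℂ) ^ (((u.count true : ℕ) : ℤ) * ((m : ℤ) * (2 * ((ν + 1 : ℕ) : ℤ) - 1 - m))) := by
    rw [← zpow_add₀ hv, ← zpow_add₀ hv]
    congr 1
    push_cast
    ring
  rw [e]
  have e2 : (y : ℂ) ^ ((d * (2 * (m : ℤ) * (3 * ((ν + 1 : ℕ) : ℤ) - 2 - m)))) *
      (y : ℂ) ^ (-(d * (2 * (m : ℤ) * (3 * ((ν + 1 : ℕ) : ℤ) - 2 - m)))) = 1 := by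
    rw [z2 hv (show _ = (0 : ℤ) by ring), zpow_zero]
  have e3 : (y : ℂ) ^ (((u.count true : ℕ) : ℤ) * ((m : ℤ) * (2 * ((ν + 1 : ℕ) : ℤ) - 1 - m))) *
      (y : ℂ) ^ (-(((u.count true : ℕ) : ℤ) * ((m : ℤ) * (2 * ((ν + 1 : ℕ) : ℤ) - 1 - m)))) =
      1 := by
    rw [z2 hv (show _ = (0 : ℤ) by ring), zpow_zero]
  generalize (y : ℂ) ^ ((d * (2 * (m : ℤ) * (3 * ((ν + 1 : ℕ) : ℤ) - 2 - m)))) = A at *
  generalize (y : ℂ) ^ (-(d * (2 * (m : ℤ) * (3 * ((ν + 1 : ℕ) : ℤ) - 2 - m)))) = A' at *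
  generalize (y : ℂ) ^ (((u.count true : ℕ) : ℤ) * ((m : ℤ) * (2 * ((ν + 1 : ℕ) : ℤ) - 1 - m))) =
    B at *
  generalize (y : ℂ) ^ (-(((u.count true : ℕ) : ℤ) *
    ((m : ℤ) * (2 * ((ν + 1 : ℕ) : ℤ) - 1 - m)))) = B' at *
  calc _ = (A * A') * (B * B') * ((-1) ^ (m * u.count true) *
        ((y : ℂ) ^ (3 * (ν : ℤ) - 2 * m + 1) * br (y : ℂ) (3 * (ν : ℤ) - 2 * m + 1) *
        (Nw (ν + 1) m (y : ℂ) u).trace)) := by ring
    _ = _ := by rw [e2, e3]; ring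

theorem ft2_lim (d : ℤ) (p : List Bool) (ν m : ℕ) (hm : m ≤ ν) :
    Tendsto (fun y : ℝ => (y : ℂ) ^ (E2 d ((p ++ [false]).count true) ν m) *
      ft (Cw d ++ mw (p ++ [false])) ν m y) l0 (𝓝 (-(-1) ^ (m * (p ++ [false]).count true))) := by
  have h : (fun y : ℝ => (y : ℂ) ^ (E2 d ((p ++ [false]).count true) ν m) *
      ft (Cw d ++ mw (p ++ [false])) ν m y) =ᶠ[l0] fun y =>
      (-1) ^ (m * (p ++ [false]).count true) * (((y : ℂ) ^ (2 * (3 * (ν : ℤ) - 2 * m + 1)) - 1) *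
        (Nw (ν + 1) m (y : ℂ) (p ++ [false])).trace) := by
    filter_upwards [ev_pos, ev_lt] with y h0 h1 using ft2 d _ ν m h0 h1
  refine (tendsto_congr' h).2 ?_
  have t1 := ((zp0 (n := 2 * (3 * (ν : ℤ) - 2 * m + 1)) (by omega)).sub
    (tendsto_const_nhds (x := (1 : ℂ)))).mul (tr_lim (b := ν + 1) (m := m) (by omega) p)
  have t2 := (tendsto_const_nhds (x := ((-1 : ℂ) ^ (m * (p ++ [false]).count true)))).mul t1
  simpa using t2

/-- second order term for `m ≤ ν` -/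
theorem ft2_lim1 (d : ℤ) (p : List Bool) (hp : p ≠ []) (ν m : ℕ) (hν : 1 ≤ ν) (hm : m ≤ ν) :
    Tendsto (fun y : ℝ => (y : ℂ) ^ (-(2 * (ν : ℤ) + 2 - 2 * m)) *
      ((y : ℂ) ^ (E2 d ((p ++ [false]).count true) ν m) *
      ft (Cw d ++ mw (p ++ [false])) ν m y + (-1) ^ (m * (p ++ [false]).count true))) l0
      (𝓝 ((-1) ^ (m * (p ++ [false]).count true) * (((tf (p ++ [false]) : ℕ) : ℂ) *
        (if m = 0 then 0 else 1)))) := by
  have h : (fun y : ℝ => (y : ℂ) ^ (-(2 * (ν : ℤ) + 2 - 2 * m)) *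
      ((y : ℂ) ^ (E2 d ((p ++ [false]).count true) ν m) *
      ft (Cw d ++ mw (p ++ [false])) ν m y + (-1) ^ (m * (p ++ [false]).count true))) =ᶠ[l0]
      fun y => (-1) ^ (m * (p ++ [false]).count true) *
        ((y : ℂ) ^ (4 * (ν : ℤ) - 2 * m) * (Nw (ν + 1) m (y : ℂ) (p ++ [false])).trace -
        (ep (ν + 1) m y)⁻¹ * ((Nw (ν + 1) m (y : ℂ) (p ++ [false])).trace - 1)) := by
    filter_upwards [ev_pos, ev_lt] with y h0 h1
    rw [ft2 d _ ν m h0 h1, ep_inv]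
    have e1 : -(2 * ((ν + 1 : ℕ) : ℤ) - 2 * m) = -(2 * (ν : ℤ) + 2 - 2 * m) := by
      push_cast; ring
    have e2 : (y : ℂ) ^ (-(2 * (ν : ℤ) + 2 - 2 * m)) *
        (y : ℂ) ^ (2 * (3 * (ν : ℤ) - 2 * m + 1)) = (y : ℂ) ^ (4 * (ν : ℤ) - 2 * m) :=
      z2 (cne h0) (by ring)
    rw [e1, ← e2]
    ring
  refine (tendsto_congr' h).2 ?_
  have t0 := (zp0 (n := 4 * (ν : ℤ) - 2 * m) (by omega)).mul
    (tr_lim (b := ν + 1) (m := m) (by omega) p)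
  have t1 := t0.sub (tr_lim1 (b := ν + 1) (m := m) (by omega) p hp)
  have t2 := (tendsto_const_nhds (x := ((-1 : ℂ) ^ (m * (p ++ [false]).count true)))).mul t1
  convert t2 using 2
  ring

theorem wr_Cw (d : ℤ) : wr (Cw d) = 6 * d := by
  have h1 : ∀ (n : ℕ) (z : List Lt), wr (List.replicate n z).flatten = n * wr z := by
    intro n z
    induction n with
    | zero => simp [wr]
    | succ n ih =>
      rw [List.replicate_succ, List.flatten_cons, wr_append, ih]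
      push_cast; ring
  unfold Cw
  split_ifs with hd
  · rw [h1]
    have : wr fw = 6 := by decide
    rw [this]; omega
  · rw [h1]
    have : wr bw = -6 := by decide
    rw [this]; omega

theorem wr_mw (u : List Bool) : wr (mw u) = (u.count true : ℤ) - (u.count false : ℤ) := by
  induction u with
  | nil => simp [mw, wr]
  | cons c u ih =>
    have : mw (c :: u) = (if c then (false, true) else (true, false)) :: mw u := by simp [mw]
    rw [this, wr_cons, ih]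
    cases c
    · simp; ring
    · simp; ring

theorem kp_zpow {v : ℂ} (l M : ℕ) (k : ℤ) (hk : Even k) : kp l M v ^ k =
    v ^ (-(k * ((M : ℤ) * (2 * (l : ℤ) + 3 * M + 1)))) := by
  unfold kp
  rw [mul_zpow, ← _root_.zpow_mul, ← zpow_natCast (-1 : ℂ) M, ← _root_.zpow_mul]
  have h1 : Even ((M : ℤ) * k) := hk.mul_left _
  rw [h1.neg_one_zpow, one_mul]
  congr 1
  ring

/-- the summand for `m = l + 3 M`, `ν = l + 2 M` -/
theorem ft1 (d : ℤ) (u : List Bool) (l M : ℕ) (h3 : (permL (Cw d ++ mw u)).IsThreeCycle)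
    (hev : Even (wr (Cw d ++ mw u))) {y : ℝ} (hy : 0 < y) (hy1 : y < 1) :
    (y : ℂ) ^ (E1 d (u.count true) (u.count false) (l + 2 * M : ℕ) (l + 3 * M : ℕ)) *
      ft (Cw d ++ mw u) (l + 2 * M) (l + 3 * M) y =
      (-1) ^ (l * u.count true) * (((y : ℂ) ^ (2 * ((l : ℤ) + 1)) - 1) *
        (Nw (l + M + 1) l (y : ℂ) u).trace) := by
  have hv := cne hy
  unfold ft
  have e0 : 3 * ((l + 2 * M : ℕ) : ℤ) - 2 * ((l + 3 * M : ℕ) : ℤ) + 1 = (l : ℤ) + 1 := by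
    push_cast; ring
  rw [TW_red hv l M (nz_real hy hy1 _) _ h3, TW_Cw hv _ _ (nz_real hy hy1 l), TW_norm hv, cL_pow,
    sc_zpow, kp_zpow l M _ hev, wr_append, wr_Cw, wr_mw, e0, ← br_mul hy]
  set P : ℤ := ((u.count true : ℕ) : ℤ) with hP
  set Q : ℤ := ((u.count false : ℕ) : ℤ) with hQ
  have e : (y : ℂ) ^ (E1 d P Q (l + 2 * M : ℕ) (l + 3 * M : ℕ)) =
      (y : ℂ) ^ ((l : ℤ) + 1) *
      (y : ℂ) ^ ((6 * d + (P - Q)) * ((M : ℤ) * (2 * (l : ℤ) + 3 * M + 1))) *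
      (y : ℂ) ^ (d * (2 * (l : ℤ) * (3 * ((l + M + 1 : ℕ) : ℤ) - 2 - l))) *
      (y : ℂ) ^ (P * ((l : ℤ) * (2 * ((l + M + 1 : ℕ) : ℤ) - 1 - l))) := by
    rw [← zpow_add₀ hv, ← zpow_add₀ hv, ← zpow_add₀ hv]
    congr 1
    unfold E1
    push_cast
    ring
  rw [e]
  have e1 : (y : ℂ) ^ ((6 * d + (P - Q)) * ((M : ℤ) * (2 * (l : ℤ) + 3 * M + 1))) *
      (y : ℂ) ^ (-((6 * d + (P - Q)) * ((M : ℤ) * (2 * (l : ℤ) + 3 * M + 1)))) = 1 := by
    rw [z2 hv (show _ = (0 : ℤ) by ring), zpow_zero]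
  have e2 : (y : ℂ) ^ (d * (2 * (l : ℤ) * (3 * ((l + M + 1 : ℕ) : ℤ) - 2 - l))) *
      (y : ℂ) ^ (-(d * (2 * (l : ℤ) * (3 * ((l + M + 1 : ℕ) : ℤ) - 2 - l)))) = 1 := by
    rw [z2 hv (show _ = (0 : ℤ) by ring), zpow_zero]
  have e3 : (y : ℂ) ^ (P * ((l : ℤ) * (2 * ((l + M + 1 : ℕ) : ℤ) - 1 - l))) *
      (y : ℂ) ^ (-(P * ((l : ℤ) * (2 * ((l + M + 1 : ℕ) : ℤ) - 1 - l)))) = 1 := by
    rw [z2 hv (show _ = (0 : ℤ) by ring), zpow_zero]
  generalize (y : ℂ) ^ ((6 * d + (P - Q)) * ((M : ℤ) * (2 * (l : ℤ) + 3 * M + 1))) = A at *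
  generalize (y : ℂ) ^ (-((6 * d + (P - Q)) * ((M : ℤ) * (2 * (l : ℤ) + 3 * M + 1)))) = A' at *
  generalize (y : ℂ) ^ (d * (2 * (l : ℤ) * (3 * ((l + M + 1 : ℕ) : ℤ) - 2 - l))) = B at *
  generalize (y : ℂ) ^ (-(d * (2 * (l : ℤ) * (3 * ((l + M + 1 : ℕ) : ℤ) - 2 - l)))) = B' at *
  generalize (y : ℂ) ^ (P * ((l : ℤ) * (2 * ((l + M + 1 : ℕ) : ℤ) - 1 - l))) = D at *
  generalize (y : ℂ) ^ (-(P * ((l : ℤ) * (2 * ((l + M + 1 : ℕ) : ℤ) - 1 - l)))) = D' at *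
  calc _ = (A * A') * (B * B') * (D * D') * ((-1) ^ (l * u.count true) *
        ((y : ℂ) ^ ((l : ℤ) + 1) * br (y : ℂ) ((l : ℤ) + 1) *
        (Nw (l + M + 1) l (y : ℂ) u).trace)) := by ring
    _ = _ := by rw [e1, e2, e3]; ring

theorem ft1_lim (d : ℤ) (p : List Bool) (l M : ℕ)
    (h3 : (permL (Cw d ++ mw (p ++ [false]))).IsThreeCycle)
    (hev : Even (wr (Cw d ++ mw (p ++ [false])))) :
    Tendsto (fun y : ℝ => (y : ℂ) ^ (E1 d ((p ++ [false]).count true)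
      ((p ++ [false]).count false) (l + 2 * M : ℕ) (l + 3 * M : ℕ)) *
      ft (Cw d ++ mw (p ++ [false])) (l + 2 * M) (l + 3 * M) y) l0
      (𝓝 (-(-1) ^ (l * (p ++ [false]).count true))) := by
  have h : (fun y : ℝ => (y : ℂ) ^ (E1 d ((p ++ [false]).count true)
      ((p ++ [false]).count false) (l + 2 * M : ℕ) (l + 3 * M : ℕ)) *
      ft (Cw d ++ mw (p ++ [false])) (l + 2 * M) (l + 3 * M) y) =ᶠ[l0] fun y =>
      (-1) ^ (l * (p ++ [false]).count true) * (((y : ℂ) ^ (2 * ((l : ℤ) + 1)) - 1) *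
        (Nw (l + M + 1) l (y : ℂ) (p ++ [false])).trace) := by
    filter_upwards [ev_pos, ev_lt] with y h0 h1 using ft1 d _ l M h3 hev h0 h1
  refine (tendsto_congr' h).2 ?_
  have t1 := ((zp0 (n := 2 * ((l : ℤ) + 1)) (by omega)).sub
    (tendsto_const_nhds (x := (1 : ℂ)))).mul (tr_lim (b := l + M + 1) (m := l) (by omega) p)
  have t2 := (tendsto_const_nhds (x := ((-1 : ℂ) ^ (l * (p ++ [false]).count true)))).mul t1
  simpa using t2

/-- knots have even writhe -/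
theorem wr_even (w : List Lt) (h : (permL w).IsThreeCycle) : Even (wr w) := by
  have h1 : Equiv.Perm.sign (permL w) = (-1 : ℤˣ) ^ (wr w) := by
    clear h
    induction w with
    | nil => simp [permL, wr]
    | cons g w ih =>
      rw [permL_cons, wr_cons, Equiv.Perm.sign_mul, ih, _root_.zpow_add]
      congr 1
      obtain ⟨c, d⟩ := g
      cases c <;> cases d <;> simp [Equiv.Perm.sign_swap]
  rw [h.sign] at h1
  by_contra h2
  rw [Int.not_even_iff_odd] at h2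
  rw [h2.neg_one_zpow] at h1
  exact absurd h1 (by decide)

/-- sum of terms with given leading exponents -/
theorem sum_lim (s : Finset ℕ) (f : ℕ → ℝ → ℂ) (e : ℕ → ℤ) (c : ℕ → ℂ) (E : ℤ)
    (hf : ∀ m ∈ s, Tendsto (fun y : ℝ => (y : ℂ) ^ (e m) * f m y) l0 (𝓝 (c m)))
    (hE : ∀ m ∈ s, e m ≤ E) :
    Tendsto (fun y : ℝ => (y : ℂ) ^ E * ∑ m ∈ s, f m y) l0
      (𝓝 (∑ m ∈ s, if e m = E then c m else 0)) := by
  have h1 : ∀ m ∈ s, Tendsto (fun y : ℝ => (y : ℂ) ^ E * f m y) l0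
      (𝓝 (if e m = E then c m else 0)) := by
    intro m hm
    have h2 := (zpn (n := E - e m) (by have := hE m hm; omega)).mul (hf m hm)
    have h3 : (fun y : ℝ => (y : ℂ) ^ E * f m y) =ᶠ[l0]
        fun y => (y : ℂ) ^ (E - e m) * ((y : ℂ) ^ (e m) * f m y) := by
      filter_upwards [ev_pos] with y hy
      rw [← mul_assoc, z2 (cne hy) (show E - e m + e m = E by ring)]
    refine (tendsto_congr' h3).2 ?_
    convert h2 using 2
    by_cases h4 : e m = E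
    · simp [h4]
    · have : ¬ (E - e m = 0) := by omega
      simp [h4, this]
  have h5 := tendsto_finsetSum s h1
  refine (tendsto_congr fun y => ?_).1 h5
  rw [mul_sum]

end Pool.Agent.Run7.h760
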