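import Pool.Agent.Run7.h760.Case3

/-! Torus knots on three strands. -/

set_option autoImplicit false

namespace Pool.Agent.Run7.h760

open Finset Matrix Filter Topology
open Pool.Agent.H550R3.Jones (br brf cjones)
open Pool.Agent.Y482.CY (sb LL UU Nz)
open Pool.Agent.Y481.CC (LI UI CM Lt TW permL wr enc)

theorem tr_cube {n : ℕ} (A : Matrix (Fin n) (Fin n) ℂ) (a : ℂ)
    (h : A ^ 3 = a • (1 : Matrix (Fin n) (Fin n) ℂ)) : ‖A.trace‖ ^ 3 ≤ (n : ℝ) ^ 3 * ‖a‖ := by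
  rcases Nat.eq_zero_or_pos n with hn | hn
  · subst hn
    simp [Matrix.trace]
  have : Nonempty (Fin n) := ⟨⟨0, hn⟩⟩
  have h1 : ∀ μ ∈ A.charpoly.roots, ‖μ‖ ^ 3 = ‖a‖ := by
    intro μ hμ
    have h2 : μ ∈ spectrum ℂ A :=
      Matrix.mem_spectrum_iff_isRoot_charpoly.2 (Polynomial.isRoot_of_mem_roots hμ)
    have h4 := spectrum.pow_mem_pow A 3 h2
    have h5 : A ^ 3 = algebraMap ℂ (Matrix (Fin n) (Fin n) ℂ) a := by
      rw [h, Algebra.algebraMap_eq_smul_one]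
    rw [h5, spectrum.scalar_eq] at h4
    rw [← norm_pow, Set.mem_singleton_iff.1 h4]
  set ρ : ℝ := ‖a‖ ^ ((1 : ℝ) / 3) with hρ
  have hρ0 : 0 ≤ ρ := Real.rpow_nonneg (norm_nonneg a) _
  have hρ3 : ρ ^ 3 = ‖a‖ := by
    rw [hρ, ← Real.rpow_natCast, ← Real.rpow_mul (norm_nonneg a)]
    norm_num
  have h6 : ∀ μ ∈ A.charpoly.roots, ‖μ‖ ≤ ρ := by
    intro μ hμ
    have := h1 μ hμ
    rw [← hρ3] at this
    exact le_of_eq ((pow_left_inj₀ (norm_nonneg μ) hρ0 (by norm_num)).1 this)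
  have h7 : ‖A.trace‖ ≤ n * ρ := by
    rw [Matrix.trace_eq_sum_roots_charpoly]
    calc ‖A.charpoly.roots.sum‖ ≤ (A.charpoly.roots.map fun μ => ‖μ‖).sum :=
          norm_multiset_sum_le _
      _ ≤ (A.charpoly.roots.map fun μ => ‖μ‖).card • ρ := by
          apply Multiset.sum_le_card_nsmul
          intro x hx
          obtain ⟨μ, hμ, rfl⟩ := Multiset.mem_map.1 hx
          exact h6 μ hμ
      _ ≤ n * ρ := by
          rw [nsmul_eq_mul, Multiset.card_map]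
          apply mul_le_mul_of_nonneg_right _ hρ0
          have := Polynomial.card_roots' A.charpoly
          rw [Matrix.charpoly_natDegree_eq_dim, Fintype.card_fin] at this
          exact_mod_cast this
  calc ‖A.trace‖ ^ 3 ≤ (n * ρ) ^ 3 := pow_le_pow_left₀ (norm_nonneg _) h7 3
    _ = (n : ℝ) ^ 3 * ‖a‖ := by rw [mul_pow, hρ3]

/-- `z` behaves like `(s_1 s_2)^ε` -/
structure Tor (z : List Lt) (ε : ℤ) : Prop where
  cube : ∀ v : ℂ, v ≠ 0 → ∀ b m : ℕ, Nz v m →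
    Mw b m v z ^ 3 = (sc b m v) ^ ε • (1 : Matrix (Fin (m + 1)) (Fin (m + 1)) ℂ)
  wrz : wr z = 2 * ε
  one : ∀ v : ℂ, v ≠ 0 → ∀ b : ℕ, Nz v 1 → TW z b 1 v = -v ^ (-(2 * ε * ((b : ℤ) - 1)))
  abs : ε = 1 ∨ ε = -1
  cyc : (permL z).IsThreeCycle

theorem Mw_zero {v : ℂ} (b : ℕ) (w : List Lt) : Mw b 0 v w = 1 := by
  induction w with
  | nil => rfl
  | cons g w ih =>
    rw [Mw_cons, ih, Matrix.mul_one]
    have h0 : ∀ i : Fin (0 + 1), i = 0 := fun i => Fin.ext (by omega)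
    have hn : Nz v 0 := fun l h1 h2 => absurd h2 (by omega)
    ext i j
    rw [h0 i, h0 j]
    obtain ⟨c, d⟩ := g
    cases c <;> cases d
    · simp [CM, LL_gb, gb_zero hn]
    · simp [CM, LI_gb, gb_zero hn]
    · simp [CM, UI_gb, gb_zero hn]
    · simp [CM, UU_gb, gb_zero hn]

theorem TW_zero {v : ℂ} (b : ℕ) (w : List Lt) : TW w b 0 v = 1 := by
  rw [TW_eq, Mw_zero]
  simp

theorem perm_Cw (k : ℤ) : permL (Cw k) = 1 := by
  have h1 : ∀ (n : ℕ) (z : List Lt), permL z = 1 → permL (List.replicate n z).flatten = 1 := by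
    intro n z hz
    induction n with
    | zero => rfl
    | succ n ih => rw [List.replicate_succ, List.flatten_cons, permL_append, ih, hz, mul_one]
  unfold Cw
  split_ifs
  · exact h1 _ _ (by decide)
  · exact h1 _ _ (by decide)

theorem tor_cube {z : List Lt} {ε : ℤ} (h : Tor z ε) (k : ℤ) {v : ℂ} (hv : v ≠ 0) (b m : ℕ)
    (hn : Nz v m) : ‖TW (Cw k ++ z) b m v‖ ^ 3 ≤ ((m : ℝ) + 1) ^ 3 * ‖sc b m v ^ (3 * k + ε)‖ := by
  rw [TW_Cw hv b m hn, norm_mul, mul_pow, TW_eq]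
  have h1 := tr_cube (Mw b m v z) _ (h.cube v hv b m hn)
  have e : ‖sc b m v ^ (3 * k + ε)‖ = ‖sc b m v ^ k‖ ^ 3 * ‖sc b m v ^ ε‖ := by
    rw [zpow_add₀ (sc_ne hv b m), norm_mul, mul_comm 3 k, _root_.zpow_mul, norm_zpow (_ ^ k)]
    norm_cast
  rw [e]
  have h2 : 0 ≤ ‖sc b m v ^ k‖ ^ 3 := by positivity
  push_cast at h1
  calc _ ≤ ‖sc b m v ^ k‖ ^ 3 * (((m : ℝ) + 1) ^ 3 * ‖sc b m v ^ ε‖) :=
        mul_le_mul_of_nonneg_left h1 h2
    _ = _ := by ring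

theorem norm_zero_of_cube (g : ℝ → ℂ) (h : Tendsto (fun y => ‖g y‖ ^ 3) l0 (𝓝 0)) :
    Tendsto g l0 (𝓝 0) := by
  rw [tendsto_zero_iff_norm_tendsto_zero]
  have h1 : ContinuousAt (fun x : ℝ => x ^ ((1 : ℝ) / 3)) 0 :=
    Real.continuousAt_rpow_const 0 _ (Or.inr (by norm_num))
  have h2 := h1.tendsto.comp h
  rw [Real.zero_rpow (by norm_num)] at h2
  refine (tendsto_congr fun y => ?_).1 h2
  simp only [Function.comp_apply]
  rw [← Real.rpow_natCast, ← Real.rpow_mul (norm_nonneg _)]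
  norm_num

/-- small terms -/
theorem tor_small {z : List Lt} {ε : ℤ} (h : Tor z ε) (k : ℤ) (ν m : ℕ) (hm : m ≤ 3 * ν / 2)
    (E : ℤ) (hE : 1 ≤ 3 * (E - (3 * (ν : ℤ) - 2 * m + 1)) -
      2 * (3 * k + ε) * m * (3 * (ν : ℤ) + 1 - m)) :
    Tendsto (fun y : ℝ => (y : ℂ) ^ E * ft (Cw k ++ z) ν m y) l0 (𝓝 0) := by
  apply norm_zero_of_cube
  set r : ℤ := 3 * (E - (3 * (ν : ℤ) - 2 * m + 1)) -
      2 * (3 * k + ε) * m * (3 * (ν : ℤ) + 1 - m) with hr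
  have h0 : Tendsto (fun y : ℝ => ((m : ℝ) + 1) ^ 3 * ‖(y : ℂ) ^ r‖) l0 (𝓝 0) := by
    have := ((zp0 (n := r) (by omega)).norm).const_mul (((m : ℝ) + 1) ^ 3)
    simpa using this
  refine tendsto_of_tendsto_of_tendsto_of_le_of_le' tendsto_const_nhds h0
    (Eventually.of_forall fun y => by positivity) ?_
  filter_upwards [ev_pos, ev_lt] with y hy hy1
  have hv := cne hy
  unfold ft
  set n : ℤ := 3 * (ν : ℤ) - 2 * m + 1 with hn
  have hn0 : 0 ≤ n := by omega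
  have e1 : (y : ℂ) ^ E * (br (y : ℂ) n * TW (Cw k ++ z) (ν + 1) m (y : ℂ)) =
      (y : ℂ) ^ (E - n) * ((y : ℂ) ^ n * br (y : ℂ) n) * TW (Cw k ++ z) (ν + 1) m (y : ℂ) := by
    have : (y : ℂ) ^ E = (y : ℂ) ^ (E - n) * (y : ℂ) ^ n := by
      rw [z2 hv]; ring
    rw [this]; ring
  have e2 : ‖(y : ℂ) ^ n * br (y : ℂ) n‖ ≤ 1 := by
    rw [br_mul hy]
    have e3 : (y : ℂ) ^ (2 * n) - 1 = ((y ^ (2 * n) - 1 : ℝ) : ℂ) := by push_cast; ring
    rw [e3, Complex.norm_real, Real.norm_eq_abs, abs_le]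
    have h1 : 0 < y ^ (2 * n) := zpow_pos hy _
    have h2 : y ^ (2 * n) ≤ 1 := by
      obtain ⟨j, hj⟩ : ∃ j : ℕ, 2 * n = j := ⟨(2 * n).toNat, by omega⟩
      rw [hj, zpow_natCast]
      exact pow_le_one₀ hy.le hy1.le
    constructor <;> linarith
  have e4 := tor_cube h k hv (ν + 1) m (nz_real hy hy1 m)
  rw [e1, norm_mul, norm_mul, mul_pow, mul_pow]
  have e5 : ‖(y : ℂ) ^ n * br (y : ℂ) n‖ ^ 3 ≤ 1 := pow_le_one₀ (norm_nonneg _) e2
  have e6 : ‖(y : ℂ) ^ r‖ = ‖(y : ℂ) ^ (E - n)‖ ^ 3 * ‖sc (ν + 1) m (y : ℂ) ^ (3 * k + ε)‖ := by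
    rw [← norm_pow, ← norm_mul]
    congr 1
    unfold sc
    rw [← zpow_natCast ((y : ℂ) ^ (E - n)), ← _root_.zpow_mul, ← _root_.zpow_mul,
      ← zpow_add₀ hv]
    congr 1
    rw [hr]
    push_cast
    ring
  rw [e6]
  calc ‖(y : ℂ) ^ (E - n)‖ ^ 3 * ‖(y : ℂ) ^ n * br (y : ℂ) n‖ ^ 3 *
        ‖TW (Cw k ++ z) (ν + 1) m (y : ℂ)‖ ^ 3 ≤ ‖(y : ℂ) ^ (E - n)‖ ^ 3 * 1 *
        (((m : ℝ) + 1) ^ 3 * ‖sc (ν + 1) m (y : ℂ) ^ (3 * k + ε)‖) := by
          apply mul_le_mul _ e4 (by positivity) (by positivity)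
          exact mul_le_mul_of_nonneg_left e5 (by positivity)
    _ = _ := by ring

theorem sum_one (s : Finset ℕ) (f : ℕ → ℝ → ℂ) (E : ℤ) (m1 : ℕ) (hm1 : m1 ∈ s) (c : ℂ)
    (h1 : Tendsto (fun y : ℝ => (y : ℂ) ^ E * f m1 y) l0 (𝓝 c))
    (h2 : ∀ m ∈ s, m ≠ m1 → Tendsto (fun y : ℝ => (y : ℂ) ^ E * f m y) l0 (𝓝 0)) :
    Tendsto (fun y : ℝ => (y : ℂ) ^ E * ∑ m ∈ s, f m y) l0 (𝓝 c) := by
  have h3 : ∀ m ∈ s, Tendsto (fun y : ℝ => (y : ℂ) ^ E * f m y) l0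
      (𝓝 (if m = m1 then c else 0)) := by
    intro m hm
    split_ifs with h
    · rw [h]; exact h1
    · exact h2 m hm h
  have h5 := tendsto_finsetSum s h3
  rw [Finset.sum_ite_eq' s m1 (fun _ => c), if_pos hm1] at h5
  refine (tendsto_congr fun y => ?_).1 h5
  rw [mul_sum]

theorem wr_tor {z : List Lt} {ε : ℤ} (h : Tor z ε) (k : ℤ) :
    (wr (Cw k ++ z) : ℝ) = 2 * (3 * k + ε) := by
  rw [wr_append, wr_Cw, h.wrz]
  push_cast; ring

theorem tor_cyc {z : List Lt} {ε : ℤ} (h : Tor z ε) (k : ℤ) :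
    (permL (Cw k ++ z)).IsThreeCycle := by
  rw [permL_append, perm_Cw, one_mul]
  exact h.cyc

theorem good_tor_neg {z : List Lt} {ε : ℤ} (h : Tor z ε) (k : ℤ) (hk : 3 * k + ε ≤ -2) :
    Good (Cw k ++ z) := by
  set q : ℤ := 3 * k + ε with hq
  have hqr : (q : ℝ) ≤ -2 := by exact_mod_cast hk
  refine good_of_at _ 0 0 (-2 * q) 0 fun ν _ => ?_
  refine ⟨3 * ν + 1, -1, by norm_num, ?_, ?_, ?_⟩
  · refine sum_one _ _ _ 0 (by simp) _ ?_ ?_
    · have h1 := br_lim (n := 3 * (ν : ℤ) + 1) (by omega)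
      refine (tendsto_congr fun y => ?_).1 h1
      unfold ft
      rw [TW_zero]
      simp
    · intro m hm hm0
      rw [mem_range] at hm
      apply tor_small h k ν m (by omega)
      rw [← hq]
      have hm1 : (1 : ℤ) ≤ m := by omega
      have hm2 : 2 * (m : ℤ) ≤ 3 * ν := by omega
      have h1 : 0 ≤ (-2 * q) * ((m : ℤ) * (3 * (ν : ℤ) + 1 - m)) := by
        apply mul_nonneg (by omega)
        exact mul_nonneg (by omega) (by omega)
      nlinarith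
  · rw [wr_tor h k]
    have : (0 : ℝ) ≤ ν := Nat.cast_nonneg ν
    have e : (3 * (k : ℝ) + ε) = q := by rw [hq]; push_cast; ring
    rw [e]
    push_cast
    nlinarith
  · rw [wr_tor h k]
    have : (0 : ℝ) ≤ ν := Nat.cast_nonneg ν
    have e : (3 * (k : ℝ) + ε) = q := by rw [hq]; push_cast; ring
    rw [e]
    push_cast
    nlinarith

/-- the dominating term for positive torus knots -/
theorem tor_top {z : List Lt} {ε : ℤ} (h : Tor z ε) (k : ℤ) (l M : ℕ) (hl : l = 0 ∨ l = 1)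
    {v : ℂ} (hv : v ≠ 0) (hn : Nz v (l + 3 * M + 1)) :
    TW (Cw k ++ z) (l + 2 * M + 1) (l + 3 * M) v = (-1) ^ l *
      v ^ (-((3 * k + ε) * (if l = 0 then 2 * M * (3 * (M : ℤ) + 1) else
        2 * ((M : ℤ) + 1) * (3 * M + 1)))) := by
  rw [TW_red hv l M (nzm hn (by omega)) _ (tor_cyc h k), kp_zpow l M _ (wr_even _ (tor_cyc h k)),
    TW_Cw hv _ _ (nzm hn (by omega)), wr_append, wr_Cw, h.wrz]
  rcases hl with hl | hl
  · subst hl
    rw [TW_zero, if_pos rfl]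
    have : sc (0 + M + 1) 0 v = 1 := by unfold sc; simp
    rw [this, _root_.one_zpow, mul_one, mul_one, pow_zero, one_mul]
    congr 1
    push_cast; ring
  · subst hl
    rw [h.one v hv _ (nzm hn (by omega)), if_neg (by norm_num), sc_zpow, pow_one, mul_neg, mul_neg,
      ← zpow_add₀ hv, ← zpow_add₀ hv, neg_one_mul]
    congr 2
    push_cast; ring

theorem good_tor_pos {z : List Lt} {ε : ℤ} (h : Tor z ε) (k : ℤ) (hk : 2 ≤ 3 * k + ε) :
    Good (Cw k ++ z) := by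
  set q : ℤ := 3 * k + ε with hq
  have hqr : (2 : ℝ) ≤ q := by exact_mod_cast hk
  have hqr2 : (3 * (k : ℝ) + ε) = q := by rw [hq]; push_cast; ring
  refine good_of_at _ (3 * q / 2) (3 * q) (3 * q) 0 fun ν _ => ?_
  obtain ⟨l, M, hl, hν⟩ : ∃ l M : ℕ, (l = 0 ∨ l = 1) ∧ ν = l + 2 * M :=
    ⟨ν % 2, ν / 2, by omega, by omega⟩
  subst hν
  set A : ℤ := (if l = 0 then 2 * M * (3 * (M : ℤ) + 1) else
        2 * ((M : ℤ) + 1) * (3 * M + 1)) with hA
  have hA3 : 3 * A = 2 * ((l + 3 * M : ℕ) : ℤ) * (3 * ((l + 2 * M : ℕ) : ℤ) + 1 -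
      ((l + 3 * M : ℕ) : ℤ)) := by
    rw [hA]
    rcases hl with hl | hl
    · subst hl; rw [if_pos rfl]; push_cast; ring
    · subst hl; rw [if_neg (by norm_num)]; push_cast; ring
  refine ⟨(l + 1) + q * A, -(-1) ^ l, neg_ne_zero.2 (pow_ne_zero _ (by norm_num)), ?_, ?_, ?_⟩
  · refine sum_one _ _ _ (l + 3 * M) (by rw [mem_range]; omega) _ ?_ ?_
    · have h1 := (br_lim (n := (l : ℤ) + 1) (by omega)).mul_const ((-1 : ℂ) ^ l)
      have e0 : (-1 : ℂ) * (-1) ^ l = -(-1) ^ l := by ring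
      rw [e0] at h1
      refine (tendsto_congr' ?_).1 h1
      filter_upwards [ev_pos, ev_lt] with y hy hy1
      have hv := cne hy
      unfold ft
      rw [tor_top h k l M hl hv (nz_real hy hy1 _), ← hA]
      have e1 : 3 * ((l + 2 * M : ℕ) : ℤ) - 2 * ((l + 3 * M : ℕ) : ℤ) + 1 = (l : ℤ) + 1 := by
        push_cast; ring
      have e3 : (y : ℂ) ^ ((l : ℤ) + 1 + q * A) = (y : ℂ) ^ ((l : ℤ) + 1) * (y : ℂ) ^ (q * A) :=
        zpow_add₀ hv _ _
      rw [e1, e3]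
      have e2 : (y : ℂ) ^ (q * A) * (y : ℂ) ^ (-((3 * k + ε) * A)) = 1 := by
        rw [z2 hv (show _ = (0 : ℤ) by rw [hq]; ring), zpow_zero]
      generalize (y : ℂ) ^ (q * A) = X at *
      generalize (y : ℂ) ^ (-((3 * k + ε) * A)) = Y at *
      linear_combination (-(y : ℂ) ^ ((l : ℤ) + 1) * br (y : ℂ) ((l : ℤ) + 1) * (-1) ^ l) * e2
    · intro m hm hm0
      rw [mem_range] at hm
      apply tor_small h k _ m (by omega)
      rw [← hq]
      -- `m = l + 3 M - j`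
      obtain ⟨j, hj⟩ : ∃ j : ℕ, m + j = l + 3 * M := ⟨l + 3 * M - m, by omega⟩
      have hj1 : (1 : ℤ) ≤ j := by omega
      have hmj : (m : ℤ) = l + 3 * M - j := by omega
      have hl0 : (0 : ℤ) ≤ l := Int.natCast_nonneg l
      have key : 3 * ((l : ℤ) + 1 + q * A - (3 * ((l + 2 * M : ℕ) : ℤ) - 2 * m + 1)) -
          2 * q * m * (3 * ((l + 2 * M : ℕ) : ℤ) + 1 - m) =
          2 * j * (q * (j + l + 1) - 3) := by
        have : 3 * (q * A) = q * (3 * A) := by ring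
        rw [mul_sub, mul_add, mul_add, this, hA3, hmj]
        push_cast
        ring
      rw [key]
      have h4 : 2 * 2 ≤ q * ((j : ℤ) + l + 1) :=
        mul_le_mul hk (by omega) (by norm_num) (by omega)
      nlinarith
  · rw [wr_tor h k, hqr2]
    have h0 : (0 : ℝ) ≤ M := Nat.cast_nonneg M
    rcases hl with hl | hl
    · subst hl
      rw [hA, if_pos rfl]
      push_cast
      nlinarith [mul_nonneg (by linarith : (0 : ℝ) ≤ q) h0]
    · subst hl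
      rw [hA, if_neg (by norm_num)]
      push_cast
      nlinarith [mul_nonneg (by linarith : (0 : ℝ) ≤ q) h0]
  · rw [wr_tor h k, hqr2]
    have h0 : (0 : ℝ) ≤ M := Nat.cast_nonneg M
    rcases hl with hl | hl
    · subst hl
      rw [hA, if_pos rfl]
      push_cast
      nlinarith [mul_nonneg (by linarith : (0 : ℝ) ≤ q) h0]
    · subst hl
      rw [hA, if_neg (by norm_num)]
      push_cast
      nlinarith [mul_nonneg (by linarith : (0 : ℝ) ≤ q) h0]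

end Pool.Agent.Run7.h760
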